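import Mathlib

-- merged part: Pool.Agent.Work.MP_001c0f_co.Sph
section
-- merged part: Pool.Agent.Work.MP_001c0f_co.Basic
section
set_option autoImplicit false
set_option linter.unusedSectionVars false

open Finset

namespace Pool.Agent.Work.MP_001c0f_co

variable {V : Type} [Fintype V] [DecidableEq V] (G : SimpleGraph V)

/-- clique predicate for finsets -/
def Cq (σ : Finset V) : Prop := ∀ u ∈ σ, ∀ v ∈ σ, u ≠ v → G.Adj u v

open Classical in
/-- cliques inside `S` -/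
noncomputable def cl (S : Finset V) : Finset (Finset V) := S.powerset.filter (fun σ => Cq G σ)

/-- cliques of size `j` inside `S` -/
noncomputable def clj (S : Finset V) (j : ℕ) : Finset (Finset V) :=
  (cl G S).filter (fun σ => σ.card = j)

open Classical in
/-- common neighbours -/
noncomputable def nb (τ : Finset V) : Finset V := univ.filter (fun v => ∀ u ∈ τ, G.Adj u v)

/-- number of cliques of size `j` -/
noncomputable def cc (S : Finset V) (j : ℕ) : ℤ := ((clj G S j).card : ℤ)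

/-- the clique polynomial at `-x` -/
noncomputable def Q (S : Finset V) (x : ℝ) : ℝ := ∑ σ ∈ cl G S, (-x) ^ σ.card

variable {G}

lemma mem_cl {S σ : Finset V} : σ ∈ cl G S ↔ σ ⊆ S ∧ Cq G σ := by
  unfold cl; simp

lemma mem_clj {S σ : Finset V} {j : ℕ} : σ ∈ clj G S j ↔ σ ⊆ S ∧ Cq G σ ∧ σ.card = j := by
  unfold clj; simp [mem_cl, and_assoc]

lemma mem_nb {τ : Finset V} {v : V} : v ∈ nb G τ ↔ ∀ u ∈ τ, G.Adj u v := by
  unfold nb; simp

lemma mem_nb1 {a v : V} : v ∈ nb G {a} ↔ G.Adj a v := by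
  simp [mem_nb]

lemma nb_empty : nb G (∅ : Finset V) = univ := by
  ext v; simp [mem_nb]

lemma nb_insert (a : V) (τ : Finset V) : nb G (insert a τ) = nb G τ ∩ nb G {a} := by
  ext v; simp [mem_nb, and_comm]

lemma nb_union (σ τ : Finset V) : nb G (σ ∪ τ) = nb G σ ∩ nb G τ := by
  ext v
  simp only [mem_nb, mem_union, mem_inter]
  constructor
  · intro h; exact ⟨fun u hu => h u (Or.inl hu), fun u hu => h u (Or.inr hu)⟩
  · rintro ⟨h1, h2⟩ u (hu | hu)
    · exact h1 u hu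
    · exact h2 u hu

lemma not_mem_of_mem_nb {τ : Finset V} {v : V} (h : v ∈ nb G τ) : v ∉ τ := fun hv =>
  G.irrefl (mem_nb.1 h v hv)

lemma Cq.mono {σ τ : Finset V} (h : Cq G σ) (hs : τ ⊆ σ) : Cq G τ :=
  fun u hu v hv huv => h u (hs hu) v (hs hv) huv

lemma cq_empty : Cq G (∅ : Finset V) := fun u hu => absurd hu (notMem_empty u)

lemma cq_singleton (a : V) : Cq G ({a} : Finset V) := by
  intro u hu v hv huv
  rw [mem_singleton] at hu hv
  exact absurd (hu.trans hv.symm) huv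

lemma Cq.insert {τ : Finset V} {a : V} (h : Cq G τ) (ha : a ∈ nb G τ) : Cq G (insert a τ) := by
  intro u hu v hv huv
  rw [mem_insert] at hu hv
  rcases hu with rfl | hu <;> rcases hv with rfl | hv
  · exact absurd rfl huv
  · exact (mem_nb.1 ha v hv).symm
  · exact mem_nb.1 ha u hu
  · exact h u hu v hv huv

lemma Cq.union {τ ρ : Finset V} (h : Cq G τ) (h2 : Cq G ρ) (hs : ρ ⊆ nb G τ) : Cq G (τ ∪ ρ) := by
  intro u hu v hv huv
  rw [mem_union] at hu hv
  rcases hu with hu | hu <;> rcases hv with hv | hv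
  · exact h u hu v hv huv
  · exact mem_nb.1 (hs hv) u hu
  · exact (mem_nb.1 (hs hu) v hv).symm
  · exact h2 u hu v hv huv

lemma disjoint_of_subset_nb {τ ρ : Finset V} (hs : ρ ⊆ nb G τ) : Disjoint τ ρ := by
  rw [disjoint_right]
  intro a ha
  exact not_mem_of_mem_nb (hs ha)

lemma card_union_of_subset_nb {τ ρ : Finset V} (hs : ρ ⊆ nb G τ) :
    (τ ∪ ρ).card = τ.card + ρ.card := card_union_of_disjoint (disjoint_of_subset_nb hs)

/-- cliques through a vertex -/
lemma sum_cl_mem {M : Type} [AddCommMonoid M] {S : Finset V} {a : V} (ha : a ∈ S)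
    (F : Finset V → M) :
    ∑ σ ∈ (cl G S).filter (fun σ => a ∈ σ), F σ = ∑ τ ∈ cl G (S ∩ nb G {a}), F (insert a τ) := by
  symm
  refine sum_bij' (fun τ _ => insert a τ) (fun σ _ => σ.erase a) ?_ ?_ ?_ ?_ ?_
  · intro τ hτ
    rw [mem_cl] at hτ
    rw [mem_filter, mem_cl]
    refine ⟨⟨?_, hτ.2.insert ?_⟩, mem_insert_self _ _⟩
    · exact insert_subset ha (hτ.1.trans inter_subset_left)
    · rw [mem_nb]
      intro u hu
      exact (mem_nb1.1 (mem_inter.1 (hτ.1 hu)).2).symm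
  · intro σ hσ
    rw [mem_filter, mem_cl] at hσ
    rw [mem_cl]
    refine ⟨?_, hσ.1.2.mono (erase_subset _ _)⟩
    intro u hu
    rw [mem_erase] at hu
    exact mem_inter.2 ⟨hσ.1.1 hu.2, mem_nb1.2 (hσ.1.2 a hσ.2 u hu.2 (Ne.symm hu.1))⟩
  · intro τ hτ
    rw [mem_cl] at hτ
    apply erase_insert
    intro h
    exact G.irrefl (mem_nb1.1 (mem_inter.1 (hτ.1 h)).2)
  · intro σ hσ
    rw [mem_filter] at hσ
    exact insert_erase hσ.2
  · intro τ _; rfl

lemma sum_cl_split {M : Type} [AddCommMonoid M] {S : Finset V} {a : V} (ha : a ∈ S)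
    (F : Finset V → M) :
    ∑ σ ∈ cl G S, F σ =
      ∑ σ ∈ cl G (S.erase a), F σ + ∑ τ ∈ cl G (S ∩ nb G {a}), F (insert a τ) := by
  rw [← sum_cl_mem ha F, ← sum_filter_add_sum_filter_not (cl G S) (fun σ => a ∈ σ), add_comm]
  congr 1
  apply sum_congr _ (fun _ _ => rfl)
  ext σ
  simp only [mem_filter, mem_cl, subset_erase]
  tauto

lemma card_insert_of_cl {S τ : Finset V} {a : V} (h : τ ∈ cl G (S ∩ nb G {a})) :
    (insert a τ).card = τ.card + 1 := by
  apply card_insert_of_notMem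
  intro ha
  exact G.irrefl (mem_nb1.1 (mem_inter.1 ((mem_cl.1 h).1 ha)).2)

lemma Q_rec {S : Finset V} {a : V} (ha : a ∈ S) (x : ℝ) :
    Q G S x = Q G (S.erase a) x - x * Q G (S ∩ nb G {a}) x := by
  unfold Q
  rw [sum_cl_split ha, mul_sum, sub_eq_add_neg, ← sum_neg_distrib]
  congr 1
  apply sum_congr rfl
  intro τ hτ
  rw [card_insert_of_cl hτ, pow_succ]; ring

lemma Q_insert {S : Finset V} {a : V} (ha : a ∉ S) (x : ℝ) :
    Q G (insert a S) x = Q G S x - x * Q G (S ∩ nb G {a}) x := by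
  rw [Q_rec (mem_insert_self a S), erase_insert ha]
  congr 3
  ext v
  simp only [mem_inter, mem_insert, mem_nb1]
  constructor
  · rintro ⟨rfl | h, h2⟩
    · exact absurd h2 G.irrefl
    · exact ⟨h, h2⟩
  · rintro ⟨h, h2⟩; exact ⟨Or.inr h, h2⟩

lemma cl_empty : cl G (∅ : Finset V) = {∅} := by
  ext σ
  simp only [mem_cl, subset_empty, mem_singleton]
  exact ⟨fun h => h.1, fun h => ⟨h, h ▸ cq_empty⟩⟩

lemma Q_empty (x : ℝ) : Q G ∅ x = 1 := by
  unfold Q; rw [cl_empty]; simp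

lemma Q_zero (S : Finset V) : Q G S 0 = 1 := by
  classical
  unfold Q
  rw [sum_eq_single_of_mem ∅ (mem_cl.2 ⟨empty_subset _, cq_empty⟩)]
  · simp
  · intro σ _ hσ
    have : σ.card ≠ 0 := fun h => hσ (card_eq_zero.1 h)
    simp [this]

lemma Q_cont (S : Finset V) : Continuous (fun x => Q G S x) := by
  unfold Q
  fun_prop

/-- Moebius identity -/
lemma Q_mobius (x : ℝ) : ∀ (n : ℕ) (U S : Finset V), U.card = n → U ⊆ S →
    Q G (S \ U) x = ∑ τ ∈ cl G U, x ^ τ.card * Q G (S ∩ nb G τ) x := by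
  intro n
  induction n using Nat.strong_induction_on with
  | _ n ih =>
    intro U S hn hU
    rcases U.eq_empty_or_nonempty with rfl | ⟨a, ha⟩
    · rw [cl_empty]; simp [nb_empty]
    · have h1 : (U.erase a).card < n := hn ▸ card_erase_lt_of_mem ha
      have h2 : (U ∩ nb G {a}).card < n := by
        rw [← hn]
        apply card_lt_card
        refine ⟨inter_subset_left, fun h => ?_⟩
        exact G.irrefl (mem_nb1.1 (mem_inter.1 (h ha)).2)
      have e1 := ih _ h1 (U.erase a) S rfl ((erase_subset _ _).trans hU)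
      have e2 := ih _ h2 (U ∩ nb G {a}) (S ∩ nb G {a}) rfl
        (inter_subset_inter hU (Subset.refl _))
      have hmem : a ∈ S \ U.erase a := by simp [hU ha]
      have e3 := Q_rec (G := G) hmem x
      have s1 : (S \ U.erase a).erase a = S \ U := by
        ext v
        simp only [mem_erase, mem_sdiff]
        constructor
        · rintro ⟨h, h2, h3⟩; exact ⟨h2, fun h4 => h3 ⟨h, h4⟩⟩
        · rintro ⟨h, h2⟩; exact ⟨fun h3 => h2 (h3 ▸ ha), h, fun h3 => h2 h3.2⟩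
      have s2 : (S \ U.erase a) ∩ nb G {a} = (S ∩ nb G {a}) \ (U ∩ nb G {a}) := by
        ext v
        simp only [mem_erase, mem_sdiff, mem_inter, mem_nb1]
        constructor
        · rintro ⟨⟨h, h2⟩, h3⟩
          exact ⟨⟨h, h3⟩, fun h4 => h2 ⟨h3.ne.symm, h4.1⟩⟩
        · rintro ⟨⟨h, h3⟩, h2⟩
          exact ⟨⟨h, fun h4 => h2 ⟨h4.2, h3⟩⟩, h3⟩
      rw [s1, s2, e1, e2] at e3
      rw [sum_cl_split ha]
      have e4 : ∑ τ ∈ cl G (U ∩ nb G {a}), x ^ (insert a τ).card * Q G (S ∩ nb G (insert a τ)) x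
          = x * ∑ τ ∈ cl G (U ∩ nb G {a}), x ^ τ.card * Q G (S ∩ nb G {a} ∩ nb G τ) x := by
        rw [mul_sum]
        apply sum_congr rfl
        intro τ hτ
        rw [card_insert_of_cl hτ, nb_insert, pow_succ, inter_comm (nb G τ), inter_assoc]
        ring
      rw [e4]
      linarith only [e3]

lemma sum_cl_eq_sum_clj {M : Type} [AddCommMonoid M] {S : Finset V} {N : ℕ}
    (h : ∀ σ ∈ cl G S, σ.card < N) (F : Finset V → M) :
    ∑ σ ∈ cl G S, F σ = ∑ j ∈ range N, ∑ σ ∈ clj G S j, F σ := by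
  unfold clj
  rw [sum_fiberwise_of_maps_to (g := fun σ : Finset V => σ.card)]
  intro σ hσ
  exact mem_range.2 (h σ hσ)

lemma sum_clj_const {S : Finset V} {j : ℕ} (r : ℝ) :
    ∑ _σ ∈ clj G S j, r = (cc G S j : ℝ) * r := by
  simp [cc]

lemma Q_eq_cc {S : Finset V} {N : ℕ} (h : ∀ σ ∈ cl G S, σ.card < N) (x : ℝ) :
    Q G S x = ∑ j ∈ range N, (cc G S j : ℝ) * (-x) ^ j := by
  unfold Q
  rw [sum_cl_eq_sum_clj h]
  apply sum_congr rfl
  intro j _
  rw [← sum_clj_const]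
  apply sum_congr rfl
  intro σ hσ
  rw [(mem_clj.1 hσ).2.2]

lemma clj_zero (S : Finset V) : clj G S 0 = {∅} := by
  ext σ
  simp only [mem_clj, card_eq_zero, mem_singleton]
  exact ⟨fun h => h.2.2, fun h => by subst h; exact ⟨empty_subset _, cq_empty, rfl⟩⟩

lemma cc_zero (S : Finset V) : cc G S 0 = 1 := by
  simp [cc, clj_zero]

lemma sum_clj_one {M : Type} [AddCommMonoid M] (S : Finset V) (F : Finset V → M) :
    ∑ σ ∈ clj G S 1, F σ = ∑ u ∈ S, F {u} := by
  symm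
  refine sum_bij (fun u _ => ({u} : Finset V)) ?_ ?_ ?_ ?_
  · intro u hu
    exact mem_clj.2 ⟨singleton_subset_iff.2 hu, cq_singleton u, card_singleton u⟩
  · intro u _ v _ h
    exact singleton_injective h
  · intro σ hσ
    rw [mem_clj] at hσ
    obtain ⟨u, rfl⟩ := card_eq_one.1 hσ.2.2
    exact ⟨u, singleton_subset_iff.1 hσ.1, rfl⟩
  · intro u _; rfl

lemma cc_one (S : Finset V) : cc G S 1 = S.card := by
  unfold cc
  rw [card_eq_sum_ones, sum_clj_one]
  simp

/-- weighted handshake -/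
lemma handshake (S : Finset V) (j : ℕ) (F : Finset V → ℤ) :
    ((j : ℤ) + 1) * ∑ σ ∈ clj G S (j + 1), F σ =
      ∑ u ∈ S, ∑ τ ∈ clj G (S ∩ nb G {u}) j, F (insert u τ) := by
  have h1 : ∀ u ∈ S, ∑ τ ∈ clj G (S ∩ nb G {u}) j, F (insert u τ) =
      ∑ σ ∈ clj G S (j + 1), if u ∈ σ then F σ else 0 := by
    intro u hu
    have := sum_cl_mem (G := G) hu (fun σ => if σ.card = j + 1 then F σ else 0)
    unfold clj
    rw [sum_filter, sum_filter]
    rw [sum_filter] at this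
    transitivity ∑ τ ∈ cl G (S ∩ nb G {u}),
      if (insert u τ).card = j + 1 then F (insert u τ) else 0
    · apply sum_congr rfl
      intro τ hτ
      rw [card_insert_of_cl hτ]
      simp
    · rw [← this]
      apply sum_congr rfl
      intro σ _
      split_ifs <;> rfl
  rw [sum_congr rfl h1, sum_comm, mul_sum]
  apply sum_congr rfl
  intro σ hσ
  rw [mem_clj] at hσ
  rw [← sum_filter, filter_mem_eq_inter, inter_eq_right.2 hσ.1, sum_const, hσ.2.2]
  simp

lemma cc_eq_sum (S : Finset V) (j : ℕ) : cc G S j = ∑ _σ ∈ clj G S j, (1 : ℤ) := by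
  simp [cc]

lemma handshake_cc (S : Finset V) (j : ℕ) :
    ((j : ℤ) + 1) * cc G S (j + 1) = ∑ u ∈ S, cc G (S ∩ nb G {u}) j := by
  rw [cc_eq_sum, handshake]
  apply sum_congr rfl
  intro u _
  rw [cc_eq_sum]

lemma handshake_cc' (S : Finset V) (j : ℕ) :
    ((j : ℤ) + 1) * cc G S (j + 1) = ∑ ρ ∈ clj G S j, ((S ∩ nb G ρ).card : ℤ) := by
  rw [handshake_cc]
  simp only [cc_eq_sum, card_eq_sum_ones, Nat.cast_sum, Nat.cast_one]
  apply sum_comm'
  intro u ρ
  simp only [mem_clj, mem_inter, mem_nb, subset_iff, mem_singleton, forall_eq]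
  constructor
  · rintro ⟨hu, h1, h2, h3⟩
    exact ⟨⟨hu, fun w hw => (h1 hw).2.symm⟩, fun w hw => (h1 hw).1, h2, h3⟩
  · rintro ⟨⟨hu, h0⟩, h1, h2, h3⟩
    exact ⟨hu, fun w hw => ⟨h1 hw, (h0 w hw).symm⟩, h2, h3⟩

lemma cc_nonneg (S : Finset V) (j : ℕ) : 0 ≤ cc G S j := by
  unfold cc; positivity

lemma cc_eq_zero_of_card_lt {S : Finset V} {j : ℕ} (h : S.card < j) : cc G S j = 0 := by
  unfold cc
  rw [Nat.cast_eq_zero, card_eq_zero, eq_empty_iff_forall_notMem]
  intro σ hσ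
  rw [mem_clj] at hσ
  have := card_le_card hσ.1
  omega

/-! ### positivity -/

lemma Q_mono {S : Finset V} {x : ℝ} (hx : 0 ≤ x) (h : ∀ T ⊆ S, 0 ≤ Q G T x) :
    ∀ (n : ℕ) (T : Finset V), T ⊆ S → (S \ T).card = n → Q G S x ≤ Q G T x := by
  intro n
  induction n with
  | zero =>
    intro T hT hn
    rw [card_eq_zero, sdiff_eq_empty_iff_subset] at hn
    rw [Subset.antisymm hT hn]
  | succ n ih =>
    intro T hT hn
    obtain ⟨a, ha⟩ : (S \ T).Nonempty := card_pos.1 (by omega)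
    rw [mem_sdiff] at ha
    have h1 := ih (insert a T) (insert_subset ha.1 hT) (by
      rw [sdiff_insert, card_erase_of_mem (mem_sdiff.2 ha)]; omega)
    rw [Q_insert ha.2] at h1
    have h2 := h (T ∩ nb G {a}) (inter_subset_left.trans hT)
    linarith only [h1, hx, h2, mul_nonneg hx h2]

lemma Q_nonneg {S : Finset V} {a : ℝ} (ha : 0 ≤ a) (h : ∀ t, 0 ≤ t → t < a → 0 < Q G S t) :
    ∀ T ⊆ S, 0 ≤ Q G T a := by
  let A : Set ℝ := {t | ∀ T ⊆ S, 0 ≤ Q G T t}
  have hA : IsClosed A := by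
    have : A = ⋂ T ∈ S.powerset, {t | 0 ≤ Q G T t} := by
      ext t; simp [A]
    rw [this]
    exact isClosed_biInter (fun T _ => isClosed_le continuous_const (Q_cont T))
  have key : Set.Icc 0 a ⊆ A := by
    apply IsClosed.Icc_subset_of_forall_mem_nhdsWithin (hA.inter isClosed_Icc)
    · intro T _; rw [Q_zero]; norm_num
    · rintro x ⟨hx, hx0, hxa⟩
      have h1 : ∀ T ∈ S.powerset, ∀ᶠ t in nhds x, 0 ≤ Q G T t := by
        intro T hT
        have h2 : 0 < Q G T x :=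
          lt_of_lt_of_le (h x hx0 hxa) (Q_mono hx0 hx _ T (mem_powerset.1 hT) rfl)
        exact ((Q_cont T).continuousAt.eventually (lt_mem_nhds h2)).mono (fun t ht => le_of_lt ht)
      have h3 := (Filter.eventually_all_finset S.powerset).2 h1
      apply mem_nhdsWithin_of_mem_nhds
      exact h3.mono (fun t ht T hT => ht T (mem_powerset.2 hT))
  exact key ⟨ha, le_refl a⟩

lemma Q_first_root {S : Finset V} {a : ℝ} (ha : 0 ≤ a) (h : Q G S a ≤ 0) :
    ∃ t, 0 < t ∧ t ≤ a ∧ Q G S t = 0 ∧ ∀ T ⊆ S, 0 ≤ Q G T t := by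
  have hc : IsCompact (Set.Icc 0 a ∩ {t | Q G S t ≤ 0}) :=
    isCompact_Icc.inter_right (isClosed_le (Q_cont S) continuous_const)
  obtain ⟨t, ⟨⟨ht0, hta⟩, ht⟩, hmin⟩ := hc.exists_isLeast ⟨a, ⟨ha, le_refl a⟩, h⟩
  have h1 : ∀ T ⊆ S, 0 ≤ Q G T t := by
    apply Q_nonneg ht0
    intro s hs0 hst
    by_contra hneg
    have := hmin (a := s) ⟨⟨hs0, hst.le.trans hta⟩, not_lt.1 hneg⟩
    linarith
  refine ⟨t, lt_of_le_of_ne ht0 ?_, hta, le_antisymm ht (h1 S (Subset.refl _)), h1⟩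
  rintro rfl
  have : Q G S 0 ≤ 0 := ht
  rw [Q_zero] at this
  linarith

end Pool.Agent.Work.MP_001c0f_co
end

-- merged part: Pool.Agent.Work.MP_001c0f_co.Sph
section
set_option autoImplicit false
set_option linter.unusedSectionVars false

open Finset

namespace Pool.Agent.Work.MP_001c0f_co

variable {V : Type} [Fintype V] [DecidableEq V]

/-- combinatorial shadow of a flag homology 4-sphere -/
structure Sph (G : SimpleGraph V) : Prop where
  K : ∀ σ, Cq G σ → σ.card ≤ 5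
  N : ∀ τ, Cq G τ → τ.card < 5 → (nb G τ).Nonempty
  E : ∀ τ, Cq G τ → Q G (nb G τ) 1 = (-1) ^ (5 - τ.card)
  C : ∀ τ, Cq G τ → τ.card ≤ 3 → ∀ A ⊆ nb G τ,
    (∀ a ∈ A, ∀ b ∈ nb G τ, G.Adj a b → b ∈ A) → A = ∅ ∨ A = nb G τ

variable (G : SimpleGraph V)

/-- number of common neighbours -/
noncomputable def NN (τ : Finset V) : ℤ := ((nb G τ).card : ℤ)

noncomputable def xv (u : V) : ℤ := NN G {u} - 8
noncomputable def yv (u : V) : ℤ := cc G (nb G {u}) 2 - 24 - 5 * xv G u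
noncomputable def g1 (_G : SimpleGraph V) : ℤ := (Fintype.card V : ℤ) - 10
noncomputable def g2 : ℤ := cc G univ 2 - 40 - 7 * g1 G

variable {G}

lemma card_insert_nb {τ : Finset V} {u : V} (hu : u ∈ nb G τ) :
    (insert u τ).card = τ.card + 1 := card_insert_of_notMem (not_mem_of_mem_nb hu)

lemma hs_nb (τ : Finset V) (j : ℕ) :
    ((j : ℤ) + 1) * cc G (nb G τ) (j + 1) = ∑ u ∈ nb G τ, cc G (nb G (insert u τ)) j := by
  rw [handshake_cc]
  apply sum_congr rfl
  intro u _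
  rw [nb_insert]

lemma hs_nb1 (τ : Finset V) :
    2 * cc G (nb G τ) 2 = ∑ u ∈ nb G τ, NN G (insert u τ) := by
  have := hs_nb (G := G) τ 1
  simp only [cc_one] at this
  simpa [NN, one_add_one_eq_two] using this

namespace Sph

variable (h : Sph G)
include h

lemma cc_big {τ : Finset V} (hτ : Cq G τ) {j : ℕ} (hj : 5 < τ.card + j) :
    cc G (nb G τ) j = 0 := by
  unfold cc
  rw [Nat.cast_eq_zero, card_eq_zero, eq_empty_iff_forall_notMem]
  intro σ hσ
  rw [mem_clj] at hσ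
  have h1 := h.K _ (hτ.union hσ.2.1 hσ.1)
  rw [card_union_of_subset_nb hσ.1] at h1
  omega

lemma lt_six (S : Finset V) : ∀ σ ∈ cl G S, σ.card < 6 := fun σ hσ =>
  Nat.lt_succ_of_le (h.K σ (mem_cl.1 hσ).2)

lemma Q_eq (S : Finset V) (x : ℝ) :
    Q G S x = 1 - (S.card : ℝ) * x + cc G S 2 * x ^ 2 - cc G S 3 * x ^ 3 + cc G S 4 * x ^ 4
      - cc G S 5 * x ^ 5 := by
  rw [Q_eq_cc (h.lt_six S)]
  simp only [sum_range_succ, range_zero, sum_empty, cc_zero, cc_one]
  push_cast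
  ring

lemma euler {τ : Finset V} (hτ : Cq G τ) :
    1 - NN G τ + cc G (nb G τ) 2 - cc G (nb G τ) 3 + cc G (nb G τ) 4 - cc G (nb G τ) 5
      = (-1) ^ (5 - τ.card) := by
  have h1 := h.E τ hτ
  rw [h.Q_eq] at h1
  simp only [mul_one, one_pow] at h1
  unfold NN
  exact_mod_cast h1

lemma nb5 {τ : Finset V} (hτ : Cq G τ) (hc : τ.card = 5) : nb G τ = ∅ := by
  have := h.cc_big hτ (j := 1) (by omega)
  rw [cc_one] at this
  exact card_eq_zero.1 (by exact_mod_cast this)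

lemma N4 {τ : Finset V} (hτ : Cq G τ) (hc : τ.card = 4) : NN G τ = 2 := by
  have := h.euler hτ
  rw [h.cc_big hτ (j := 2) (by omega), h.cc_big hτ (j := 3) (by omega),
    h.cc_big hτ (j := 4) (by omega), h.cc_big hτ (j := 5) (by omega), hc] at this
  norm_num at this
  linarith only [this]

lemma c3_2 {τ : Finset V} (hτ : Cq G τ) (hc : τ.card = 3) : cc G (nb G τ) 2 = NN G τ := by
  have h1 := hs_nb1 (G := G) τ
  rw [sum_congr rfl (fun u hu => h.N4 (hτ.insert hu) (by rw [card_insert_nb hu, hc]))] at h1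
  simp only [sum_const, nsmul_eq_mul] at h1
  unfold NN
  linarith only [h1]

lemma c2 {τ : Finset V} (hτ : Cq G τ) (hc : τ.card = 2) :
    cc G (nb G τ) 2 = 3 * NN G τ - 6 ∧ cc G (nb G τ) 3 = 2 * NN G τ - 4 := by
  have h1 := hs_nb1 (G := G) τ
  have h2 := hs_nb (G := G) τ 2
  rw [sum_congr rfl (fun u hu => h.c3_2 (hτ.insert hu) (by rw [card_insert_nb hu, hc])), ← h1] at h2
  have h3 := h.euler hτ
  rw [h.cc_big hτ (j := 4) (by omega), h.cc_big hτ (j := 5) (by omega), hc] at h3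
  norm_num at h2 h3
  constructor <;> linarith only [h2, h3]

lemma c1 {τ : Finset V} (hτ : Cq G τ) (hc : τ.card = 1) :
    cc G (nb G τ) 3 = 2 * cc G (nb G τ) 2 - 2 * NN G τ ∧
      cc G (nb G τ) 4 = cc G (nb G τ) 2 - NN G τ := by
  have h1 := hs_nb1 (G := G) τ
  have h2 := hs_nb (G := G) τ 2
  have h3 := hs_nb (G := G) τ 3
  rw [sum_congr rfl (fun u hu => (h.c2 (hτ.insert hu) (by rw [card_insert_nb hu, hc])).1),
    sum_sub_distrib, ← mul_sum, ← h1] at h2
  rw [sum_congr rfl (fun u hu => (h.c2 (hτ.insert hu) (by rw [card_insert_nb hu, hc])).2),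
    sum_sub_distrib, ← mul_sum, ← h1] at h3
  simp only [sum_const, nsmul_eq_mul] at h2 h3
  norm_num at h2 h3
  unfold NN
  constructor <;> linarith only [h2, h3]

lemma c0 : cc G univ 3 = 80 + 18 * g1 G + 4 * g2 G ∧ cc G univ 4 = 80 + 20 * g1 G + 5 * g2 G ∧
    cc G univ 5 = 32 + 8 * g1 G + 2 * g2 G ∧ ∑ u, xv G u = 6 * g1 G + 2 * g2 G ∧
      ∑ u, yv G u = 2 * g2 G := by
  have h1 := hs_nb1 (G := G) ∅
  have h2 := hs_nb (G := G) ∅ 2
  have h3 := hs_nb (G := G) ∅ 3
  have h4 := hs_nb (G := G) ∅ 4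
  have h5 := h.euler cq_empty
  unfold NN at h5
  simp only [nb_empty, insert_empty_eq] at h1 h2 h3 h4 h5
  rw [sum_congr rfl (fun u _ => (h.c1 (cq_singleton u) (card_singleton u)).1),
    sum_sub_distrib, ← mul_sum, ← mul_sum, ← h1, ← h2] at h3
  rw [sum_congr rfl (fun u _ => (h.c1 (cq_singleton u) (card_singleton u)).2),
    sum_sub_distrib, ← h1, ← h2] at h4
  have h6 : ∑ u, xv G u = 2 * cc G univ 2 - 8 * (Fintype.card V : ℤ) := by
    unfold xv
    rw [sum_sub_distrib, ← h1]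
    simp [mul_comm]
  have h7 : ∑ u, yv G u = ((2 : ℕ) + 1 : ℤ) * cc G univ (2 + 1) - 24 * (Fintype.card V : ℤ)
      - 5 * ∑ u, xv G u := by
    unfold yv
    rw [sum_sub_distrib, sum_sub_distrib, ← h2, ← mul_sum]
    simp [mul_comm]
  norm_num at h3 h4 h5 h7
  unfold g2 g1
  refine ⟨?_, ?_, ?_, ?_, ?_⟩ <;> linarith only [h3, h4, h5, h6, h7]

lemma Q5 {τ : Finset V} (hτ : Cq G τ) (hc : τ.card = 5) (x : ℝ) : Q G (nb G τ) x = 1 := by
  rw [h.nb5 hτ hc, Q_empty]

lemma Q4 {τ : Finset V} (hτ : Cq G τ) (hc : τ.card = 4) (x : ℝ) :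
    Q G (nb G τ) x = 1 - 2 * x := by
  have h1 : ((nb G τ).card : ℝ) = 2 := by
    have := h.N4 hτ hc
    unfold NN at this
    exact_mod_cast this
  rw [h.Q_eq, h.cc_big hτ (j := 2) (by omega), h.cc_big hτ (j := 3) (by omega),
    h.cc_big hτ (j := 4) (by omega), h.cc_big hτ (j := 5) (by omega), h1]
  simp

lemma Q3 {τ : Finset V} (hτ : Cq G τ) (hc : τ.card = 3) (x : ℝ) :
    Q G (nb G τ) x = (1 - 2 * x) ^ 2 - ((NN G τ : ℝ) - 4) * (x * (1 - x)) := by
  rw [h.Q_eq, h.c3_2 hτ hc, h.cc_big hτ (j := 3) (by omega),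
    h.cc_big hτ (j := 4) (by omega), h.cc_big hτ (j := 5) (by omega)]
  unfold NN
  push_cast
  ring

lemma Q2 {τ : Finset V} (hτ : Cq G τ) (hc : τ.card = 2) (x : ℝ) :
    Q G (nb G τ) x = (1 - 2 * x) * ((1 - 2 * x) ^ 2 - ((NN G τ : ℝ) - 6) * (x * (1 - x))) := by
  rw [h.Q_eq, (h.c2 hτ hc).1, (h.c2 hτ hc).2,
    h.cc_big hτ (j := 4) (by omega), h.cc_big hτ (j := 5) (by omega)]
  unfold NN
  push_cast
  ring

lemma Q1 (u : V) (x : ℝ) :
    Q G (nb G {u}) x = (1 - 2 * x) ^ 4 - (xv G u : ℝ) * (x * (1 - x)) * (1 - 2 * x) ^ 2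
      + (yv G u : ℝ) * (x * (1 - x)) ^ 2 := by
  rw [h.Q_eq, (h.c1 (cq_singleton u) (card_singleton u)).1,
    (h.c1 (cq_singleton u) (card_singleton u)).2,
    h.cc_big (cq_singleton u) (j := 5) (by simp)]
  unfold yv xv NN
  push_cast
  ring

lemma Q0 (x : ℝ) :
    Q G univ x = (1 - 2 * x) * ((1 - 2 * x) ^ 4 - (g1 G : ℝ) * (x * (1 - x)) * (1 - 2 * x) ^ 2
      + (g2 G : ℝ) * (x * (1 - x)) ^ 2) := by
  obtain ⟨a3, a4, a5, -, -⟩ := h.c0
  rw [h.Q_eq, a3, a4, a5, card_univ]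
  have h2 : cc G univ 2 = g2 G + 40 + 7 * g1 G := by unfold g2; ring
  have h1 : (Fintype.card V : ℝ) = (g1 G : ℝ) + 10 := by unfold g1; push_cast; ring
  rw [h2, h1]
  push_cast
  ring

lemma sum_gE (v : V) : ∑ w ∈ nb G {v}, (NN G (insert w {v}) - 6) = 4 * xv G v + 2 * yv G v := by
  rw [sum_sub_distrib, ← hs_nb1]
  simp only [sum_const, nsmul_eq_mul]
  unfold yv xv NN
  ring

lemma noncone {τ : Finset V} (hτ : Cq G τ) {u : V} (hu : u ∈ nb G τ) :
    ∃ w ∈ nb G τ, w ≠ u ∧ ¬ G.Adj u w := by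
  by_contra hne
  push Not at hne
  have h1 : (nb G τ).erase u = nb G τ ∩ nb G {u} := by
    ext w
    simp only [mem_erase, mem_inter, mem_nb1]
    exact ⟨fun hw => ⟨hw.2, hne w hw.2 hw.1⟩, fun hw => ⟨hw.2.ne.symm, hw.1⟩⟩
  have h2 := Q_rec (G := G) hu 1
  rw [h1, h.E τ hτ] at h2
  simp at h2

lemma NN_insert {τ : Finset V} (hτ : Cq G τ) {u : V} (hu : u ∈ nb G τ) :
    NN G (insert u τ) + 2 ≤ NN G τ := by
  obtain ⟨w, hw, hwu, hadj⟩ := h.noncone hτ hu
  have h1 : insert u (insert w (nb G (insert u τ))) ⊆ nb G τ := by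
    rw [nb_insert]
    exact insert_subset hu (insert_subset hw inter_subset_left)
  have h2 := card_le_card h1
  rw [card_insert_of_notMem, card_insert_of_notMem] at h2
  · unfold NN; omega
  · rw [nb_insert, mem_inter, mem_nb1]; exact fun h3 => hadj h3.2
  · rw [mem_insert, nb_insert, mem_inter, mem_nb1]
    rintro (h3 | h3)
    · exact hwu h3.symm
    · exact G.irrefl h3.2

lemma N3_ge {τ : Finset V} (hτ : Cq G τ) (hc : τ.card = 3) : 4 ≤ NN G τ := by
  obtain ⟨u, hu⟩ := h.N τ hτ (by omega)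
  have h1 := h.NN_insert hτ hu
  rw [h.N4 (hτ.insert hu) (by rw [card_insert_nb hu, hc])] at h1
  linarith only [h1]

lemma N2_ge {τ : Finset V} (hτ : Cq G τ) (hc : τ.card = 2) : 6 ≤ NN G τ := by
  obtain ⟨u, hu⟩ := h.N τ hτ (by omega)
  have h1 := h.NN_insert hτ hu
  have h2 := h.N3_ge (hτ.insert hu) (by rw [card_insert_nb hu, hc])
  linarith only [h1, h2]

lemma subsphere {τ S : Finset V} (hτ : Cq G τ) (hS : S ⊆ nb G τ)
    (H1 : ∀ ρ ⊆ S, Cq G ρ → τ.card + ρ.card ≤ 3 → (S ∩ nb G ρ).Nonempty)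
    (H2 : ∀ ρ ⊆ S, Cq G ρ → τ.card + ρ.card = 4 → 2 ≤ (S ∩ nb G ρ).card) :
    ∀ (m : ℕ) (ρ : Finset V), ρ ⊆ S → Cq G ρ → τ.card + ρ.card + m = 4 → nb G (τ ∪ ρ) ⊆ S := by
  intro m
  induction m with
  | zero =>
    intro ρ hρ hc hm
    have h1 : S ∩ nb G ρ ⊆ nb G (τ ∪ ρ) := by
      rw [nb_union]; exact inter_subset_inter hS (Subset.refl _)
    have h2 := h.N4 (hτ.union hc (hρ.trans hS))
      (by rw [card_union_of_subset_nb (hρ.trans hS)]; omega)
    have h3 := H2 ρ hρ hc (by omega)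
    unfold NN at h2
    rw [← eq_of_subset_of_card_le h1 (by omega)]
    exact inter_subset_left
  | succ m ih =>
    intro ρ hρ hc hm
    have h1 : S ∩ nb G ρ ⊆ nb G (τ ∪ ρ) := by
      rw [nb_union]; exact inter_subset_inter hS (Subset.refl _)
    have h2 := h.C _ (hτ.union hc (hρ.trans hS))
      (by rw [card_union_of_subset_nb (hρ.trans hS)]; omega) _ h1 (by
        intro a ha b hb hab
        rw [mem_inter] at ha
        have h3 := ih (insert a ρ) (insert_subset ha.1 hρ) (hc.insert ha.2)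
          (by rw [card_insert_nb ha.2]; omega)
        rw [nb_union, mem_inter] at hb
        refine mem_inter.2 ⟨h3 ?_, hb.2⟩
        rw [nb_union, nb_insert]
        exact mem_inter.2 ⟨hb.1, mem_inter.2 ⟨hb.2, mem_nb1.2 hab⟩⟩)
    rcases h2 with h2 | h2
    · exact absurd h2 (H1 ρ hρ hc (by omega)).ne_empty
    · rw [← h2]; exact inter_subset_left

lemma susp {t u : V} (htu : t ≠ u) (hsub : nb G {t} ⊆ nb G {u}) (v : V) :
    v ∈ nb G {t} ∨ v = t ∨ v = u := by
  have key : ∀ ρ ⊆ nb G {t}, Cq G ρ → Cq G (insert t ρ) ∧ (insert t ρ).card = ρ.card + 1 ∧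
      nb G {t} ∩ nb G ρ = nb G (insert t ρ) := by
    intro ρ hρ hc
    have ht : t ∈ nb G ρ := mem_nb.2 (fun w hw => (mem_nb1.1 (hρ hw)).symm)
    exact ⟨hc.insert ht, card_insert_nb ht, by rw [nb_insert, inter_comm]⟩
  have h1 : nb G {u} ⊆ nb G {t} := by
    have := h.subsphere (cq_singleton u) hsub (by
      intro ρ hρ hc hcard
      obtain ⟨k1, k2, k3⟩ := key ρ hρ hc
      rw [k3]
      rw [card_singleton] at hcard
      exact h.N _ k1 (by omega)) (by
      intro ρ hρ hc hcard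
      obtain ⟨k1, k2, k3⟩ := key ρ hρ hc
      rw [k3]
      rw [card_singleton] at hcard
      have := h.N4 k1 (by omega)
      unfold NN at this
      omega) 3 ∅ (empty_subset _) cq_empty (by simp)
    simpa using this
  have key2 : ∀ ρ ⊆ insert t (insert u (nb G {t})), Cq G ρ →
      insert t (insert u (nb G {t})) ∩ nb G ρ = nb G ρ ∨
        ({t, u} : Finset V) ⊆ insert t (insert u (nb G {t})) ∩ nb G ρ := by
    intro ρ hρ hc
    by_cases ht : t ∈ ρ
    · left
      rw [inter_eq_right]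
      intro w hw
      exact mem_insert_of_mem (mem_insert_of_mem (mem_nb1.2 (mem_nb.1 hw t ht)))
    by_cases hu : u ∈ ρ
    · left
      rw [inter_eq_right]
      intro w hw
      exact mem_insert_of_mem (mem_insert_of_mem (h1 (mem_nb1.2 (mem_nb.1 hw u hu))))
    right
    have h3 : ρ ⊆ nb G {t} := by
      intro w hw
      rcases mem_insert.1 (hρ hw) with rfl | h4
      · exact absurd hw ht
      rcases mem_insert.1 h4 with rfl | h5
      · exact absurd hw hu
      exact h5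
    refine insert_subset (mem_inter.2 ⟨mem_insert_self _ _, ?_⟩)
      (singleton_subset_iff.2 (mem_inter.2 ⟨mem_insert_of_mem (mem_insert_self _ _), ?_⟩))
    · exact mem_nb.2 (fun w hw => (mem_nb1.1 (h3 hw)).symm)
    · exact mem_nb.2 (fun w hw => (mem_nb1.1 (hsub (h3 hw))).symm)
  have h2 := h.subsphere (S := insert t (insert u (nb G {t}))) cq_empty
    (by rw [nb_empty]; exact subset_univ _) (by
      intro ρ hρ hc hcard
      rcases key2 ρ hρ hc with k | k
      · rw [k]; exact h.N _ hc (by omega)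
      · exact ⟨t, k (mem_insert_self _ _)⟩) (by
      intro ρ hρ hc hcard
      rcases key2 ρ hρ hc with k | k
      · rw [k]
        have := h.N4 hc (by simpa using hcard)
        unfold NN at this
        omega
      · have := card_le_card k
        rwa [card_pair htu] at this) 4 ∅ (empty_subset _) cq_empty (by simp)
  have h3 : v ∈ insert t (insert u (nb G {t})) := h2 (by simp [nb_empty])
  simp only [mem_insert] at h3
  tauto

end Sph

end Pool.Agent.Work.MP_001c0f_co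
end
end

-- merged part: Pool.Agent.Work.MP_001c0f_co.Odd
section
set_option autoImplicit false
set_option linter.unusedSectionVars false

open Finset

namespace Pool.Agent.Work.MP_001c0f_co

variable {V : Type} [Fintype V] [DecidableEq V]

lemma param (l : ℝ) (hl : 0 ≤ l) : ∃ x : ℝ, 0 < x ∧ x ≤ 1 / 2 ∧ (0 < l → x < 1 / 2) ∧
    (1 - 2 * x) ^ 2 = l * (x * (1 - x)) ∧
    ∀ t, 0 ≤ t → t < x → l * (t * (1 - t)) < (1 - 2 * t) ^ 2 := by
  have h4 : 0 < l + 4 := by linarith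
  have hq : 0 ≤ l / (l + 4) := div_nonneg hl h4.le
  have hq1 : l / (l + 4) < 1 := by rw [div_lt_one h4]; linarith
  set z := Real.sqrt (l / (l + 4)) with hz
  have hz0 : 0 ≤ z := Real.sqrt_nonneg _
  have hz2 : z ^ 2 = l / (l + 4) := Real.sq_sqrt hq
  have hz3 : z ^ 2 * (l + 4) = l := by rw [hz2]; field_simp
  have hz1 : z < 1 := by (refine lt_of_not_ge fun h_nl => ?_; linarith only [h_nl, hq1, hz2, hz0, mul_nonneg_of_nonpos_of_nonpos (Mathlib.Tactic.Linarith.sub_nonpos_of_le hz0) (Mathlib.Tactic.Linarith.sub_nonpos_of_le h_nl)])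
  refine ⟨(1 - z) / 2, by linarith only [hz1], by linarith only [hz0], fun h => ?_, by nlinarith, fun t ht0 ht => ?_⟩
  · have : 0 < z := Real.sqrt_pos.2 (div_pos h h4)
    linarith only [this]
  · have h1 : z < 1 - 2 * t := by linarith only [ht]
    have h2 : z ^ 2 < (1 - 2 * t) ^ 2 := by linarith only [hz0, ht, mul_nonneg_of_nonpos_of_nonpos (Mathlib.Tactic.Linarith.sub_nonpos_of_le hz0) (le_of_lt (Mathlib.Tactic.Linarith.sub_neg_of_lt ht)), mul_pos_of_neg_of_neg (Mathlib.Tactic.Linarith.sub_neg_of_lt ht) (Mathlib.Tactic.Linarith.sub_neg_of_lt ht)]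
    linarith only [hz3, h2, hl, mul_nonneg_of_nonpos_of_nonpos (Mathlib.Tactic.Linarith.sub_nonpos_of_le hl) (le_of_lt (Mathlib.Tactic.Linarith.sub_neg_of_lt h2))]

lemma arith_vertex {k X Y E T : ℤ} (hk : 0 ≤ k) (a1 : 0 ≤ (k + 1) ^ 2 - X * (k + 1) + Y)
    (a5 : 0 ≤ 4 * X + 2 * Y) (a8 : 2 * k + 1 + 1 - X ≤ 2 * E) (aT : 0 ≤ T)
    (aneg : Y < 0 → X - k ≤ 0 → (2 * k + 1 + 1 - X) * (3 - (X - k)) ≤ T)
    (aone : 2 ≤ X - k → 0 < Y - k * (X - k) → 3 * (Y - k * (X - k)) ≤ X - k) :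
    6 * (X - k - 1) * (Y - k * (X - k)) ≤
      3 * T + 2 * (X - k) * (X - k - 1) + 2 * E - (k + 2 - (X - k)) := by
  obtain ⟨s, rfl⟩ : ∃ s, X = k + s := ⟨X - k, by ring⟩
  obtain ⟨r, rfl⟩ : ∃ r, Y = r + k * s := ⟨Y - k * s, by ring⟩
  simp only [add_sub_cancel_left, add_sub_cancel_right] at aneg aone ⊢
  have hss : 0 ≤ s * (s - 1) := by
    rcases le_or_gt s 0 with b | b
    · exact mul_nonneg_of_nonpos_of_nonpos b (by linarith)
    · exact mul_nonneg b.le (by omega)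
  rcases lt_trichotomy s 1 with b | b | b
  · rcases le_or_gt 0 r with c | c
    · linarith only [aT, a8, hss, c, b, mul_nonneg_of_nonpos_of_nonpos (Mathlib.Tactic.Linarith.sub_nonpos_of_le (Int.add_one_le_iff.mpr b)) (Mathlib.Tactic.Linarith.sub_nonpos_of_le c)]
    · have d1 : k * s ≤ 0 := mul_nonpos_of_nonneg_of_nonpos hk (by omega)
      have d2 := aneg (by linarith) (by omega)
      have d3 : -1 ≤ s := by
        by_contra hn
        have : s ≤ -2 := by omega
        linarith only [a5, c, d1, hn, hk, mul_nonneg_of_nonpos_of_nonpos (Mathlib.Tactic.Linarith.sub_nonpos_of_le (sq_nonneg (k + (1 : ℤ)))) (Mathlib.Tactic.Linarith.sub_nonpos_of_le (Int.add_one_le_iff.mpr (lt_of_not_ge hn))), mul_nonneg_of_nonpos_of_nonpos (Mathlib.Tactic.Linarith.sub_nonpos_of_le hk) (Mathlib.Tactic.Linarith.sub_nonpos_of_le a5), mul_nonneg_of_nonpos_of_nonpos (Mathlib.Tactic.Linarith.sub_nonpos_of_le hk) (Mathlib.Tactic.Linarith.sub_nonpos_of_le (Int.add_one_le_iff.mpr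 c))]
      have d4 : s = 0 ∨ s = -1 := by omega
      rcases d4 with rfl | rfl <;> linarith only [a8, a1, a5, d2]
  · subst b; linarith only [aT, a8]
  · rcases le_or_gt r 0 with c | c
    · linarith only [aT, a8, hss, c, b, mul_nonneg_of_nonpos_of_nonpos (Mathlib.Tactic.Linarith.sub_nonpos_of_le (Int.add_one_le_iff.mpr b)) (Mathlib.Tactic.Linarith.sub_nonpos_of_le c)]
    · have := aone (by omega) c
      linarith only [aT, a8, this, b, mul_nonneg_of_nonpos_of_nonpos (Mathlib.Tactic.Linarith.sub_nonpos_of_le (Int.add_one_le_iff.mpr b)) (Mathlib.Tactic.Linarith.sub_nonpos_of_le this)]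

variable (G : SimpleGraph V)

/-- non-neighbours -/
noncomputable def MM (u : V) : Finset V := univ \ insert u (nb G {u})

variable {G}

lemma mem_MM {u v : V} : v ∈ MM G u ↔ v ≠ u ∧ ¬ G.Adj u v := by
  unfold MM; simp [mem_nb1]

lemma MM_symm {u v : V} : v ∈ MM G u ↔ u ∈ MM G v := by
  rw [mem_MM, mem_MM, G.adj_comm, ne_comm]

lemma card_MM (u : V) : ((MM G u).card : ℤ) = g1 G + 1 - xv G u := by
  unfold MM
  have h1 : u ∉ nb G {u} := fun h => G.irrefl (mem_nb1.1 h)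
  have h2 := card_sdiff_add_card_eq_card (subset_univ (insert u (nb G {u})))
  rw [card_insert_of_notMem h1, card_univ] at h2
  unfold g1 xv NN
  omega

lemma sum_MM (F : V → V → ℤ) : ∑ v, ∑ u ∈ MM G v, F v u = ∑ u, ∑ v ∈ MM G u, F v u := by
  apply sum_comm'
  intro v u
  simp [MM_symm (u := v)]

lemma Q_cone {S : Finset V} {a : V} (hS : S ⊆ nb G {a}) (x : ℝ) :
    Q G (insert a S) x = (1 - x) * Q G S x := by
  rw [Q_insert (fun h => G.irrefl (mem_nb1.1 (hS h))), inter_eq_left.2 hS]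
  ring

namespace Sph

variable (h : Sph G)
include h

lemma pos0 {l m x : ℝ} (hlm : m ≤ l) (h1 : (g1 G : ℝ) = l + m) (h2 : (g2 G : ℝ) = l * m)
    (hx0 : 0 < x) (hx1 : x ≤ 1 / 2)
    (hx : ∀ t, 0 ≤ t → t < x → l * (t * (1 - t)) < (1 - 2 * t) ^ 2) (T : Finset V) :
    0 ≤ Q G T x := by
  apply Q_nonneg hx0.le _ T (subset_univ T)
  intro t ht0 ht
  rw [h.Q0, h1, h2]
  have a1 := hx t ht0 ht
  have a2 : 0 ≤ t * (1 - t) := mul_nonneg ht0 (by linarith only [hx0, hx1, ht])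
  have a3 : m * (t * (1 - t)) < (1 - 2 * t) ^ 2 := by linarith only [a1, hlm, a2, mul_nonneg_of_nonpos_of_nonpos (Mathlib.Tactic.Linarith.sub_nonpos_of_le hlm) (Mathlib.Tactic.Linarith.sub_nonpos_of_le a2)]
  have a4 : 0 < ((1 - 2 * t) ^ 2 - l * (t * (1 - t))) * ((1 - 2 * t) ^ 2 - m * (t * (1 - t))) :=
    mul_pos (by linarith) (by linarith)
  apply mul_pos (by linarith)
  linarith only [a4]

lemma mob (v : V) (x : ℝ) :
    (1 - x) * Q G (nb G {v}) x = Q G univ x
      + x * (((MM G v).card : ℝ) * (1 - 2 * x) ^ 4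
        - ((∑ u ∈ MM G v, xv G u : ℤ) : ℝ) * (x * (1 - x)) * (1 - 2 * x) ^ 2
        + ((∑ u ∈ MM G v, yv G u : ℤ) : ℝ) * (x * (1 - x)) ^ 2)
      + x ^ 2 * ((1 - 2 * x) * ((cc G (MM G v) 2 : ℝ) * (1 - 2 * x) ^ 2
        - ((∑ e ∈ clj G (MM G v) 2, (NN G e - 6) : ℤ) : ℝ) * (x * (1 - x))))
      + x ^ 3 * ((cc G (MM G v) 3 : ℝ) * (1 - 2 * x) ^ 2
        - ((∑ e ∈ clj G (MM G v) 3, (NN G e - 4) : ℤ) : ℝ) * (x * (1 - x)))
      + x ^ 4 * (1 - 2 * x) * (cc G (MM G v) 4 : ℝ) + x ^ 5 * (cc G (MM G v) 5 : ℝ) := by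
  have e0 := Q_mobius (G := G) x _ (MM G v) univ rfl (subset_univ _)
  have e1 : univ \ MM G v = insert v (nb G {v}) := by
    unfold MM; exact Finset.sdiff_sdiff_eq_self (subset_univ _)
  rw [e1, Q_cone (Subset.refl _), sum_cl_eq_sum_clj (h.lt_six _)] at e0
  simp only [sum_range_succ, range_zero, sum_empty, univ_inter, clj_zero, sum_singleton,
    sum_clj_one, card_empty, pow_zero, one_mul, nb_empty, zero_add, card_singleton, pow_one] at e0
  have t1 : ∑ u ∈ MM G v, x * Q G (nb G {u}) x = x * (((MM G v).card : ℝ) * (1 - 2 * x) ^ 4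
        - ((∑ u ∈ MM G v, xv G u : ℤ) : ℝ) * (x * (1 - x)) * (1 - 2 * x) ^ 2
        + ((∑ u ∈ MM G v, yv G u : ℤ) : ℝ) * (x * (1 - x)) ^ 2) := by
    rw [← mul_sum, sum_congr rfl (fun u _ => h.Q1 u x), sum_add_distrib, sum_sub_distrib,
      ← sum_mul, ← sum_mul, ← sum_mul]
    simp
  have t2 : ∑ e ∈ clj G (MM G v) 2, x ^ e.card * Q G (nb G e) x =
      x ^ 2 * ((1 - 2 * x) * ((cc G (MM G v) 2 : ℝ) * (1 - 2 * x) ^ 2
        - ((∑ e ∈ clj G (MM G v) 2, (NN G e - 6) : ℤ) : ℝ) * (x * (1 - x)))) := by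
    rw [sum_congr rfl (fun e he => by
      rw [h.Q2 (mem_clj.1 he).2.1 (mem_clj.1 he).2.2, (mem_clj.1 he).2.2]),
      ← mul_sum, ← mul_sum, sum_sub_distrib, ← sum_mul, sum_clj_const]
    push_cast
    rfl
  have t3 : ∑ e ∈ clj G (MM G v) 3, x ^ e.card * Q G (nb G e) x =
      x ^ 3 * ((cc G (MM G v) 3 : ℝ) * (1 - 2 * x) ^ 2
        - ((∑ e ∈ clj G (MM G v) 3, (NN G e - 4) : ℤ) : ℝ) * (x * (1 - x))) := by
    rw [sum_congr rfl (fun e he => by
      rw [h.Q3 (mem_clj.1 he).2.1 (mem_clj.1 he).2.2, (mem_clj.1 he).2.2]),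
      ← mul_sum, sum_sub_distrib, ← sum_mul, sum_clj_const]
    push_cast
    rfl
  have t4 : ∑ e ∈ clj G (MM G v) 4, x ^ e.card * Q G (nb G e) x =
      x ^ 4 * (1 - 2 * x) * (cc G (MM G v) 4 : ℝ) := by
    rw [sum_congr rfl (fun e he => by
      rw [h.Q4 (mem_clj.1 he).2.1 (mem_clj.1 he).2.2, (mem_clj.1 he).2.2]), sum_clj_const]
    ring
  have t5 : ∑ e ∈ clj G (MM G v) 5, x ^ e.card * Q G (nb G e) x =
      x ^ 5 * (cc G (MM G v) 5 : ℝ) := by
    rw [sum_congr rfl (fun e he => by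
      rw [h.Q5 (mem_clj.1 he).2.1 (mem_clj.1 he).2.2, (mem_clj.1 he).2.2]), sum_clj_const]
    ring
  rw [e0, t1, t2, t3, t4, t5]

lemma idIV_V (v : V) :
    yv G v - 2 * xv G v = g2 G - g1 G - ∑ u ∈ MM G v, xv G u + cc G (MM G v) 2 ∧
    2 * yv G v = g2 G + ∑ u ∈ MM G v, yv G u - ∑ e ∈ clj G (MM G v) 2, (NN G e - 6)
      + cc G (MM G v) 4 - cc G (MM G v) 5 := by
  have a1 := h.mob v 2
  have a2 := h.mob v (-1)
  have a3 := h.mob v 3
  have a4 := h.mob v (-2)
  have a5 : ((MM G v).card : ℝ) = (g1 G : ℝ) + 1 - (xv G v : ℝ) := by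
    exact_mod_cast card_MM (G := G) v
  rw [h.Q0, h.Q1, a5] at a1 a2 a3 a4
  generalize (∑ u ∈ MM G v, xv G u) = X at *
  generalize (∑ u ∈ MM G v, yv G u) = Y at *
  generalize (∑ e ∈ clj G (MM G v) 2, (NN G e - 6)) = G2 at *
  generalize (∑ e ∈ clj G (MM G v) 3, (NN G e - 4)) = G3 at *
  norm_num at a1 a2 a3 a4
  constructor
  · have : (yv G v : ℝ) - 2 * xv G v = g2 G - g1 G - X + cc G (MM G v) 2 := by linarith only [a1, a2, a3, a4]
    exact_mod_cast this
  · have : 2 * (yv G v : ℝ) = g2 G + Y - G2 + cc G (MM G v) 4 - cc G (MM G v) 5 := by linarith only [a1, a2, a3, a4]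
    exact_mod_cast this

lemma c5_le_c4 (S : Finset V) : cc G S 5 ≤ cc G S 4 := by
  have a1 := handshake_cc' (G := G) S 4
  have a2 : ∑ ρ ∈ clj G S 4, ((S ∩ nb G ρ).card : ℤ) ≤ ∑ _ρ ∈ clj G S 4, (2 : ℤ) := by
    apply sum_le_sum
    intro ρ hρ
    rw [mem_clj] at hρ
    rw [← h.N4 hρ.2.1 hρ.2.2]
    unfold NN
    exact_mod_cast card_le_card inter_subset_right
  have a3 := cc_nonneg (G := G) S 4
  have a4 : ∑ _ρ ∈ clj G S 4, (2 : ℤ) = 2 * cc G S 4 := by simp [cc, mul_comm]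
  norm_num at a1
  linarith only [a2, a3, a4, a1]

lemma y_neg {v a : V} (ha : a ∈ nb G {v}) (hy : yv G v < 0) :
    NN G (insert a {v}) - 6 ≤ xv G v - 3 := by
  by_contra hcon
  set U := nb G {v} \ insert a (nb G (insert a {v})) with hU
  have hsub : insert a (nb G (insert a {v})) ⊆ nb G {v} := by
    rw [nb_insert]; exact insert_subset ha inter_subset_left
  have hcard : U.card ≤ 3 := by
    have h1 := card_sdiff_add_card_eq_card hsub
    rw [card_insert_of_notMem (fun h2 => not_mem_of_mem_nb h2 (mem_insert_self _ _))] at h1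
    unfold xv NN at hcon
    rw [← hU] at h1
    omega
  have e0 := Q_mobius (G := G) (1 / 2) _ U (nb G {v}) rfl sdiff_subset
  have hc2 : Cq G (insert a {v}) := (cq_singleton v).insert ha
  rw [hU, Finset.sdiff_sdiff_eq_self hsub, Q_cone (by rw [nb_insert]; exact inter_subset_right),
    h.Q2 hc2 (by rw [card_insert_nb ha, card_singleton]), ← hU,
    ← add_sum_erase _ _ (mem_cl.2 ⟨empty_subset U, cq_empty⟩), nb_empty, inter_univ, h.Q1] at e0
  have e1 : ∑ τ ∈ (cl G U).erase ∅, (1 / 2 : ℝ) ^ τ.card * Q G (nb G {v} ∩ nb G τ) (1 / 2) ≤ 0 := by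
    apply sum_nonpos
    intro τ hτ
    rw [mem_erase, mem_cl] at hτ
    have b1 : v ∈ nb G τ :=
      mem_nb.2 (fun w hw => (mem_nb1.1 (sdiff_subset (hτ.2.1 hw))).symm)
    have b2 := hτ.2.2.insert b1
    have b3 := card_insert_nb b1
    have b4 := card_le_card hτ.2.1
    have b5 : τ.card ≠ 0 := fun h0 => hτ.1 (card_eq_zero.1 h0)
    rw [inter_comm, ← nb_insert]
    apply mul_nonpos_of_nonneg_of_nonpos (by positivity)
    have b6 : τ.card = 1 ∨ τ.card = 2 ∨ τ.card = 3 := by omega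
    rcases b6 with b6 | b6 | b6
    · rw [h.Q2 b2 (by omega)]; norm_num
    · rw [h.Q3 b2 (by omega)]
      have : (4 : ℝ) ≤ NN G (insert v τ) := by exact_mod_cast h.N3_ge b2 (by omega)
      linarith only [this]
    · rw [h.Q4 b2 (by omega)]; norm_num
  have e2 : (yv G v : ℝ) < 0 := by exact_mod_cast hy
  norm_num at e0 e1
  linarith only [e2, e0, e1]

lemma case_one {k : ℤ} (h1 : g1 G = 2 * k + 1) (h2 : g2 G = k ^ 2 + k) {v w : V}
    (hw : w ∈ nb G {v}) (hg : 1 ≤ NN G (insert w {v}) - 6) (hs2 : 2 ≤ xv G v - k)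
    (hs : xv G v - k ≤ k - 1) : 3 * (yv G v - k * (xv G v - k)) ≤ xv G v - k := by
  obtain ⟨a, ha0, -, ha1, ha2, -⟩ := param (1 / 2) (by norm_num)
  have ha1 := ha1 (by norm_num)
  have hc2 : Cq G (insert w {v}) := (cq_singleton v).insert hw
  have hsub : nb G (insert w {v}) ⊆ univ.erase v := fun u hu =>
    mem_erase.2 ⟨fun h3 => not_mem_of_mem_nb hu (by simp [h3]), mem_univ _⟩
  have hex : ∃ t, 0 ≤ t ∧ t < a ∧ Q G (univ.erase v) t ≤ 0 := by
    by_contra hne
    push Not at hne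
    have b1 := Q_nonneg ha0.le hne _ hsub
    rw [h.Q2 hc2 (by rw [card_insert_nb hw, card_singleton]), ha2] at b1
    have b2 : (1 : ℝ) ≤ (NN G (insert w {v}) : ℝ) - 6 := by exact_mod_cast hg
    have b3 : 0 < a * (1 - a) := mul_pos ha0 (by linarith only [ha0, ha1])
    have b4 : 1 / 2 * (a * (1 - a)) - ((NN G (insert w {v}) : ℝ) - 6) * (a * (1 - a)) < 0 := by
      linarith only [mul_le_mul_of_nonneg_right b2 b3.le, b3]
    have := mul_neg_of_pos_of_neg (show 0 < 1 - 2 * a by linarith only [ha1]) b4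
    linarith only [b1, this]
  obtain ⟨t0, ht0, ht1, ht2⟩ := hex
  obtain ⟨t, tp, tle, tz, tall⟩ := Q_first_root ht0 ht2
  have b1 := tall (nb G {v}) (fun u hu =>
    mem_erase.2 ⟨fun h3 => not_mem_of_mem_nb hu (by simp [h3]), mem_univ _⟩)
  have b2 := Q_rec (G := G) (mem_univ v) t
  rw [tz, univ_inter, h.Q0, h.Q1, h1, h2] at b2
  rw [h.Q1] at b1
  have hw0 : 0 < t * (1 - t) := mul_pos tp (by linarith only [ha1, ht1, tp, tle])
  have hz : 0 < 1 - 2 * t := by linarith only [ha1, ht1, tle]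
  obtain ⟨l, hl⟩ : ∃ l : ℝ, (1 - 2 * t) ^ 2 = l * (t * (1 - t)) :=
    ⟨(1 - 2 * t) ^ 2 / (t * (1 - t)), (div_mul_cancel₀ _ hw0.ne').symm⟩
  have hl4 : (1 - 2 * t) ^ 4 = (l * (t * (1 - t))) ^ 2 := by rw [← hl]; ring
  rw [hl4, hl] at b1 b2
  push_cast at b2
  have hs2' : (2 : ℝ) ≤ (xv G v : ℝ) - k := by exact_mod_cast hs2
  have hs' : (xv G v : ℝ) - k ≤ k - 1 := by exact_mod_cast hs
  have goal : 3 * ((yv G v : ℝ) - k * ((xv G v : ℝ) - k)) ≤ (xv G v : ℝ) - k := by
    generalize (xv G v : ℝ) = X at *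
    generalize (yv G v : ℝ) = Y at *
    generalize (k : ℝ) = K at *
    have c1 : 0 ≤ l ^ 2 - X * l + Y := by
      by_contra hn
      push Not at hn
      have := mul_neg_of_pos_of_neg (pow_pos hw0 2) hn
      linarith only [this, b1]
    have c2 : (1 - 2 * t) * ((l - K) * (1 - (l - K))) = t * (l ^ 2 - X * l + Y) := by
      have c3 : (t * (1 - t)) ^ 2 * ((1 - 2 * t) * ((l - K) * (1 - (l - K)))
          - t * (l ^ 2 - X * l + Y)) = 0 := by linarith only [b2]
      rcases mul_eq_zero.1 c3 with c4 | c4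
      · exact absurd c4 (pow_pos hw0 2).ne'
      · linarith only [c4]
    have c3 : 0 ≤ (l - K) * (1 - (l - K)) := by
      by_contra hn
      push Not at hn
      have := mul_neg_of_pos_of_neg hz hn
      have := mul_nonneg tp.le c1
      linarith
    have c4 : 1 - 2 * t ≤ t * (l + 1) := by
      have c5 : (1 - t) * (t * (l + 1) - (1 - 2 * t)) = t ^ 2 := by linarith only [hl]
      by_contra hn
      push Not at hn
      have := mul_neg_of_pos_of_neg (show 0 < 1 - t by linarith only [ha1, ht1, tp, tle])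
        (show t * (l + 1) - (1 - 2 * t) < 0 by linarith only [hn])
      linarith only [this, c5, sq_nonneg t]
    have c5 : l ^ 2 - X * l + Y ≤ (l + 1) * ((l - K) * (1 - (l - K))) := by
      have c6 := mul_le_mul_of_nonneg_right c4 c3
      rw [c2, mul_assoc] at c6
      exact le_of_mul_le_mul_left c6 tp
    obtain ⟨d, rfl⟩ : ∃ d, l = K + d := ⟨l - K, by ring⟩
    obtain ⟨s, rfl⟩ : ∃ s, X = K + s := ⟨X - K, by ring⟩
    have d0 : 0 ≤ d := by linarith only [c3, sq_nonneg d]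
    have c6 : Y - K * s ≤ d * (1 + s) - d ^ 2 * (K + 1) - d ^ 3 := by linarith only [c5]
    have c7 : d ^ 2 * (s + 2) ≤ d ^ 2 * (K + 1) :=
      mul_le_mul_of_nonneg_left (by linarith only [hs']) (sq_nonneg d)
    have c8 : 0 ≤ d ^ 3 := pow_nonneg d0 3
    have c9 : 0 ≤ (s + 2) * (3 * (s + 2) * d ^ 2 - 3 * (1 + s) * d + s) := by
      linarith only [sq_nonneg (2 * (s + 2) * d - (1 + s)), sq_nonneg s, hs2']
    have c10 : 0 ≤ 3 * (s + 2) * d ^ 2 - 3 * (1 + s) * d + s :=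
      (mul_nonneg_iff_of_pos_left (show (0 : ℝ) < s + 2 by linarith only [hs2'])).1 c9
    linarith only [c6, c7, c8, c10]
  exact_mod_cast goal

lemma r_nonneg {k : ℤ} (hk : 0 ≤ k) (h1 : g1 G = 2 * k + 1) (h2 : g2 G = k ^ 2 + k) (v : V) :
    0 ≤ (k + 1) ^ 2 - xv G v * (k + 1) + yv G v := by
  have hk' : (0 : ℝ) ≤ k := by exact_mod_cast hk
  obtain ⟨x, x0, x1, -, x2, x3⟩ := param ((k : ℝ) + 1) (by linarith)
  have b1 := h.pos0 (l := (k : ℝ) + 1) (m := k) (by linarith only [x0, x1]) (by rw [h1]; push_cast; ring)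
    (by rw [h2]; push_cast; ring) x0 x1 x3 (nb G {v})
  have hl4 : (1 - 2 * x) ^ 4 = (((k : ℝ) + 1) * (x * (1 - x))) ^ 2 := by rw [← x2]; ring
  rw [h.Q1, hl4, x2] at b1
  have hw0 : 0 < x * (1 - x) := mul_pos x0 (by linarith only [x0, x1])
  have : (0 : ℝ) ≤ ((k : ℝ) + 1) ^ 2 - (xv G v : ℝ) * (k + 1) + yv G v := by
    by_contra hn
    push Not at hn
    have := mul_neg_of_pos_of_neg (pow_pos hw0 2) hn
    linarith only [this, b1]
  exact_mod_cast this

lemma exists_out {u v : V} (hv : v ∈ MM G u) (hm : 2 ≤ (MM G u).card) :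
    (MM G v ∩ nb G {u}).Nonempty ∧ (MM G u ∩ nb G {v}).Nonempty := by
  obtain ⟨t, ht, htv⟩ := exists_mem_ne (by omega : 1 < (MM G u).card) v
  rw [mem_MM] at hv ht
  constructor
  · by_contra hne
    rw [not_nonempty_iff_eq_empty] at hne
    have hsub : nb G {u} ⊆ nb G {v} := by
      intro w hw
      by_contra hw2
      have : w ∈ MM G v ∩ nb G {u} := by
        refine mem_inter.2 ⟨mem_MM.2 ⟨?_, fun h3 => hw2 (mem_nb1.2 h3)⟩, hw⟩
        rintro rfl
        exact hv.2 (mem_nb1.1 hw)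
      rw [hne] at this
      exact notMem_empty _ this
    rcases h.susp (Ne.symm hv.1) hsub t with h3 | h3 | h3
    · exact ht.2 (mem_nb1.1 h3)
    · exact ht.1 h3
    · exact htv h3
  · by_contra hne
    rw [not_nonempty_iff_eq_empty] at hne
    have hsub : nb G {v} ⊆ nb G {u} := by
      intro w hw
      by_contra hw2
      have : w ∈ MM G u ∩ nb G {v} := by
        refine mem_inter.2 ⟨mem_MM.2 ⟨?_, fun h3 => hw2 (mem_nb1.2 h3)⟩, hw⟩
        rintro rfl
        exact hv.2 (mem_nb1.1 hw).symm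
      rw [hne] at this
      exact notMem_empty _ this
    rcases h.susp hv.1 hsub t with h3 | h3 | h3
    · exact ht.2 (mem_nb1.1 (hsub h3))
    · exact htv h3
    · exact ht.1 h3

lemma per_vertex {k : ℤ} (hk : 0 ≤ k) (h1 : g1 G = 2 * k + 1) (h2 : g2 G = k ^ 2 + k)
    (hg : ∀ e, Cq G e → e.card = 2 → NN G e - 6 ≤ k) (u : V) :
    6 * (xv G u - k - 1) * (yv G u - k * (xv G u - k)) ≤
      3 * (∑ v ∈ MM G u, ∑ w ∈ MM G v ∩ nb G {u}, (k - (NN G (insert u {w}) - 6)))
      + 2 * (xv G u - k) * (xv G u - k - 1) + 2 * cc G (MM G u) 2 - (k + 2 - (xv G u - k)) := by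
  have hcq : ∀ w ∈ nb G {u}, Cq G (insert w {u}) ∧ (insert w ({u} : Finset V)).card = 2 :=
    fun w hw => ⟨(cq_singleton u).insert hw, by rw [card_insert_nb hw, card_singleton]⟩
  have a1 := h.r_nonneg hk h1 h2 u
  have a2 := h.sum_gE u
  have a3 : ∑ w ∈ nb G {u}, (NN G (insert w {u}) - 6) ≤ ∑ _w ∈ nb G {u}, k :=
    sum_le_sum (fun w hw => hg _ (hcq w hw).1 (hcq w hw).2)
  have a4 : ∑ _w ∈ nb G {u}, k = (xv G u + 8) * k := by
    simp [xv, NN]
  have a5 : 0 ≤ ∑ w ∈ nb G {u}, (NN G (insert w {u}) - 6) :=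
    sum_nonneg (fun w hw => by have := h.N2_ge (hcq w hw).1 (hcq w hw).2; linarith)
  have a6 := card_MM (G := G) u
  rw [h1] at a6
  have a7 : 2 ≤ (MM G u).card := by
    have : (2 : ℤ) ≤ (MM G u).card := by
      by_contra hn
      have b0 : (0 : ℤ) ≤ (MM G u).card := by positivity
      have b1 : xv G u = 2 * k + 1 ∨ xv G u = 2 * k + 2 := by omega
      rcases b1 with b1 | b1 <;> rw [b1] at a1 a2 a4 <;> linarith only [hk, a1, a2, a3, a4]
    exact_mod_cast this
  have a8 : ((MM G u).card : ℤ) ≤ 2 * cc G (MM G u) 2 := by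
    have b1 := handshake_cc (G := G) (MM G u) 1
    simp only [cc_one] at b1
    have b2 : ∑ _v ∈ MM G u, (1 : ℤ) ≤ ∑ v ∈ MM G u, ((MM G u ∩ nb G {v}).card : ℤ) :=
      sum_le_sum (fun v hv => by exact_mod_cast (h.exists_out hv a7).2.card_pos)
    simp only [sum_const, nsmul_eq_mul, mul_one] at b2
    norm_num at b1
    linarith only [b2, b1]
  have a9 : ∀ c : ℤ, 0 ≤ c → (∀ w ∈ nb G {u}, c ≤ k - (NN G (insert w {u}) - 6)) →
      ((MM G u).card : ℤ) * c ≤
        ∑ v ∈ MM G u, ∑ w ∈ MM G v ∩ nb G {u}, (k - (NN G (insert u {w}) - 6)) := by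
    intro c hc hall
    have b1 : ∑ _v ∈ MM G u, c ≤
        ∑ v ∈ MM G u, ∑ w ∈ MM G v ∩ nb G {u}, (k - (NN G (insert u {w}) - 6)) := by
      apply sum_le_sum
      intro v hv
      obtain ⟨w0, hw0⟩ := (h.exists_out hv a7).1
      have b2 : ∀ w ∈ MM G v ∩ nb G {u}, c ≤ k - (NN G (insert u {w}) - 6) := by
        intro w hw
        rw [pair_comm]
        exact hall w (mem_inter.1 hw).2
      exact (b2 w0 hw0).trans (single_le_sum (f := fun w => k - (NN G (insert u {w}) - 6))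
        (fun w hw => hc.trans (b2 w hw)) hw0)
    simpa using b1
  have aT := a9 0 (le_refl _) (fun w hw => by have := hg _ (hcq w hw).1 (hcq w hw).2; linarith only [this])
  have aneg : yv G u < 0 → xv G u - k ≤ 0 → ((MM G u).card : ℤ) * (3 - (xv G u - k)) ≤
      ∑ v ∈ MM G u, ∑ w ∈ MM G v ∩ nb G {u}, (k - (NN G (insert u {w}) - 6)) :=
    fun hy hs => a9 _ (by linarith only [hs]) (fun w hw => by have := h.y_neg hw hy; linarith only [this])
  have aone : 2 ≤ xv G u - k → 0 < yv G u - k * (xv G u - k) →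
      3 * (yv G u - k * (xv G u - k)) ≤ xv G u - k := by
    intro hs hr
    have b1 : xv G u - k ≤ k - 1 := by
      by_contra hn
      push Not at hn
      nlinarith
    have b2 : ∃ w ∈ nb G {u}, 1 ≤ NN G (insert w {u}) - 6 := by
      by_contra hn
      push Not at hn
      have b3 : ∑ w ∈ nb G {u}, (NN G (insert w {u}) - 6) ≤ 0 :=
        sum_nonpos (fun w hw => by have := hn w hw; omega)
      linarith only [a2, hs, hr, b1, b3, hk, mul_nonneg_of_nonpos_of_nonpos (Mathlib.Tactic.Linarith.sub_nonpos_of_le hk) (Mathlib.Tactic.Linarith.sub_nonpos_of_le hs)]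
    obtain ⟨w, hw, hw1⟩ := b2
    exact h.case_one h1 h2 hw hw1 hs b1
  rw [a2] at a3 a5
  rw [a4] at a3
  have a7' : (2 : ℤ) ≤ (MM G u).card := by exact_mod_cast a7
  rw [a6] at a7' a8 aT aneg
  exact arith_vertex hk a1 a5 a8 (by linarith only [aT]) aneg aone

lemma odd_case {k : ℤ} (hk : 0 ≤ k) (h1 : g1 G = 2 * k + 1) (h2 : g2 G = k ^ 2 + k) :
    ∃ e, Cq G e ∧ e.card = 2 ∧ k + 1 ≤ NN G e - 6 := by
  by_contra hne
  push Not at hne
  have hg : ∀ e, Cq G e → e.card = 2 → NN G e - 6 ≤ k := fun e a b => by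
    have := hne e a b; omega
  have s0 := sum_le_sum (fun u (_ : u ∈ univ) => h.per_vertex hk h1 h2 hg u)
  obtain ⟨-, -, -, sx, sy⟩ := h.c0
  have s1 := sum_congr rfl (fun v (_ : v ∈ univ) => (h.idIV_V v).1)
  have s2 := sum_congr rfl (fun v (_ : v ∈ univ) => (h.idIV_V v).2)
  have s3 : ∑ v, ∑ u ∈ MM G v, xv G u = ∑ u, (2 * k + 2 - xv G u) * xv G u := by
    rw [sum_MM (fun _ u => xv G u)]
    apply sum_congr rfl
    intro u _
    rw [sum_const, nsmul_eq_mul, card_MM, h1]; ring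
  have s4 : ∑ v, ∑ u ∈ MM G v, yv G u = ∑ u, (2 * k + 2 - xv G u) * yv G u := by
    rw [sum_MM (fun _ u => yv G u)]
    apply sum_congr rfl
    intro u _
    rw [sum_const, nsmul_eq_mul, card_MM, h1]; ring
  have s5 : ∑ u, ∑ v ∈ MM G u, ∑ w ∈ MM G v ∩ nb G {u}, (k - (NN G (insert u {w}) - 6)) =
      2 * (k * ∑ v, cc G (MM G v) 2 - ∑ v, ∑ e ∈ clj G (MM G v) 2, (NN G e - 6)) := by
    rw [← sum_MM (fun v u => ∑ w ∈ MM G v ∩ nb G {u}, (k - (NN G (insert u {w}) - 6))),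
      mul_sum, ← sum_sub_distrib, mul_sum]
    apply sum_congr rfl
    intro v _
    have b1 := handshake (G := G) (MM G v) 1 (fun e => k - (NN G e - 6))
    simp only [sum_clj_one] at b1
    rw [← b1, sum_sub_distrib (f := fun _ => k)]
    simp [cc, mul_comm, one_add_one_eq_two]
  have s6 : ∑ v, cc G (MM G v) 5 ≤ ∑ v, cc G (MM G v) 4 := sum_le_sum (fun v _ => h.c5_le_c4 _)
  have hn : (Fintype.card V : ℤ) = 2 * k + 11 := by unfold g1 at h1; linarith only [h1]
  have e1 : ∑ u, 6 * (xv G u - k - 1) * (yv G u - k * (xv G u - k)) =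
      6 * ∑ u, xv G u * yv G u - 6 * k * ∑ u, xv G u ^ 2 - 6 * (k + 1) * ∑ u, yv G u
        + (6 * k ^ 2 + 6 * k * (k + 1)) * ∑ u, xv G u - 6 * (k + 1) * k ^ 2 * (2 * k + 11) := by
    rw [← hn, mul_sum, mul_sum, mul_sum, mul_sum, ← card_univ, card_eq_sum_ones, Nat.cast_sum,
      mul_sum, ← sum_sub_distrib, ← sum_sub_distrib, ← sum_add_distrib, ← sum_sub_distrib]
    apply sum_congr rfl
    intro u _
    push_cast; ring
  have e2 : ∑ u, 2 * (xv G u - k) * (xv G u - k - 1) =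
      2 * ∑ u, xv G u ^ 2 - (4 * k + 2) * ∑ u, xv G u + 2 * k * (k + 1) * (2 * k + 11) := by
    rw [← hn, mul_sum, mul_sum, ← card_univ, card_eq_sum_ones, Nat.cast_sum,
      mul_sum, ← sum_sub_distrib, ← sum_add_distrib]
    apply sum_congr rfl
    intro u _
    push_cast; ring
  have e3 : ∑ u, (2 * k + 2 - xv G u) * xv G u = (2 * k + 2) * ∑ u, xv G u - ∑ u, xv G u ^ 2 := by
    rw [mul_sum, ← sum_sub_distrib]
    apply sum_congr rfl
    intro u _
    ring
  have e4 : ∑ u, (2 * k + 2 - xv G u) * yv G u =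
      (2 * k + 2) * ∑ u, yv G u - ∑ u, xv G u * yv G u := by
    rw [mul_sum, ← sum_sub_distrib]
    apply sum_congr rfl
    intro u _
    ring
  simp only [sum_sub_distrib, sum_add_distrib, ← mul_sum, sum_const, card_univ, nsmul_eq_mul,
    hn] at s1 s2
  rw [sum_sub_distrib, sum_add_distrib, sum_add_distrib, ← mul_sum, ← mul_sum, s5, e1, e2] at s0
  simp only [sum_sub_distrib, sum_const, card_univ, nsmul_eq_mul, hn] at s0
  rw [s3, e3] at s1
  rw [s4, e4] at s2
  rw [h1, h2] at sx s1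
  rw [h2] at sy s2
  rw [sx, sy] at s0 s1
  rw [sy] at s2
  generalize (∑ x, ∑ x ∈ clj G (MM G x) 2, NN G x
    - ∑ x, ((clj G (MM G x) 2).card : ℤ) * 6) = W at s0 s2
  generalize ∑ u, xv G u ^ 2 = A at s0 s1
  generalize ∑ u, xv G u * yv G u = B at s0 s2
  generalize ∑ v, cc G (MM G v) 2 = E at s0 s1
  have s7 : k * (2 * (k ^ 2 + k) - 2 * (6 * (2 * k + 1) + 2 * (k ^ 2 + k))) =
      k * ((2 * k + 11) * (k ^ 2 + k) - (2 * k + 11) * (2 * k + 1) -
        ((2 * k + 2) * (6 * (2 * k + 1) + 2 * (k ^ 2 + k)) - A) + E) := by rw [s1]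
  linarith only [hk, s6, s2, s0, s1, s7]

end Sph

end Pool.Agent.Work.MP_001c0f_co
end

-- merged part: Pool.Agent.Work.MP_001c0f_co.Main
section
-- merged part: Pool.Agent.Work.MP_001c0f_co.Join
section
set_option autoImplicit false
set_option linter.unusedSectionVars false

open Finset

namespace Pool.Agent.Work.MP_001c0f_co

variable {V : Type} [Fintype V] [DecidableEq V] {G : SimpleGraph V}

lemma exists_max_clique (S : Finset V) : ∃ ρ ⊆ S, Cq G ρ ∧ S ∩ nb G ρ = ∅ := by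
  obtain ⟨ρ, hρ, hmax⟩ := exists_max_image (cl G S) card
    ⟨∅, mem_cl.2 ⟨empty_subset _, cq_empty⟩⟩
  rw [mem_cl] at hρ
  refine ⟨ρ, hρ.1, hρ.2, ?_⟩
  rw [eq_empty_iff_forall_notMem]
  intro v hv
  rw [mem_inter] at hv
  have := hmax (insert v ρ) (mem_cl.2 ⟨insert_subset hv.1 hρ.1, hρ.2.insert hv.2⟩)
  rw [card_insert_nb hv.2] at this
  omega

variable (G) in
/-- the conclusion: the graph is the join of the link of an edge and the link of a triangle -/
def Joined (l m : ℤ) : Prop :=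
  ∃ e t : Finset V, Cq G e ∧ e.card = 2 ∧ Cq G t ∧ t.card = 3 ∧
    (∀ v, v ∈ nb G e ↔ v ∉ nb G t) ∧ (∀ u ∈ nb G e, ∀ v ∈ nb G t, G.Adj u v) ∧
    ((NN G e = l + 6 ∧ NN G t = m + 4) ∨ (NN G e = m + 6 ∧ NN G t = l + 4))

namespace Sph

variable (h : Sph G)
include h

lemma edge_le {e : Finset V} (he : Cq G e) (hc : e.card = 2) {x l : ℝ} (x0 : 0 < x)
    (x1 : x < 1 / 2) (x2 : (1 - 2 * x) ^ 2 = l * (x * (1 - x))) (hq : 0 ≤ Q G (nb G e) x) :
    (NN G e : ℝ) - 6 ≤ l := by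
  rw [h.Q2 he hc, x2] at hq
  have b3 : 0 < x * (1 - x) := mul_pos x0 (by linarith only [x0, x1])
  by_contra hn
  push Not at hn
  have b4 : l * (x * (1 - x)) - ((NN G e : ℝ) - 6) * (x * (1 - x)) < 0 := by linarith only [b3, hn, mul_pos_of_neg_of_neg (Mathlib.Tactic.Linarith.sub_neg_of_lt b3) (Mathlib.Tactic.Linarith.sub_neg_of_lt hn)]
  have := mul_neg_of_pos_of_neg (show 0 < 1 - 2 * x by linarith only [x1]) b4
  linarith only [hq, this]

lemma gal (hn : 0 ≤ g1 G) : 4 * g2 G ≤ g1 G ^ 2 := by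
  by_contra hcon
  push Not at hcon
  have hcon' : (g1 G : ℝ) ^ 2 < 4 * g2 G := by exact_mod_cast hcon
  obtain ⟨a, ha0, -, ha1, ha2, -⟩ := param (1 / 2) (by norm_num)
  have ha1 := ha1 (by norm_num)
  have hall : ∀ T, 0 ≤ Q G T a := by
    intro T
    apply Q_nonneg ha0.le _ T (subset_univ T)
    intro t ht0 ht
    rcases ht0.eq_or_lt with rfl | htp
    · rw [Q_zero]; norm_num
    rw [h.Q0]
    apply mul_pos (by linarith only [ha1, ht])
    have b3 : 0 < t * (1 - t) := mul_pos htp (by linarith only [ha1, ht, htp])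
    have b4 : 0 < (4 * (g2 G : ℝ) - (g1 G : ℝ) ^ 2) * (t * (1 - t)) ^ 2 :=
      mul_pos (by linarith only [hcon']) (pow_pos b3 2)
    linarith only [b4, sq_nonneg (2 * (1 - 2 * t) ^ 2 - (g1 G : ℝ) * (t * (1 - t))), sq_nonneg ((2 : ℝ) * ((1 : ℝ) - (2 : ℝ) * t) ^ (2 : ℕ) - ↑(g1 G) * (t * ((1 : ℝ) - t)))]
  have hv : ∀ v, 4 * xv G v + 2 * yv G v ≤ 0 := by
    intro v
    rw [← h.sum_gE]
    apply sum_nonpos
    intro w hw
    have b1 := h.edge_le ((cq_singleton v).insert hw)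
      (by rw [card_insert_nb hw, card_singleton]) ha0 ha1 ha2 (hall _)
    have b2 : (NN G (insert w {v}) : ℝ) - 6 < 1 := by linarith only [ha0, ha1, b1]
    have b3 : NN G (insert w {v}) - 6 < 1 := by exact_mod_cast b2
    omega
  have hs : ∑ v, (4 * xv G v + 2 * yv G v) ≤ 0 := sum_nonpos (fun v _ => hv v)
  obtain ⟨-, -, -, sx, sy⟩ := h.c0
  rw [sum_add_distrib, ← mul_sum, ← mul_sum, sx, sy] at hs
  linarith only [hn, hcon, hs, sq_nonneg (g1 G), sq_nonneg (g1 G)]

lemma lemJ {l m : ℤ} (hm : 0 ≤ m) (hlm : l = m ∨ l = m + 1) (h1 : g1 G = l + m)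
    {x : ℝ} (x0 : 0 < x) (x1 : x < 1 / 2) (x2 : (1 - 2 * x) ^ 2 = l * (x * (1 - x)))
    (hall : ∀ T, 0 ≤ Q G T x) {T0 : Finset V} (hT0 : T0 ≠ univ) (hz : Q G T0 x = 0) :
    Joined G l m := by
  classical
  obtain ⟨T, hT, hmin⟩ := exists_min_image (univ.filter (fun T : Finset V => Q G T x = 0)) card
    ⟨T0, mem_filter.2 ⟨mem_univ _, hz⟩⟩
  have hT := (mem_filter.1 hT).2
  have hmin : ∀ T', Q G T' x = 0 → T.card ≤ T'.card :=
    fun T' h' => hmin T' (mem_filter.2 ⟨mem_univ _, h'⟩)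
  have hw0 : 0 < x * (1 - x) := mul_pos x0 (by linarith only [x0, x1])
  have hz0 : 0 < 1 - 2 * x := by linarith only [x1]
  have hTu : T ≠ univ := by
    intro h0
    apply hT0
    apply eq_univ_of_card
    have b1 := hmin T0 hz
    have b2 := card_le_univ T0
    rw [h0, card_univ] at b1
    omega
  have hadj : ∀ w, w ∉ T → ∀ u ∈ T, G.Adj w u := by
    intro w hw u hu
    have b1 := hall (insert w T)
    rw [Q_insert hw, hT] at b1
    have b2 := hall (T ∩ nb G {w})
    have b3 : Q G (T ∩ nb G {w}) x = 0 := by nlinarith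
    have b4 := eq_of_subset_of_card_le inter_subset_left (hmin _ b3)
    rw [← b4] at hu
    exact mem_nb1.1 (mem_inter.1 hu).2
  obtain ⟨ρ', s', c', m'⟩ := exists_max_clique (G := G) Tᶜ
  obtain ⟨ρ, s, c, m0⟩ := exists_max_clique (G := G) T
  have n' : nb G ρ' = T := by
    ext v
    constructor
    · intro hv
      by_contra hv2
      have : v ∈ Tᶜ ∩ nb G ρ' := mem_inter.2 ⟨mem_compl.2 hv2, hv⟩
      rw [m'] at this
      exact notMem_empty _ this
    · intro hv
      exact mem_nb.2 (fun w hw => hadj w (mem_compl.1 (s' hw)) v hv)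
  have n0 : nb G ρ = Tᶜ := by
    ext v
    constructor
    · intro hv
      rw [mem_compl]
      intro hv2
      have : v ∈ T ∩ nb G ρ := mem_inter.2 ⟨hv2, hv⟩
      rw [m0] at this
      exact notMem_empty _ this
    · intro hv
      exact mem_nb.2 (fun w hw => (hadj v (mem_compl.1 hv) w (s hw)).symm)
  have hsub : ρ ⊆ nb G ρ' := n' ▸ s
  have hcard : ρ'.card + ρ.card = 5 := by
    have b1 := h.K _ (c'.union c hsub)
    by_contra hne
    have b2 := h.N _ (c'.union c hsub) (by rw [card_union_of_subset_nb hsub] at b1 ⊢; omega)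
    rw [nb_union, n', n0, inter_compl] at b2
    exact absurd rfl b2.ne_empty
  have hsum : NN G ρ' + NN G ρ = l + m + 10 := by
    unfold NN
    rw [n', n0]
    have := card_add_card_compl T
    unfold g1 at h1
    omega
  have hcases : ρ'.card = 0 ∨ ρ'.card = 1 ∨ ρ'.card = 2 ∨ ρ'.card = 3 ∨ ρ'.card = 4 ∨
      ρ'.card = 5 := by omega
  rw [← n'] at hT
  rcases hcases with k | k | k | k | k | k
  · rw [card_eq_zero] at k
    rw [k, nb_empty] at n'
    exact absurd n'.symm hTu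
  · exfalso
    obtain ⟨p, rfl⟩ := card_eq_one.1 k
    have b1 := h.N4 c (by omega)
    have b2 : xv G p = l + m := by unfold xv; omega
    have hl4 : (1 - 2 * x) ^ 4 = ((l : ℝ) * (x * (1 - x))) ^ 2 := by rw [← x2]; ring
    rw [h.Q1, hl4, x2, b2] at hT
    have b3 : yv G p = l * m := by
      have b4 : (x * (1 - x)) ^ 2 * ((yv G p : ℝ) - l * m) = 0 := by
        push_cast at hT; linarith only [hT]
      rcases mul_eq_zero.1 b4 with b5 | b5
      · exact absurd b5 (pow_pos hw0 2).ne'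
      · have : (yv G p : ℝ) = l * m := by linarith only [b5]
        exact_mod_cast this
    have b4 := h.sum_gE p
    have b5 : ∃ w ∈ nb G {p}, l ≤ NN G (insert w {p}) - 6 := by
      by_contra hn
      push Not at hn
      have b6 : ∑ w ∈ nb G {p}, (NN G (insert w {p}) - 6) ≤ ∑ _w ∈ nb G {p}, (l - 1) :=
        sum_le_sum (fun w hw => by have := hn w hw; omega)
      have b7 : ∑ _w ∈ nb G {p}, (l - 1) = (xv G p + 8) * (l - 1) := by
        rw [sum_const, nsmul_eq_mul]; simp [xv, NN]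
      rw [b4, b7, b2, b3] at b6
      rcases hlm with rfl | rfl <;> linarith only [hm, b6]
    obtain ⟨w, hw, hw1⟩ := b5
    have hc2 : Cq G (insert w {p}) := (cq_singleton p).insert hw
    have hd2 : (insert w ({p} : Finset V)).card = 2 := by rw [card_insert_nb hw, card_singleton]
    have b6 := h.edge_le hc2 hd2 x0 x1 x2 (hall _)
    have b7 : (l : ℝ) ≤ (NN G (insert w {p}) : ℝ) - 6 := by exact_mod_cast hw1
    have b8 : Q G (nb G (insert w {p})) x = 0 := by
      rw [h.Q2 hc2 hd2, x2, le_antisymm b6 b7]; ring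
    have b9 := hmin _ b8
    have b10 := h.NN_insert (cq_singleton p) hw
    unfold NN at b10
    rw [n'] at b10
    omega
  · rw [h.Q2 c' k, x2] at hT
    have b1 : NN G ρ' = l + 6 := by
      rcases mul_eq_zero.1 hT with b5 | b5
      · exact absurd b5 hz0.ne'
      · have b6 : (x * (1 - x)) * ((NN G ρ' : ℝ) - (l + 6)) = 0 := by linarith only [b5]
        rcases mul_eq_zero.1 b6 with b7 | b7
        · exact absurd b7 hw0.ne'
        · have : (NN G ρ' : ℝ) = l + 6 := by linarith only [b7]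
          exact_mod_cast this
    refine ⟨ρ', ρ, c', k, c, by omega, ?_, ?_, Or.inl ⟨b1, by omega⟩⟩
    · intro v; rw [n', n0]; simp
    · intro u hu v hv
      rw [n'] at hu; rw [n0] at hv
      exact (hadj v (mem_compl.1 hv) u hu).symm
  · rw [h.Q3 c' k, x2] at hT
    have b1 : NN G ρ' = l + 4 := by
      have b6 : (x * (1 - x)) * ((NN G ρ' : ℝ) - (l + 4)) = 0 := by linarith only [hT]
      rcases mul_eq_zero.1 b6 with b7 | b7
      · exact absurd b7 hw0.ne'
      · have : (NN G ρ' : ℝ) = l + 4 := by linarith only [b7]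
        exact_mod_cast this
    refine ⟨ρ, ρ', c, by omega, c', k, ?_, ?_, Or.inr ⟨by omega, b1⟩⟩
    · intro v; rw [n', n0]; simp
    · intro u hu v hv
      rw [n0] at hu; rw [n'] at hv
      exact hadj u (mem_compl.1 hu) v hv
  · rw [h.Q4 c' k] at hT
    exact absurd hT hz0.ne'
  · rw [h.Q5 c' k] at hT
    exact absurd hT one_ne_zero

lemma joined_zero (h1 : g1 G = 0) (h2 : g2 G = 0) : Joined G 0 0 := by
  have hn : Fintype.card V = 10 := by unfold g1 at h1; omega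
  have hx : ∀ v, xv G v = 0 := by
    have b1 : ∀ v ∈ (univ : Finset V), xv G v ≤ 0 := by
      intro v _
      have := h.NN_insert cq_empty (u := v) (by rw [nb_empty]; exact mem_univ _)
      unfold xv
      unfold NN at this ⊢
      rw [nb_empty, card_univ, hn, insert_empty_eq] at this
      omega
    obtain ⟨-, -, -, sx, -⟩ := h.c0
    rw [h1, h2] at sx
    intro v
    exact (sum_eq_zero_iff_of_nonpos b1).1 (by rw [sx]; norm_num) v (mem_univ v)
  have hext : ∀ j ≤ 5, ∃ ρ, Cq G ρ ∧ ρ.card = j := by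
    intro j hj
    induction j with
    | zero => exact ⟨∅, cq_empty, rfl⟩
    | succ j ih =>
      obtain ⟨ρ, c, hc⟩ := ih (by omega)
      obtain ⟨u, hu⟩ := h.N ρ c (by omega)
      exact ⟨insert u ρ, c.insert hu, by rw [card_insert_nb hu, hc]⟩
  obtain ⟨σ, cσ, hσ⟩ := hext 5 (le_refl _)
  obtain ⟨e, he, hec⟩ := exists_subset_card_eq (show 2 ≤ σ.card by omega)
  have htc : (σ \ e).card = 3 := by rw [card_sdiff_of_subset he]; omega
  have ce := cσ.mono he
  have ct : Cq G (σ \ e) := cσ.mono sdiff_subset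
  have b1 := h.N2_ge ce hec
  have b2 := h.N3_ge ct htc
  have b3 : nb G e ∩ nb G (σ \ e) = ∅ := by
    rw [← nb_union, union_sdiff_of_subset he, h.nb5 cσ hσ]
  have b4 := card_union_of_disjoint (disjoint_iff_inter_eq_empty.2 b3)
  have b5 := card_le_univ (nb G e ∪ nb G (σ \ e))
  unfold NN at b1 b2
  have b6 : nb G e ∪ nb G (σ \ e) = univ := eq_univ_of_card _ (by omega)
  have b7 : ∀ v, v ∈ nb G e ↔ v ∉ nb G (σ \ e) := by
    intro v
    constructor
    · intro hv hv2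
      have : v ∈ nb G e ∩ nb G (σ \ e) := mem_inter.2 ⟨hv, hv2⟩
      rw [b3] at this
      exact notMem_empty _ this
    · intro hv
      have : v ∈ nb G e ∪ nb G (σ \ e) := b6 ▸ mem_univ v
      exact (mem_union.1 this).resolve_right hv
  refine ⟨e, σ \ e, ce, hec, ct, htc, b7, ?_, Or.inl ⟨by unfold NN; omega, by unfold NN; omega⟩⟩
  intro u hu v hv
  by_contra hn2
  obtain ⟨w, hw, hwu, hw2⟩ := h.noncone ce hu
  have c1 := card_MM (G := G) u
  rw [h1, hx u] at c1
  have c2 : (MM G u).card ≤ 1 := by omega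
  have c3 := card_le_one.1 c2 v (mem_MM.2 ⟨fun h0 => (b7 u).1 hu (h0 ▸ hv), hn2⟩) w
    (mem_MM.2 ⟨hwu, hw2⟩)
  exact (b7 w).1 hw (c3 ▸ hv)

theorem joined {l m : ℤ} (hm : 0 ≤ m) (hlm : l = m ∨ l = m + 1) (h1 : g1 G = l + m)
    (h2 : g2 G = l * m) : Joined G l m := by
  by_cases hl : l = 0
  · have : m = 0 := by omega
    subst this; subst hl
    exact h.joined_zero (by simpa using h1) (by simpa using h2)
  have hl0 : (0 : ℝ) < l := by exact_mod_cast (show (0 : ℤ) < l by omega)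
  obtain ⟨x, x0, x1', x1'', x2, x3⟩ := param (l : ℝ) hl0.le
  have x1 := x1'' hl0
  have hall := h.pos0 (l := (l : ℝ)) (m := m) (by exact_mod_cast (show m ≤ l by omega))
    (by rw [h1]; push_cast; ring) (by rw [h2]; push_cast; ring) x0 x1' x3
  have hw0 : 0 < x * (1 - x) := mul_pos x0 (by linarith only [x0, x1])
  rcases hlm with rfl | rfl
  · have hl4 : (1 - 2 * x) ^ 4 = ((l : ℝ) * (x * (1 - x))) ^ 2 := by rw [← x2]; ring
    obtain ⟨-, -, -, sx, sy⟩ := h.c0
    have b1 : ∑ v, Q G (nb G {v}) x = 0 := by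
      rw [sum_congr rfl (fun v _ => h.Q1 v x), sum_add_distrib, sum_sub_distrib, ← sum_mul,
        ← sum_mul, ← sum_mul, ← Int.cast_sum, ← Int.cast_sum, sx, sy, h1, h2, hl4, x2, sum_const,
        card_univ, nsmul_eq_mul]
      have : (Fintype.card V : ℝ) = l + l + 10 := by
        unfold g1 at h1
        have : (Fintype.card V : ℤ) = l + l + 10 := by omega
        exact_mod_cast this
      rw [this]
      push_cast
      ring
    have hne : Nonempty V := by
      rw [← Fintype.card_pos_iff]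
      unfold g1 at h1
      omega
    obtain ⟨v⟩ := hne
    have b2 := (sum_eq_zero_iff_of_nonneg (fun v _ => hall (nb G {v}))).1 b1 v (mem_univ v)
    refine h.lemJ hm (Or.inl rfl) h1 x0 x1 x2 hall (fun h0 => ?_) b2
    exact G.irrefl (mem_nb1.1 (h0 ▸ mem_univ v))
  · obtain ⟨e, he, hc, hg⟩ := h.odd_case hm (by rw [h1]; ring) (by rw [h2]; ring)
    have b6 := h.edge_le he hc x0 x1 x2 (hall _)
    have b7 : ((m + 1 : ℤ) : ℝ) ≤ (NN G e : ℝ) - 6 := by exact_mod_cast hg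
    have b8 : Q G (nb G e) x = 0 := by
      rw [h.Q2 he hc, x2, le_antisymm b6 b7]; ring
    refine h.lemJ hm (Or.inr rfl) h1 x0 x1 x2 hall (fun h0 => ?_) b8
    obtain ⟨v, hv⟩ : e.Nonempty := card_pos.1 (by omega)
    exact not_mem_of_mem_nb (h0 ▸ mem_univ v) hv

end Sph

end Pool.Agent.Work.MP_001c0f_co
end

-- merged part: Pool.Agent.Work.MP_001c0f_co.Homology
section
set_option autoImplicit false
set_option linter.unusedSectionVars false

open Finset

namespace Pool.Agent.Work.MP_001c0f_co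

variable (k : Type) [Field k] {n : ℕ}

/-- boundary matrix -/
noncomputable def bd (L : Finset (Finset (Fin n))) (s : ℕ) :
    Matrix (Finset (Fin n)) (Finset (Fin n)) k :=
  Matrix.of (fun ρ τ : Finset (Fin n) =>
    if τ ∈ L ∧ τ.card = s ∧ ρ ⊆ τ ∧ ρ.card + 1 = τ.card
    then ∑ v ∈ τ \ ρ, (-1 : k) ^ (τ.filter (fun w => w < v)).card else 0)

/-- reduced Betti numbers, shifted by one -/
noncomputable def BB (L : Finset (Finset (Fin n))) (s : ℕ) : ℤ :=
  ((L.filter (fun τ => τ.card = s)).card : ℤ) - ((bd k L s).rank : ℤ) - ((bd k L (s + 1)).rank : ℤ)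

lemma rank_bd_zero (L : Finset (Finset (Fin n))) : (bd k L 0).rank = 0 := by
  have : bd k L 0 = 0 := by
    ext ρ τ
    simp only [bd, Matrix.of_apply, Matrix.zero_apply]
    rw [if_neg]
    rintro ⟨-, h1, -, h2⟩
    omega
  rw [this, Matrix.rank_zero]

lemma rank_bd_none (L : Finset (Finset (Fin n))) (s : ℕ) (h : ∀ τ ∈ L, τ.card ≠ s) :
    (bd k L s).rank = 0 := by
  have : bd k L s = 0 := by
    ext ρ τ
    simp only [bd, Matrix.of_apply, Matrix.zero_apply]
    rw [if_neg]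
    rintro ⟨h0, h1, -, -⟩
    exact h τ h0 h1
  rw [this, Matrix.rank_zero]

lemma rank_bd_one (L : Finset (Finset (Fin n))) : (bd k L 1).rank ≤ 1 := by
  have := Matrix.rank_le_card_of_support_subset (bd k L 1) {∅} (by
    intro ρ hρ
    rw [Function.mem_support] at hρ
    by_contra hne
    apply hρ
    ext τ
    simp only [bd, Matrix.row, Matrix.of_apply, Pi.zero_apply]
    rw [if_neg]
    rintro ⟨-, h1, -, h2⟩
    apply hne
    have : ρ.card = 0 := by omega
    simp [card_eq_zero.1 this])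
  simpa using this

lemma rank_le_of_rows {ι : Type} [Fintype ι] [DecidableEq ι] (M : Matrix ι ι k) (R : Finset ι)
    (h : ∀ i, M.row i ∈ Submodule.span k (M.row '' (R : Set ι))) :
    M.rank ≤ R.card := by
  classical
  rw [← coe_image] at h
  rw [Matrix.rank_eq_finrank_span_row]
  have h1 : Submodule.span k (Set.range M.row) ≤
      Submodule.span k ((R.image M.row : Finset (ι → k)) : Set (ι → k)) := by
    rw [Submodule.span_le]
    rintro _ ⟨i, rfl⟩
    exact h i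
  exact (Submodule.finrank_mono h1).trans ((finrank_span_finset_le_card _).trans card_image_le)

lemma bd_two_pair (L : Finset (Finset (Fin n))) {a b : Fin n} (hab : a < b)
    (hL : ({a, b} : Finset (Fin n)) ∈ L) (v : Fin n) :
    bd k L 2 {v} {a, b} = if v = a then -1 else if v = b then 1 else 0 := by
  have hc : ({a, b} : Finset (Fin n)).card = 2 := card_pair hab.ne
  simp only [bd, Matrix.of_apply, hL, hc, card_singleton, singleton_subset_iff, mem_insert,
    mem_singleton, true_and, and_true]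
  by_cases h1 : v = a
  · subst h1
    have e1 : ({v, b} : Finset (Fin n)) \ {v} = {b} := by
      ext w; simp only [mem_sdiff, mem_insert, mem_singleton]
      constructor
      · rintro ⟨h | h, h2⟩
        · exact absurd h h2
        · exact h
      · rintro rfl; exact ⟨Or.inr rfl, hab.ne'⟩
    have e2 : ({v, b} : Finset (Fin n)).filter (fun w => w < b) = {v} := by
      ext w; simp only [mem_filter, mem_insert, mem_singleton]
      constructor
      · rintro ⟨h | h, h2⟩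
        · exact h
        · exact absurd h h2.ne
      · rintro rfl; exact ⟨Or.inl rfl, hab⟩
    simp [e1, e2]
  by_cases h2 : v = b
  · subst h2
    have e1 : ({a, v} : Finset (Fin n)) \ {v} = {a} := by
      ext w; simp only [mem_sdiff, mem_insert, mem_singleton]
      constructor
      · rintro ⟨h | h, h2⟩
        · exact h
        · exact absurd h h2
      · rintro rfl; exact ⟨Or.inl rfl, hab.ne⟩
    have e2 : ({a, v} : Finset (Fin n)).filter (fun w => w < a) = ∅ := by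
      ext w; simp only [mem_filter, mem_insert, mem_singleton, notMem_empty, iff_false]
      rintro ⟨h | h, h2⟩
      · exact absurd h h2.ne
      · subst h; exact absurd hab (not_lt.2 h2.le)
    simp [e1, e2, h1]
  · simp [h1, h2]

lemma sum_rows_closed (G : SimpleGraph (Fin n)) (S A : Finset (Fin n))
    (hA : ∀ a ∈ A, ∀ b ∈ S, G.Adj a b → b ∈ A) :
    ∑ v ∈ A, (bd k (cl G S) 2).row {v} = 0 := by
  ext τ
  rw [Finset.sum_apply, Pi.zero_apply]
  by_cases hτ : τ ∈ cl G S ∧ τ.card = 2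
  · obtain ⟨a, b, hab, rfl⟩ : ∃ a b, a < b ∧ τ = {a, b} := by
      obtain ⟨a, b, hab, rfl⟩ := card_eq_two.1 hτ.2
      rcases lt_or_gt_of_ne hab with h | h
      · exact ⟨a, b, h, rfl⟩
      · exact ⟨b, a, h, pair_comm _ _⟩
    have h1 := mem_cl.1 hτ.1
    have hadj : G.Adj a b := h1.2 a (by simp) b (by simp) hab.ne
    have hiff : a ∈ A ↔ b ∈ A :=
      ⟨fun h => hA a h b (h1.1 (by simp)) hadj, fun h => hA b h a (h1.1 (by simp)) hadj.symm⟩
    simp only [Matrix.row, bd_two_pair k _ hab hτ.1]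
    have e : ∀ v, (if v = a then (-1 : k) else if v = b then 1 else 0) =
        (if v = b then 1 else 0) - (if v = a then 1 else 0) := by
      intro v
      by_cases h1 : v = a
      · subst h1; simp [hab.ne]
      · simp [h1]
    simp only [e, sum_sub_distrib, sum_ite_eq', hiff, sub_self]
  · apply sum_eq_zero
    intro v _
    simp only [bd, Matrix.row, Matrix.of_apply]
    rw [if_neg]
    rintro ⟨h0, h1, -, -⟩
    exact hτ ⟨h0, h1⟩

lemma rank_bd_two (G : SimpleGraph (Fin n)) (S A : Finset (Fin n)) (hAS : A ⊆ S)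
    (hA : ∀ a ∈ A, ∀ b ∈ S, G.Adj a b → b ∈ A) {a b : Fin n} (ha : a ∈ A) (hb : b ∈ S \ A) :
    (bd k (cl G S) 2).rank + 2 ≤ S.card := by
  classical
  have hB : ∀ x ∈ S \ A, ∀ y ∈ S, G.Adj x y → y ∈ S \ A := by
    intro x hx y hy hxy
    rw [mem_sdiff] at hx ⊢
    exact ⟨hy, fun h => hx.2 (hA y h x hx.1 hxy.symm)⟩
  have hab : a ≠ b := fun h => (mem_sdiff.1 hb).2 (h ▸ ha)
  set M := bd k (cl G S) 2 with hM
  set R : Finset (Finset (Fin n)) := ((S.erase a).erase b).image (fun v => {v}) with hR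
  have hgen : ∀ v ∈ (S.erase a).erase b, M.row {v} ∈ Submodule.span k
      (M.row '' (R : Set (Finset (Fin n)))) := by
    intro v hv
    apply Submodule.subset_span
    exact Set.mem_image_of_mem _ (mem_coe.2 (mem_image_of_mem _ hv))
  have hone : ∀ (C : Finset (Fin n)) (c : Fin n), c ∈ C → C.erase c ⊆ (S.erase a).erase b →
      ∑ v ∈ C, M.row {v} = 0 → M.row {c} ∈ Submodule.span k
      (M.row '' (R : Set (Finset (Fin n)))) := by
    intro C c hc hsub hsum
    rw [← add_sum_erase _ _ hc] at hsum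
    rw [eq_neg_of_add_eq_zero_left hsum]
    exact Submodule.neg_mem _ (Submodule.sum_mem _ (fun v hv => hgen v (hsub hv)))
  have h1 := rank_le_of_rows k M R (by
    intro ρ
    by_cases hρ : ∃ v ∈ S, ρ = {v}
    · obtain ⟨v, hv, rfl⟩ := hρ
      by_cases h1 : v = a
      · subst h1
        refine hone A v ha ?_ (sum_rows_closed k G S A hA)
        intro w hw
        rw [mem_erase] at hw
        exact mem_erase.2 ⟨fun h => (mem_sdiff.1 hb).2 (h ▸ hw.2), mem_erase.2 ⟨hw.1, hAS hw.2⟩⟩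
      by_cases h2 : v = b
      · subst h2
        refine hone (S \ A) v hb ?_ (sum_rows_closed k G S _ hB)
        intro w hw
        rw [mem_erase, mem_sdiff] at hw
        exact mem_erase.2 ⟨hw.1, mem_erase.2 ⟨fun h => hw.2.2 (h ▸ ha), hw.2.1⟩⟩
      exact hgen v (mem_erase.2 ⟨h2, mem_erase.2 ⟨h1, hv⟩⟩)
    · have : M.row ρ = 0 := by
        ext τ
        simp only [hM, bd, Matrix.row, Matrix.of_apply, Pi.zero_apply]
        rw [if_neg]
        rintro ⟨h0, h1, h2, h3⟩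
        apply hρ
        obtain ⟨v, rfl⟩ := card_eq_one.1 (show ρ.card = 1 by omega)
        exact ⟨v, (mem_cl.1 h0).1 (h2 (mem_singleton_self v)), rfl⟩
      rw [this]
      exact Submodule.zero_mem _)
  have h2 : R.card ≤ ((S.erase a).erase b).card := card_image_le
  have h3 : b ∈ S.erase a := mem_erase.2 ⟨hab.symm, (mem_sdiff.1 hb).1⟩
  have h4 := card_erase_add_one h3
  have h5 := card_erase_add_one (hAS ha)
  omega

lemma sph_of_BB (G : SimpleGraph (Fin n))
    (H : ∀ τ, Cq G τ → ∀ s : ℕ, BB k (cl G (nb G τ)) s =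
      if (s : ℤ) = 5 - (τ.card : ℤ) then 1 else 0) : Sph G := by
  have hN : ∀ τ, Cq G τ → nb G τ = ∅ → τ.card = 5 := by
    intro τ hτ he
    have h1 := H τ hτ 0
    rw [he, cl_empty, BB, rank_bd_zero, rank_bd_none k _ _ (by simp)] at h1
    have h2 : (({∅} : Finset (Finset (Fin n))).filter (fun τ => τ.card = 0)).card = 1 := by
      rw [filter_true_of_mem (by simp)]; simp
    rw [h2] at h1
    split_ifs at h1 with h3
    · omega
    · simp at h1
  have hK : ∀ σ, Cq G σ → σ.card ≤ 5 := by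
    intro σ hσ
    obtain ⟨ρ, h1, h2, h3⟩ := exists_max_clique (G := G) (nb G σ)
    rw [← nb_union] at h3
    have := hN _ (hσ.union h2 h1) h3
    rw [card_union_of_subset_nb h1] at this
    omega
  have hcc : ∀ (S : Finset (Fin n)) (s : ℕ),
      (((cl G S).filter (fun τ => τ.card = s)).card : ℤ) = cc G S s := fun _ _ => rfl
  refine ⟨hK, fun τ hτ hc => nonempty_iff_ne_empty.2 (fun he => by have := hN τ hτ he; omega),
    ?_, ?_⟩
  · intro τ hτ
    have h0 := H τ hτ 0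
    have h1 := H τ hτ 1
    have h2 := H τ hτ 2
    have h3 := H τ hτ 3
    have h4 := H τ hτ 4
    have h5 := H τ hτ 5
    have h6 : (bd k (cl G (nb G τ)) (5 + 1)).rank = 0 := rank_bd_none k _ _ (fun σ hσ => by
      have := hK σ (mem_cl.1 hσ).2; omega)
    unfold BB at h0 h1 h2 h3 h4 h5
    rw [hcc] at h0 h1 h2 h3 h4 h5
    rw [rank_bd_zero] at h0
    rw [h6] at h5
    rw [Q_eq_cc (N := 6) (fun σ hσ => Nat.lt_succ_of_le (hK σ (mem_cl.1 hσ).2))]
    have goal : cc G (nb G τ) 0 - cc G (nb G τ) 1 + cc G (nb G τ) 2 - cc G (nb G τ) 3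
        + cc G (nb G τ) 4 - cc G (nb G τ) 5 = (-1) ^ (5 - τ.card) := by
      have := hK τ hτ
      norm_num at h0 h1 h2 h3 h4 h5
      generalize τ.card = c at *
      interval_cases c <;> norm_num at h0 h1 h2 h3 h4 h5 ⊢ <;> linarith only [h0, h1, h2, h3, h4, h5]
    have goal' : (cc G (nb G τ) 0 : ℝ) - cc G (nb G τ) 1 + cc G (nb G τ) 2 - cc G (nb G τ) 3
        + cc G (nb G τ) 4 - cc G (nb G τ) 5 = (-1) ^ (5 - τ.card) := by exact_mod_cast goal
    rw [← goal']
    simp only [sum_range_succ, range_zero, sum_empty]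
    ring
  · intro τ hτ hc A hA hcl
    by_contra hne
    push Not at hne
    obtain ⟨a, ha⟩ := hne.1
    obtain ⟨b, hb⟩ : (nb G τ \ A).Nonempty := by
      rw [sdiff_nonempty]
      exact fun h => hne.2 (Subset.antisymm hA h)
    have h1 := H τ hτ 1
    have h2 := rank_bd_two k G _ A hA hcl ha hb
    have h3 := rank_bd_one k (cl G (nb G τ))
    unfold BB at h1
    rw [hcc, cc_one, if_neg (by omega)] at h1
    norm_num at h1
    omega

end Pool.Agent.Work.MP_001c0f_co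
end

-- merged part: Pool.Agent.Work.MP_001c0f_co.Main
section
set_option autoImplicit false
set_option linter.unusedSectionVars false

open Finset Polynomial

namespace Pool.Agent.Work.MP_001c0f_co

lemma poly_coeff (a b : ℕ) :
    let P : ℕ[X] := (1 + C 2 * X) * (1 + C a * X + C a * X ^ 2) * (1 + C b * X + C b * X ^ 2)
    P.coeff 2 = 3 * (a + b) + a * b ∧ P.coeff 3 = 4 * (a * b) + 2 * (a + b) ∧
      P.coeff 4 = 5 * (a * b) ∧ P.coeff 5 = 2 * (a * b) := by
  intro P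
  have hP : P = C 1 * X ^ 0 + C (a + b + 2) * X ^ 1 + C (3 * (a + b) + a * b) * X ^ 2
      + C (4 * (a * b) + 2 * (a + b)) * X ^ 3 + C (5 * (a * b)) * X ^ 4
      + C (2 * (a * b)) * X ^ 5 := by
    simp only [P, map_add, map_mul, map_ofNat, map_one]
    ring
  rw [hP]
  simp only [coeff_add, coeff_C_mul, coeff_X_pow]
  norm_num

lemma poly_eq (n : ℕ) :
    ((1 + C 2 * X) *
      (1 + C ((n - 2) / 2 + 1) * X + C ((n - 2) / 2 + 1) * X ^ 2) ^ ((n - 2) % 2) *
      (1 + C ((n - 2) / 2) * X + C ((n - 2) / 2) * X ^ 2) ^ (2 - (n - 2) % 2) : ℕ[X]) =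
    (1 + C 2 * X) * (1 + C ((n - 2 + 1) / 2) * X + C ((n - 2 + 1) / 2) * X ^ 2) *
      (1 + C ((n - 2) / 2) * X + C ((n - 2) / 2) * X ^ 2) := by
  rcases Nat.mod_two_eq_zero_or_one (n - 2) with h | h
  · have : (n - 2 + 1) / 2 = (n - 2) / 2 := by omega
    rw [h, this]; ring
  · have : (n - 2 + 1) / 2 = (n - 2) / 2 + 1 := by omega
    rw [h, this]; ring

variable {n : ℕ}

/-- the graph of a complex -/
def gr (Δ : Finset (Finset (Fin n))) : SimpleGraph (Fin n) where
  Adj u v := u ≠ v ∧ ({u, v} : Finset (Fin n)) ∈ Δ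
  symm := ⟨fun u v h => ⟨h.1.symm, by rw [pair_comm]; exact h.2⟩⟩
  loopless := ⟨fun _ h => h.1 rfl⟩

lemma mem_iff_cq {Δ : Finset (Finset (Fin n))}
    (h1 : ∀ σ ∈ Δ, ∀ τ : Finset (Fin n), τ ⊆ σ → τ ∈ Δ)
    (h2 : ∀ v : Fin n, ({v} : Finset (Fin n)) ∈ Δ)
    (h3 : ∀ s : Finset (Fin n),
      (∀ u ∈ s, ∀ v ∈ s, ({u, v} : Finset (Fin n)) ∈ Δ) → s ∈ Δ) (σ : Finset (Fin n)) :
    σ ∈ Δ ↔ Cq (gr Δ) σ := by
  constructor
  · intro h u hu v hv huv
    exact ⟨huv, h1 σ h _ (insert_subset hu (singleton_subset_iff.2 hv))⟩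
  · intro h
    apply h3
    intro u hu v hv
    by_cases huv : u = v
    · subst huv; simpa using h2 u
    · exact (h u hu v hv huv).2

lemma link_cl {V : Type} [Fintype V] [DecidableEq V] {G : SimpleGraph V} {S σ : Finset V}
    (hσ : σ ∈ cl G S) :
    (cl G S).filter (fun τ => Disjoint τ σ ∧ τ ∪ σ ∈ cl G S) = cl G (S ∩ nb G σ) := by
  ext τ
  rw [mem_cl] at hσ
  simp only [mem_filter, mem_cl]
  constructor
  · rintro ⟨⟨a1, a2⟩, a3, -, a5⟩
    refine ⟨fun v hv => mem_inter.2 ⟨a1 hv, mem_nb.2 (fun u hu => ?_)⟩, a2⟩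
    exact a5 u (mem_union_right _ hu) v (mem_union_left _ hv)
      (fun h => disjoint_left.1 a3 hv (h ▸ hu))
  · rintro ⟨a1, a2⟩
    have a3 : τ ⊆ nb G σ := a1.trans inter_subset_right
    have a4 : τ ⊆ S := a1.trans inter_subset_left
    refine ⟨⟨a4, a2⟩, (disjoint_of_subset_nb a3).symm, union_subset a4 hσ.1, ?_⟩
    rw [union_comm]
    exact hσ.2.union a2 a3

theorem main (k : Type) [Field k] (n : ℕ) (hn : 10 ≤ n)
    (HS : Finset (Finset (Fin n)) → ℕ → Prop)
    (hHS : ∀ L d, HS L d ↔ ∀ σ ∈ L, ∀ s : ℕ,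
          BB k (L.filter (fun τ => Disjoint τ σ ∧ τ ∪ σ ∈ L)) s =
            if (s : ℤ) = (d : ℤ) + 1 - (σ.card : ℤ) then 1 else 0)
    (Δ : Finset (Finset (Fin n)))
    (h1 : ∀ σ ∈ Δ, ∀ τ : Finset (Fin n), τ ⊆ σ → τ ∈ Δ)
    (h2 : ∀ v : Fin n, ({v} : Finset (Fin n)) ∈ Δ)
    (h3 : ∀ s : Finset (Fin n),
      (∀ u ∈ s, ∀ v ∈ s, ({u, v} : Finset (Fin n)) ∈ Δ) → s ∈ Δ)
    (h4 : HS Δ 4) (i : ℕ) (hi : i ∈ Finset.Icc 1 4) (P : ℕ[X])
    (hP : P = (1 + C 2 * X) * (1 + C ((n - 2 + 1) / 2) * X + C ((n - 2 + 1) / 2) * X ^ 2) *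
      (1 + C ((n - 2) / 2) * X + C ((n - 2) / 2) * X ^ 2)) :
    (Δ.filter (fun σ => σ.card = i + 1)).card ≤ P.coeff (i + 1) ∧
    ((Δ.filter (fun σ => σ.card = i + 1)).card = P.coeff (i + 1) →
      ∃ c : Fin n → ℕ,
        (∀ v, c v < 2) ∧
        (∀ σ : Finset (Fin n),
            (∀ j, j < 2 → σ.filter (fun v => c v = j) ∈ Δ) → σ ∈ Δ) ∧
        (∀ j, j < 2 →
            HS (Δ.filter (fun σ => ∀ v ∈ σ, c v = j)) (if j = 0 then 2 else 1)) ∧
        (∀ j, j < 2 →
            ((Finset.univ.filter (fun v => c v = j)).card =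
                (n - 2) / 2 + (if j = 0 then 2 else 0) ∨
             (Finset.univ.filter (fun v => c v = j)).card =
                (n - 2 + 2 - 1) / 2 + (if j = 0 then 2 else 0)))) := by
  classical
  set G := gr Δ with hG
  have hm := mem_iff_cq h1 h2 h3
  rw [← hG] at hm
  have hΔ : Δ = cl G univ := by
    ext σ; rw [hm, mem_cl]; simp
  have H : ∀ τ, Cq G τ → ∀ s : ℕ, BB k (cl G (nb G τ)) s =
      if (s : ℤ) = 5 - (τ.card : ℤ) then 1 else 0 := by
    intro τ hτ s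
    have := (hHS Δ 4).1 h4 τ ((hm τ).2 hτ) s
    rw [hΔ, link_cl (mem_cl.2 ⟨subset_univ _, hτ⟩), univ_inter] at this
    rw [this]
    norm_num
  have hsub : ∀ e, Cq G e → ∀ d : ℕ, d + 1 + e.card = 5 → HS (cl G (nb G e)) d := by
    intro e he d hd
    rw [hHS]
    intro σ hσ s
    rw [link_cl hσ, ← nb_union]
    rw [mem_cl] at hσ
    rw [H _ (he.union hσ.2 hσ.1), card_union_of_subset_nb hσ.1]
    have : (5 : ℤ) - ((e.card + σ.card : ℕ) : ℤ) = (d : ℤ) + 1 - (σ.card : ℤ) := by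
      push_cast; omega
    rw [this]
  have hS := sph_of_BB k G H
  obtain ⟨l, hl⟩ : ∃ l : ℕ, (n - 2 + 1) / 2 = l + 4 := ⟨(n - 2 + 1) / 2 - 4, by omega⟩
  obtain ⟨m, hm'⟩ : ∃ m : ℕ, (n - 2) / 2 = m + 4 := ⟨(n - 2) / 2 - 4, by omega⟩
  have g1e : g1 G = (l : ℤ) + m := by
    unfold g1; rw [Fintype.card_fin]; omega
  have hlm : (l : ℤ) = m ∨ (l : ℤ) = m + 1 := by omega
  have hgal := hS.gal (by rw [g1e]; positivity)
  have hle : g2 G ≤ (l : ℤ) * m := by
    rw [g1e] at hgal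
    rcases hlm with h | h
    · rw [h] at hgal ⊢; linarith only [hgal]
    · rw [h] at hgal ⊢
      have : 4 * g2 G < 4 * (((m : ℤ) + 1) * m + 1) := by linarith only [hgal]
      omega
  obtain ⟨p2, p3, p4, p5⟩ := poly_coeff (l + 4) (m + 4)
  rw [hl, hm'] at hP
  rw [← hP] at p2 p3 p4 p5
  obtain ⟨c3, c4, c5, -, -⟩ := hS.c0
  have c2 : cc G univ 2 = 40 + 7 * g1 G + g2 G := by unfold g2; ring
  have hcard : ((Δ.filter (fun σ => σ.card = i + 1)).card : ℤ) = cc G univ (i + 1) := by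
    rw [hΔ]; rfl
  have key : ∃ r : ℤ, 0 < r ∧ ((Δ.filter (fun σ => σ.card = i + 1)).card : ℤ) =
      (P.coeff (i + 1) : ℤ) - r * ((l : ℤ) * m - g2 G) := by
    rw [hcard]
    rw [mem_Icc] at hi
    obtain ⟨hi1, hi2⟩ := hi
    interval_cases i
    · exact ⟨1, by norm_num, by rw [c2, p2, g1e]; push_cast; ring⟩
    · exact ⟨4, by norm_num, by rw [c3, p3, g1e]; push_cast; ring⟩
    · exact ⟨5, by norm_num, by rw [c4, p4, g1e]; push_cast; ring⟩
    · exact ⟨2, by norm_num, by rw [c5, p5, g1e]; push_cast; ring⟩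
  obtain ⟨r, hr, hkey⟩ := key
  constructor
  · have : 0 ≤ r * ((l : ℤ) * m - g2 G) := mul_nonneg hr.le (by linarith only [hle])
    omega
  intro heq
  have hg2 : g2 G = (l : ℤ) * m := by
    have : r * ((l : ℤ) * m - g2 G) = 0 := by omega
    rcases mul_eq_zero.1 this with h | h
    · omega
    · linarith only [h, hle]
  obtain ⟨e, t, ce, he, ct, ht, hcompl, hadj, hsz⟩ :=
    hS.joined (by positivity) hlm g1e hg2
  have f0 : ∀ v, (if v ∈ nb G e then 0 else 1 : ℕ) = 0 ↔ v ∈ nb G e := by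
    intro v; split_ifs with h <;> simp [h]
  have f1 : ∀ v, (if v ∈ nb G e then 0 else 1 : ℕ) = 1 ↔ v ∈ nb G t := by
    intro v
    have := hcompl v
    split_ifs with h
    · simp [this.1 h]
    · simp only [true_iff]
      by_contra h'
      exact h (this.2 h')
  refine ⟨fun v => if v ∈ nb G e then 0 else 1, ?_, ?_, ?_, ?_⟩
  · intro v; dsimp only; split_ifs <;> norm_num
  · intro σ hσ
    have a0 := (hm _).1 (hσ 0 (by norm_num))
    have a1 := (hm _).1 (hσ 1 (by norm_num))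
    rw [hm]
    intro u hu v hv huv
    by_cases b1 : u ∈ nb G e <;> by_cases b2 : v ∈ nb G e
    · exact a0 u (mem_filter.2 ⟨hu, (f0 u).2 b1⟩) v (mem_filter.2 ⟨hv, (f0 v).2 b2⟩) huv
    · exact hadj u b1 v ((f1 v).1 (if_neg b2))
    · exact (hadj v b2 u ((f1 u).1 (if_neg b1))).symm
    · exact a1 u (mem_filter.2 ⟨hu, if_neg b1⟩) v (mem_filter.2 ⟨hv, if_neg b2⟩) huv
  · intro j hj
    interval_cases j
    · have : Δ.filter (fun σ => ∀ v ∈ σ, (if v ∈ nb G e then 0 else 1 : ℕ) = 0) =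
          cl G (nb G e) := by
        ext σ
        simp only [mem_filter, f0, mem_cl, hm, subset_iff, and_comm]
      rw [this]
      exact hsub e ce _ (by simp [he])
    · have : Δ.filter (fun σ => ∀ v ∈ σ, (if v ∈ nb G e then 0 else 1 : ℕ) = 1) =
          cl G (nb G t) := by
        ext σ
        simp only [mem_filter, f1, mem_cl, hm, subset_iff, and_comm]
      rw [this]
      exact hsub t ct _ (by simp [ht])
  · intro j hj
    unfold NN at hsz
    interval_cases j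
    · have : univ.filter (fun v => (if v ∈ nb G e then 0 else 1 : ℕ) = 0) = nb G e := by
        ext v; simp only [mem_filter, f0, mem_univ, true_and]
      rw [this]
      simp only [if_true]
      omega
    · have : univ.filter (fun v => (if v ∈ nb G e then 0 else 1 : ℕ) = 1) = nb G t := by
        ext v; simp only [mem_filter, f1, mem_univ, true_and]
      rw [this]
      simp only [one_ne_zero, if_false]
      omega

end Pool.Agent.Work.MP_001c0f_co
end
end
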