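import Mathlib
import Pool.Agent.Work.MP_001c0f_co.Main

-- merged part: Pool.Agent.Work.MP_001c0f_co.LEnd
section
-- merged part: Pool.Agent.Work.MP_001c0f_co.LEs
section
set_option autoImplicit false
set_option linter.unusedSectionVars false

open Finset

namespace Pool.Agent.Work.MP_001c0f_co

variable {ι : Type} [DecidableEq ι]

lemma pert (a b : ι → ℝ) {lo hi : ℝ} (hlo : 0 ≤ lo) (J : Finset ι)
    (h : ∀ j ∈ J, lo ≤ a j ∧ a j ≤ b j ∧ b j ≤ hi) :
    lo ^ (J.card - 1) * ∑ j ∈ J, (b j - a j) ≤ ∏ j ∈ J, b j - ∏ j ∈ J, a j ∧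
      ∏ j ∈ J, b j - ∏ j ∈ J, a j ≤ hi ^ (J.card - 1) * ∑ j ∈ J, (b j - a j) := by
  induction J using Finset.induction_on with
  | empty => simp
  | insert i J hi' ih =>
    have hJ : ∀ j ∈ J, lo ≤ a j ∧ a j ≤ b j ∧ b j ≤ hi := fun j hj => h j (mem_insert_of_mem hj)
    obtain ⟨h1, h2, h3⟩ := h i (mem_insert_self _ _)
    obtain ⟨i1, i2⟩ := ih hJ
    have p1 : lo ^ J.card ≤ ∏ j ∈ J, a j := by
      rw [← prod_const]
      exact prod_le_prod (fun _ _ => hlo) (fun j hj => (hJ j hj).1)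
    have p2 : ∏ j ∈ J, a j ≤ hi ^ J.card := by
      rw [← prod_const]
      exact prod_le_prod (fun j hj => hlo.trans (hJ j hj).1)
        (fun j hj => (hJ j hj).2.1.trans (hJ j hj).2.2)
    have s0 : 0 ≤ ∑ j ∈ J, (b j - a j) := sum_nonneg (fun j hj => sub_nonneg.2 (hJ j hj).2.1)
    rw [prod_insert hi', prod_insert hi', sum_insert hi', card_insert_of_notMem hi',
      Nat.add_sub_cancel]
    have e : b i * ∏ j ∈ J, b j - a i * ∏ j ∈ J, a j =
        b i * (∏ j ∈ J, b j - ∏ j ∈ J, a j) + (b i - a i) * ∏ j ∈ J, a j := by ring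
    rw [e]
    have d0 : 0 ≤ b i - a i := sub_nonneg.2 h2
    have hhi : 0 ≤ hi := by linarith only [hlo, h1, h2, h3]
    rcases J.eq_empty_or_nonempty with rfl | hne
    · simp
    · obtain ⟨k, hk⟩ : ∃ k, J.card = k + 1 := ⟨J.card - 1, by have := hne.card_pos; omega⟩
      rw [hk, Nat.add_sub_cancel] at i1 i2
      rw [hk] at p1 p2 ⊢
      have q0 : 0 ≤ lo ^ k * ∑ j ∈ J, (b j - a j) := by positivity
      constructor
      · have t1 : lo * (lo ^ k * ∑ j ∈ J, (b j - a j)) ≤ b i * (∏ j ∈ J, b j - ∏ j ∈ J, a j) :=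
          mul_le_mul (h1.trans h2) i1 q0 (by linarith only [hlo, h1, h2])
        have t2 := mul_le_mul_of_nonneg_left p1 d0
        rw [pow_succ] at t2 ⊢
        linarith only [t1, t2]
      · have t1 : b i * (∏ j ∈ J, b j - ∏ j ∈ J, a j) ≤ hi * (hi ^ k * ∑ j ∈ J, (b j - a j)) :=
          mul_le_mul h3 i2 (q0.trans i1) hhi
        have t2 := mul_le_mul_of_nonneg_left p2 d0
        rw [pow_succ] at t2 ⊢
        linarith only [t1, t2]

lemma pow_sub_pow_le {u v : ℝ} (hu : 0 ≤ u) (huv : u ≤ v) (hv : v ≤ 1) (k : ℕ) :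
    v ^ k - u ^ k ≤ k * (v - u) := by
  have := (pert (fun _ : ℕ => u) (fun _ => v) (lo := 0) (hi := 1) le_rfl (range k)
    (fun _ _ => ⟨hu, huv, hv⟩)).2
  simp only [prod_const, card_range, one_pow, one_mul, sum_const, nsmul_eq_mul] at this
  exact this

/-- elementary symmetric function -/
noncomputable def es (T : Finset ι) (k : ℕ) (a : ι → ℝ) : ℝ :=
  ∑ J ∈ powersetCard k T, ∏ j ∈ J, a j

lemma es_le {T : Finset ι} {k : ℕ} {a : ι → ℝ} {hi : ℝ} (h : ∀ j ∈ T, 0 ≤ a j ∧ a j ≤ hi) :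
    es T k a ≤ (T.card.choose k : ℝ) * hi ^ k := by
  rw [es, ← card_powersetCard, ← nsmul_eq_mul]
  apply sum_le_card_nsmul
  intro J hJ
  rw [mem_powersetCard] at hJ
  rw [← hJ.2, ← prod_const]
  exact prod_le_prod (fun j hj => (h j (hJ.1 hj)).1) (fun j hj => (h j (hJ.1 hj)).2)

lemma le_es {T : Finset ι} {k : ℕ} {a : ι → ℝ} {lo : ℝ} (h0 : 0 ≤ lo) (h : ∀ j ∈ T, lo ≤ a j) :
    (T.card.choose k : ℝ) * lo ^ k ≤ es T k a := by
  rw [es, ← card_powersetCard, ← nsmul_eq_mul]
  apply card_nsmul_le_sum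
  intro J hJ
  rw [mem_powersetCard] at hJ
  rw [← hJ.2, ← prod_const]
  exact prod_le_prod (fun _ _ => h0) (fun j hj => h j (hJ.1 hj))

lemma es_mul (T : Finset ι) (k : ℕ) (a : ι → ℝ) (t : ℝ) :
    es T k (fun j => a j / t) = es T k a / t ^ k := by
  rw [es, es, sum_div]
  apply sum_congr rfl
  intro J hJ
  rw [prod_div_distrib, prod_const, (mem_powersetCard.1 hJ).2]

lemma sum_sum_powersetCard (T : Finset ι) (k : ℕ) (h : ι → ℝ) :
    ∑ J ∈ powersetCard (k + 1) T, ∑ j ∈ J, h j = ((T.card - 1).choose k : ℝ) * ∑ j ∈ T, h j := by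
  rw [sum_comm' (t' := T) (s' := fun j => (powersetCard (k + 1) T).filter (fun J => {j} ⊆ J))]
  · rw [mul_sum]
    apply sum_congr rfl
    intro j hj
    rw [sum_const, card_filter_powersetCard_subset _ _ _ (singleton_subset_iff.2 hj) (by simp)]
    simp
  · intro J j
    simp only [mem_powersetCard, mem_filter, singleton_subset_iff]
    constructor
    · rintro ⟨h1, h2⟩; exact ⟨⟨h1, h2⟩, h1.1 h2⟩
    · rintro ⟨⟨h1, h2⟩, _⟩; exact ⟨h1, h2⟩

lemma es_lin (T : Finset ι) (k : ℕ) (a b : ι → ℝ) {lo hi : ℝ} (hlo : 0 ≤ lo)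
    (h : ∀ j ∈ T, lo ≤ a j ∧ a j ≤ b j ∧ b j ≤ hi) :
    ((T.card - 1).choose k : ℝ) * lo ^ k * ∑ j ∈ T, (b j - a j) ≤
        es T (k + 1) b - es T (k + 1) a ∧
      es T (k + 1) b - es T (k + 1) a ≤
        ((T.card - 1).choose k : ℝ) * hi ^ k * ∑ j ∈ T, (b j - a j) := by
  rw [es, es, ← sum_sub_distrib, mul_right_comm, mul_right_comm _ (hi ^ k),
    ← sum_sum_powersetCard, sum_mul, sum_mul]
  constructor
  · apply sum_le_sum
    intro J hJ
    rw [mem_powersetCard] at hJ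
    have := (pert a b hlo J (fun j hj => h j (hJ.1 hj))).1
    rw [hJ.2, Nat.add_sub_cancel] at this
    linarith only [this]
  · apply sum_le_sum
    intro J hJ
    rw [mem_powersetCard] at hJ
    have := (pert a b hlo J (fun j hj => h j (hJ.1 hj))).2
    rw [hJ.2, Nat.add_sub_cancel] at this
    linarith

lemma psi_le [Fintype ι] {m k : ℕ} (hm : Fintype.card ι = m + 2) (hk : k ≤ m) (a : ι → ℝ)
    {ν : ℝ} (h : ∀ j, 0 ≤ a j ∧ a j ≤ ν) {l l' : ι} (hl : l ≠ l') :
    ν ^ (m + 1 - k) * es univ (k + 1) a - ((m + 1).choose k : ℝ) * ∏ j, a j +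
      (ν - a l) * (ν - a l') * ν ^ m ≤ ((m + 1).choose (k + 1) : ℝ) * ν ^ (m + 2) := by
  set w : Finset ι → ℝ := fun A => (∏ j ∈ A, a j) * ∏ j ∈ Aᶜ, (ν - a j) with hw
  have w0 : ∀ A, 0 ≤ w A := fun A =>
    mul_nonneg (prod_nonneg fun j _ => (h j).1) (prod_nonneg fun j _ => sub_nonneg.2 (h j).2)
  have e0 : ν ^ (m + 2) = ∑ A, w A := by
    rw [← Fintype.prod_add]; simp [hm]
  have e1 : ∀ J : Finset ι, J.card = k + 1 →
      ν ^ (m + 1 - k) * ∏ j ∈ J, a j = ∑ A, if J ⊆ A then w A else 0 := by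
    intro J hJ
    have := Fintype.prod_add a (fun j => if j ∈ J then 0 else ν - a j)
    have e : ∏ j, (a j + if j ∈ J then 0 else ν - a j) = ν ^ (m + 1 - k) * ∏ j ∈ J, a j := by
      rw [← prod_mul_prod_compl J, mul_comm]
      congr 1
      · rw [prod_congr rfl (g := fun _ => ν)]
        · rw [prod_const, card_compl, hm, hJ]; congr 1; omega
        · intro j hj; rw [if_neg (mem_compl.1 hj)]; ring
      · apply prod_congr rfl
        intro j hj; rw [if_pos hj, add_zero]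
    rw [← e, this]
    apply sum_congr rfl
    intro A _
    split_ifs with hA
    · rw [hw]
      congr 1
      apply prod_congr rfl
      intro j hj
      rw [if_neg (fun h' => mem_compl.1 hj (hA h'))]
    · obtain ⟨j, hj, hj'⟩ := not_subset.1 hA
      rw [prod_eq_zero (f := fun j => if j ∈ J then 0 else ν - a j) (mem_compl.2 hj')
        (if_pos hj), mul_zero]
  have e2 : (ν - a l) * (ν - a l') * ν ^ m = ∑ A, if l ∉ A ∧ l' ∉ A then w A else 0 := by
    have := Fintype.prod_add (fun j => if j ∈ ({l, l'} : Finset ι) then 0 else a j)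
      (fun j => ν - a j)
    have e : ∏ j, ((if j ∈ ({l, l'} : Finset ι) then 0 else a j) + (ν - a j)) =
        (ν - a l) * (ν - a l') * ν ^ m := by
      rw [← prod_mul_prod_compl {l, l'}]
      congr 1
      · rw [prod_pair hl]; simp
      · rw [prod_congr rfl (g := fun _ => ν)]
        · rw [prod_const, card_compl, hm, card_pair hl]; rfl
        · intro j hj; rw [if_neg (mem_compl.1 hj)]; ring
    rw [← e, this]
    apply sum_congr rfl
    intro A _
    split_ifs with hA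
    · rw [hw]
      congr 1
      apply prod_congr rfl
      intro j hj
      rw [if_neg]
      simp only [mem_insert, mem_singleton]
      rintro (rfl | rfl)
      · exact hA.1 hj
      · exact hA.2 hj
    · have : ∃ j ∈ A, j ∈ ({l, l'} : Finset ι) := by
        by_cases h1 : l ∈ A
        · exact ⟨l, h1, by simp⟩
        · exact ⟨l', by tauto, by simp⟩
      obtain ⟨j, hj, hj'⟩ := this
      rw [prod_eq_zero (f := fun j => if j ∈ ({l, l'} : Finset ι) then 0 else a j) hj
        (if_pos hj'), zero_mul]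
  have e3 : ∏ j, a j = ∑ A, if A = univ then w A else 0 := by
    rw [sum_ite_eq']; simp [hw]
  have e4 : ν ^ (m + 1 - k) * es univ (k + 1) a = ∑ A, (A.card.choose (k + 1) : ℝ) * w A := by
    rw [es, mul_sum, sum_congr rfl (fun J hJ => e1 J (mem_powersetCard.1 hJ).2), sum_comm]
    apply sum_congr rfl
    intro A _
    rw [← sum_filter, sum_const, nsmul_eq_mul, ← card_powersetCard]
    congr 3
    ext J
    simp only [mem_filter, mem_powersetCard, subset_univ, true_and, and_comm]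
  rw [e4, e3, e2, e0, mul_sum, mul_sum, ← sum_sub_distrib, ← sum_add_distrib]
  apply sum_le_sum
  intro A _
  have hA := w0 A
  by_cases h1 : A = univ
  · subst h1
    rw [if_pos rfl, if_neg (by simp), card_univ, hm, Nat.choose_succ_succ']
    push_cast
    linarith only []
  · rw [if_neg h1, mul_zero, sub_zero]
    split_ifs with h2
    · have h3 : A.card ≤ m := by
        have : A ⊆ ({l, l'} : Finset ι)ᶜ := by
          intro j hj
          simp only [mem_compl, mem_insert, mem_singleton]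
          rintro (rfl | rfl)
          · exact h2.1 hj
          · exact h2.2 hj
        have := card_le_card this
        rw [card_compl, hm, card_pair hl] at this
        omega
      have h4 : A.card.choose (k + 1) + 1 ≤ (m + 1).choose (k + 1) := by
        rw [Nat.choose_succ_succ']
        have := Nat.choose_le_choose (k + 1) h3
        have := Nat.choose_pos hk
        omega
      have h5 : (A.card.choose (k + 1) : ℝ) + 1 ≤ (m + 1).choose (k + 1) := by exact_mod_cast h4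
      linarith only [hA, h5, mul_nonneg_of_nonpos_of_nonpos (Mathlib.Tactic.Linarith.sub_nonpos_of_le hA) (Mathlib.Tactic.Linarith.sub_nonpos_of_le h5)]
    · have h3 : A.card ≤ m + 1 := by
        have := card_lt_card (ssubset_univ_iff.2 h1)
        rw [card_univ, hm] at this
        omega
      have h5 : (A.card.choose (k + 1) : ℝ) ≤ (m + 1).choose (k + 1) := by
        exact_mod_cast Nat.choose_le_choose (k + 1) h3
      linarith only [hA, h5, mul_nonneg_of_nonpos_of_nonpos (Mathlib.Tactic.Linarith.sub_nonpos_of_le hA) (Mathlib.Tactic.Linarith.sub_nonpos_of_le h5)]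

end Pool.Agent.Work.MP_001c0f_co
end

-- merged part: Pool.Agent.Work.MP_001c0f_co.LPoly
section
set_option autoImplicit false

open Finset Polynomial

namespace Pool.Agent.Work.MP_001c0f_co

/-- `(1 + 2 X) (X + 1) ^ r` -/
noncomputable def Dp (r : ℕ) : ℝ[X] := (1 + C 2 * X) * (X + 1) ^ r

/-- `(1 + 2 X) (X + X ^ 2) ^ r` -/
noncomputable def Bp (r : ℕ) : ℝ[X] := X ^ r * Dp r

lemma Bp_eq (r : ℕ) : Bp r = (1 + C 2 * X) * (X + X ^ 2) ^ r := by
  have : (X + X ^ 2 : ℝ[X]) = X * (X + 1) := by ring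
  rw [Bp, Dp, this, mul_pow]; ring

lemma Dp_zero (r : ℕ) : (Dp r).coeff 0 = 1 := by
  simp [Dp, coeff_X_add_one_pow]

lemma Dp_succ (r j : ℕ) : (Dp r).coeff (j + 1) = (r.choose (j + 1) : ℝ) + 2 * r.choose j := by
  rw [Dp, add_mul, one_mul, mul_assoc, coeff_add, coeff_C_mul, coeff_X_mul,
    coeff_X_add_one_pow, coeff_X_add_one_pow]

lemma Bp_lt {r k : ℕ} (h : k < r) : (Bp r).coeff k = 0 := by
  rw [Bp, coeff_X_pow_mul', if_neg (by omega)]

lemma Bp_add (r j : ℕ) : (Bp r).coeff (r + j) = (Dp r).coeff j := by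
  rw [Bp, add_comm, coeff_X_pow_mul]

lemma Bp_self (r : ℕ) : (Bp r).coeff r = 1 := by
  have := Bp_add r 0
  rwa [add_zero, Dp_zero] at this

lemma Bp_succ (r : ℕ) : (Bp r).coeff (r + 1) = r + 2 := by
  rw [Bp_add, Dp_succ]; simp

lemma Bp_nonneg (r k : ℕ) : 0 ≤ (Bp r).coeff k := by
  rcases lt_or_ge k r with h | h
  · rw [Bp_lt h]
  · obtain ⟨j, rfl⟩ := Nat.exists_eq_add_of_le h
    rw [Bp_add]
    rcases j with _ | j
    · rw [Dp_zero]; norm_num
    · rw [Dp_succ]; positivity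

lemma Bp_le (r k : ℕ) : (Bp r).coeff k ≤ 3 * 2 ^ r := by
  have h1 : ∀ j, (r.choose j : ℝ) ≤ 2 ^ r := fun j => by
    exact_mod_cast Nat.choose_le_two_pow r j
  have h2 : (1 : ℝ) ≤ 2 ^ r := one_le_pow₀ (by norm_num)
  rcases lt_or_ge k r with h | h
  · rw [Bp_lt h]; positivity
  · obtain ⟨j, rfl⟩ := Nat.exists_eq_add_of_le h
    rw [Bp_add]
    rcases j with _ | j
    · rw [Dp_zero]; linarith only [h2]
    · rw [Dp_succ]; linarith only [h1, h1 j, h1 (j + 1)]

lemma Bp_pos {r k : ℕ} (h1 : r ≤ k) (h2 : k ≤ 2 * r + 1) : 0 < (Bp r).coeff k := by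
  obtain ⟨j, rfl⟩ := Nat.exists_eq_add_of_le h1
  rw [Bp_add]
  rcases j with _ | j
  · rw [Dp_zero]; norm_num
  · rw [Dp_succ]
    have : (0 : ℝ) < r.choose j := by exact_mod_cast Nat.choose_pos (by omega)
    positivity

/-- odd symmetry under `X ↦ -1 - X` and degree at most `2 r + 1` -/
def Wp (r : ℕ) (P : ℝ[X]) : Prop := P.natDegree ≤ 2 * r + 1 ∧ P.comp (-1 - X) = -P

lemma Wp.mono {r r' : ℕ} {P : ℝ[X]} (h : Wp r P) (hr : r ≤ r') : Wp r' P :=
  ⟨h.1.trans (by omega), h.2⟩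

lemma Wp.sub {r : ℕ} {P R : ℝ[X]} (h : Wp r P) (h' : Wp r R) : Wp r (P - R) :=
  ⟨(natDegree_sub_le _ _).trans (max_le h.1 h'.1), by rw [sub_comp, h.2, h'.2]; ring⟩

lemma Wp.add {r : ℕ} {P R : ℝ[X]} (h : Wp r P) (h' : Wp r R) : Wp r (P + R) :=
  ⟨(natDegree_add_le _ _).trans (max_le h.1 h'.1), by rw [add_comp, h.2, h'.2]; ring⟩

lemma Wp_zero (r : ℕ) : Wp r 0 := ⟨by simp, by simp⟩

lemma Wp.sum {ι : Type} {r : ℕ} (s : Finset ι) (f : ι → ℝ[X]) (h : ∀ i ∈ s, Wp r (f i)) :
    Wp r (∑ i ∈ s, f i) :=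
  sum_induction f (Wp r) (fun _ _ => Wp.add) (Wp_zero r) h

lemma Wp_Bp (a : ℝ) (r : ℕ) : Wp r (C a * Bp r) := by
  constructor
  · refine (natDegree_C_mul_le _ _).trans ?_
    rw [Bp_eq]
    refine natDegree_mul_le.trans ?_
    have h1 : (1 + C 2 * X : ℝ[X]).natDegree ≤ 1 := by compute_degree
    have h2 : ((X + X ^ 2 : ℝ[X]) ^ r).natDegree ≤ r * 2 :=
      natDegree_pow_le.trans (Nat.mul_le_mul_left _ (by compute_degree))
    omega
  · rw [Bp_eq]
    simp only [mul_comp, C_comp, add_comp, one_comp, X_comp, pow_comp]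
    have : ((-1 - X) + (-1 - X) ^ 2 : ℝ[X]) = X + X ^ 2 := by ring
    rw [this]
    have h2 : (C 2 : ℝ[X]) = 2 := rfl
    rw [h2]; ring

lemma Wp.eq_zero {r : ℕ} {P : ℝ[X]} (h : Wp r P) (hd : X ^ (r + 1) ∣ P) : P = 0 := by
  have h1 : (X + 1) ^ (r + 1) ∣ P := by
    obtain ⟨R, hR⟩ := hd
    have h2 := h.2
    rw [hR, mul_comp, pow_comp, X_comp, ← hR] at h2
    have h3 : (-1 - X : ℝ[X]) = -1 * (X + 1) := by ring
    rw [h3, mul_pow] at h2
    rw [← dvd_neg, ← h2]
    exact Dvd.dvd.mul_right (Dvd.intro_left _ rfl) _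
  have hc : IsCoprime (X : ℝ[X]) (X + 1) := ⟨-1, 1, by ring⟩
  have h4 := (hc.pow (m := r + 1) (n := r + 1)).mul_dvd hd h1
  refine eq_zero_of_dvd_of_natDegree_lt h4 ?_
  have hm : (X + 1 : ℝ[X]).Monic := by simpa using monic_X_add_C (1 : ℝ)
  have hn : (X + 1 : ℝ[X]).natDegree = 1 := by simpa using natDegree_X_add_C (1 : ℝ)
  rw [(monic_X_pow _).natDegree_mul (hm.pow _), natDegree_X_pow, hm.natDegree_pow, hn]
  have := h.1
  omega

lemma dvd_step {r : ℕ} {P : ℝ[X]} (hd : X ^ r ∣ P) :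
    X ^ (r + 1) ∣ P - C (P.coeff r) * Bp r := by
  rw [X_pow_dvd_iff] at hd ⊢
  intro d hdr
  rw [coeff_sub, coeff_C_mul]
  rcases Nat.lt_succ_iff_lt_or_eq.1 hdr with h | rfl
  · rw [hd d h, Bp_lt h]; simp
  · rw [Bp_self]; simp

lemma Wp.eq_Bp {r : ℕ} {P : ℝ[X]} (h : Wp r P) (hd : X ^ r ∣ P) : P = C (P.coeff r) * Bp r :=
  sub_eq_zero.1 ((h.sub (Wp_Bp _ r)).eq_zero (dvd_step hd))

lemma Wp.decomp {m : ℕ} {P : ℝ[X]} (h : Wp m P) :
    ∃ g : ℕ → ℝ, P = ∑ s ∈ range (m + 1), C (g s) * Bp s := by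
  have key : ∀ r, ∃ g : ℕ → ℝ, X ^ r ∣ P - ∑ s ∈ range r, C (g s) * Bp s := by
    intro r
    induction r with
    | zero => exact ⟨fun _ => 0, by simp⟩
    | succ r ih =>
      obtain ⟨g, hg⟩ := ih
      refine ⟨Function.update g r ((P - ∑ s ∈ range r, C (g s) * Bp s).coeff r), ?_⟩
      rw [sum_range_succ, Function.update_self, ← sub_sub]
      have : ∑ s ∈ range r, C (Function.update g r
          ((P - ∑ s ∈ range r, C (g s) * Bp s).coeff r) s) * Bp s =
          ∑ s ∈ range r, C (g s) * Bp s := by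
        apply sum_congr rfl
        intro s hs
        rw [Function.update_of_ne (mem_range.1 hs).ne]
      rw [this]
      exact dvd_step hg
  obtain ⟨g, hg⟩ := key (m + 1)
  refine ⟨g, sub_eq_zero.1 (Wp.eq_zero (h.sub (Wp.sum _ _ ?_)) hg)⟩
  intro s hs
  exact (Wp_Bp _ s).mono (by have := mem_range.1 hs; omega)

lemma coeff_sum_Bp (m : ℕ) (g : ℕ → ℝ) (k : ℕ) :
    (∑ s ∈ range (m + 1), C (g s) * Bp s).coeff k =
      ∑ s ∈ range (m + 1), g s * (Bp s).coeff k := by
  rw [finsetSum_coeff]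
  simp only [coeff_C_mul]

end Pool.Agent.Work.MP_001c0f_co
end

-- merged part: Pool.Agent.Work.MP_001c0f_co.LBal
section
set_option autoImplicit false
set_option linter.unusedSectionVars false

open Finset Polynomial

namespace Pool.Agent.Work.MP_001c0f_co

variable {ι : Type} [DecidableEq ι]

lemma prod_one_add_es (T : Finset ι) (a : ι → ℝ) (Y : ℝ[X]) :
    ∏ j ∈ T, (1 + C (a j) * Y) = ∑ s ∈ range (T.card + 1), C (es T s a) * Y ^ s := by
  rw [prod_one_add, sum_powerset]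
  apply sum_congr rfl
  intro s _
  rw [es, map_sum, sum_mul]
  apply sum_congr rfl
  intro J hJ
  rw [prod_mul_distrib, prod_const, (mem_powersetCard.1 hJ).2, map_prod]

lemma coeff_prod_es (T : Finset ι) (a : ι → ℝ) (s : ℕ) :
    (∏ j ∈ T, (1 + C (a j) * X) : ℝ[X]).coeff s = es T s a := by
  rw [prod_one_add_es, finsetSum_coeff]
  simp only [coeff_C_mul, coeff_X_pow, mul_ite, mul_one, mul_zero]
  rw [sum_ite_eq]
  split_ifs with h
  · rfl
  · rw [es, powersetCard_eq_empty.2 (by simpa using h), sum_empty]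

/-- a vector is balanced -/
def Bal (a : ι → ℕ) : Prop := ∀ i j, a i ≤ a j + 1

variable [Fintype ι]

lemma Bal.spec [Nonempty ι] {a : ι → ℕ} (h : Bal a) :
    (∀ j, a j = (∑ j, a j) / Fintype.card ι ∨ a j = (∑ j, a j) / Fintype.card ι + 1) ∧
      (univ.filter fun j => a j = (∑ j, a j) / Fintype.card ι + 1).card =
        (∑ j, a j) % Fintype.card ι := by
  obtain ⟨i, -, hi⟩ := exists_min_image univ a univ_nonempty
  have h1 : ∀ j, a j = a i ∨ a j = a i + 1 := fun j => by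
    have := hi j (mem_univ _); have := h j i; omega
  set t := (univ.filter fun j => a j = a i + 1).card with ht
  have h2 : t < Fintype.card ι := by
    rw [← card_univ]
    apply card_lt_card
    refine ⟨filter_subset _ _, fun hh => ?_⟩
    have := (mem_filter.1 (hh (mem_univ i))).2
    omega
  have h3 : ∑ j, a j = t + Fintype.card ι * a i := by
    have : ∀ j, a j = (if a j = a i + 1 then 1 else 0) + a i := fun j => by
      rcases h1 j with h | h <;> simp [h, add_comm]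
    rw [sum_congr rfl (fun j _ => this j), sum_add_distrib, ← card_filter, sum_const, card_univ,
      smul_eq_mul]
  have h4 := (Nat.div_mod_unique (a := ∑ j, a j) (d := a i) (c := t)
    (lt_of_le_of_lt (Nat.zero_le _) h2)).2 ⟨h3.symm, h2⟩
  rw [h4.1, h4.2]
  exact ⟨h1, rfl⟩

lemma Bal.prod [Nonempty ι] {a : ι → ℕ} (h : Bal a) {M : Type} [CommMonoid M] (f : ℕ → M) :
    ∏ j, f (a j) = f ((∑ j, a j) / Fintype.card ι + 1) ^ ((∑ j, a j) % Fintype.card ι) *
      f ((∑ j, a j) / Fintype.card ι) ^ (Fintype.card ι - (∑ j, a j) % Fintype.card ι) := by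
  obtain ⟨h1, h2⟩ := h.spec
  rw [← prod_filter_mul_prod_filter_not univ (fun j => a j = (∑ j, a j) / Fintype.card ι + 1)]
  congr 1
  · rw [← h2, ← prod_const]
    exact prod_congr rfl (fun j hj => by rw [(mem_filter.1 hj).2])
  · have h3 := card_filter_add_card_filter_not (s := univ)
      (fun j => a j = (∑ j, a j) / Fintype.card ι + 1)
    rw [h2, card_univ] at h3
    rw [prod_congr rfl (g := fun _ => f ((∑ j, a j) / Fintype.card ι)), prod_const]
    · congr 1; omega
    · intro j hj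
      rcases h1 j with h | h
      · rw [← h]
      · exact absurd h (mem_filter.1 hj).2

/-- elementary symmetric function of a balanced vector of length `m` and sum `N` -/
noncomputable def Eb (m N s : ℕ) : ℝ :=
  ((1 + C ((N / m + 1 : ℕ) : ℝ) * X) ^ (N % m) * (1 + C ((N / m : ℕ) : ℝ) * X) ^ (m - N % m) :
    ℝ[X]).coeff s

lemma Bal.es_eq [Nonempty ι] {a : ι → ℕ} (h : Bal a) (s : ℕ) :
    es univ s (fun j => (a j : ℝ)) = Eb (Fintype.card ι) (∑ j, a j) s := by
  rw [← coeff_prod_es, Eb, ← h.prod (fun k : ℕ => (1 + C (k : ℝ) * X : ℝ[X]))]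

lemma es_nonneg {T : Finset ι} {k : ℕ} {a : ι → ℝ} (h : ∀ j, 0 ≤ a j) : 0 ≤ es T k a :=
  sum_nonneg fun _ _ => prod_nonneg fun j _ => h j

theorem es_le_Eb [Nonempty ι] (s : ℕ) (a : ι → ℕ) :
    es univ s (fun j => (a j : ℝ)) ≤ Eb (Fintype.card ι) (∑ j, a j) s ∧
      ((∀ j, 1 ≤ a j) → 2 ≤ s → s ≤ Fintype.card ι →
        es univ s (fun j => (a j : ℝ)) = Eb (Fintype.card ι) (∑ j, a j) s → Bal a) := by
  induction hq : ∑ j, a j ^ 2 using Nat.strong_induction_on generalizing a with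
  | _ q ih =>
  by_cases hb : Bal a
  · exact ⟨(hb.es_eq s).le, fun _ _ _ _ => hb⟩
  obtain ⟨i, j, hij⟩ : ∃ i j, a j + 1 < a i := by
    unfold Bal at hb
    push Not at hb
    exact hb
  have hne : i ≠ j := by rintro rfl; omega
  set b : ι → ℕ := fun k => if k = i then a i - 1 else if k = j then a j + 1 else a k with hbdef
  have hbi : b i = a i - 1 := by simp [hbdef]
  have hbj : b j = a j + 1 := by simp [hbdef, hne.symm]
  set T := (univ.erase i).erase j with hT
  have hbT : ∀ k ∈ T, b k = a k := by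
    intro k hk
    rw [hT, mem_erase, mem_erase] at hk
    simp [hbdef, hk.1, hk.2.1]
  have hjm : j ∈ univ.erase i := mem_erase.2 ⟨hne.symm, mem_univ _⟩
  have split : ∀ {M : Type} [AddCommMonoid M] (f : ι → M), ∑ k, f k = f i + (f j + ∑ k ∈ T, f k) := by
    intro M _ f
    rw [← add_sum_erase _ _ (mem_univ i), ← add_sum_erase _ _ hjm]
  have splitp : ∀ (f : ι → ℝ[X]), ∏ k, f k = f i * (f j * ∏ k ∈ T, f k) := by
    intro f
    rw [← mul_prod_erase _ _ (mem_univ i), ← mul_prod_erase _ _ hjm]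
  have hsum : ∑ k, b k = ∑ k, a k := by
    have e : ∑ k ∈ T, b k = ∑ k ∈ T, a k := sum_congr rfl hbT
    rw [split b, split a, e, hbi, hbj]; omega
  have hsq : ∑ k, b k ^ 2 < q := by
    rw [← hq, split (fun k => b k ^ 2), split (fun k => a k ^ 2),
      sum_congr rfl (fun k hk => by rw [hbT k hk]), hbi, hbj]
    obtain ⟨d, hd⟩ : ∃ d, a i = a j + 2 + d := ⟨a i - (a j + 2), by omega⟩
    have : a i - 1 = a j + 1 + d := by omega
    rw [this, hd]
    nlinarith
  obtain ⟨h1, -⟩ := ih _ hsq b rfl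
  rw [hsum] at h1
  have hpoly : (∏ k, (1 + C (b k : ℝ) * X) : ℝ[X]) = ∏ k, (1 + C (a k : ℝ) * X) +
      C ((a i : ℝ) - a j - 1) * (X ^ 2 * ∏ k ∈ T, (1 + C (a k : ℝ) * X)) := by
    rw [splitp, splitp (fun k => 1 + C (a k : ℝ) * X),
      prod_congr rfl (fun k hk => by rw [hbT k hk]), hbi, hbj, Nat.cast_sub (by omega)]
    simp only [Nat.cast_add, Nat.cast_one, map_sub, map_add, map_one]
    ring
  have hc := congrArg (fun P => P.coeff s) hpoly
  simp only [coeff_add, coeff_C_mul, coeff_prod_es, coeff_X_pow_mul'] at hc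
  have hd : (1 : ℝ) ≤ (a i : ℝ) - a j - 1 := by
    have : ((a j + 2 : ℕ) : ℝ) ≤ a i := by exact_mod_cast hij
    push_cast at this
    linarith only [this]
  have h0 : 0 ≤ es T (s - 2) (fun k => (a k : ℝ)) := es_nonneg fun _ => Nat.cast_nonneg _
  constructor
  · refine le_trans ?_ h1
    rw [hc]
    split_ifs
    · linarith only [h0, hd, mul_nonneg_of_nonpos_of_nonpos (Mathlib.Tactic.Linarith.sub_nonpos_of_le hd) (Mathlib.Tactic.Linarith.sub_nonpos_of_le h0)]
    · simp
  · intro ha hs hsm he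
    exfalso
    rw [if_pos hs] at hc
    have hTc : T.card + 2 = Fintype.card ι := by
      have e1 := card_erase_add_one hjm
      have e2 := card_erase_add_one (mem_univ i)
      rw [card_univ] at e2
      rw [hT]
      omega
    have h2 := le_es (T := T) (k := s - 2) (a := fun k => (a k : ℝ)) (lo := 1) zero_le_one
      (fun k _ => by exact_mod_cast ha k)
    have h3 : (1 : ℝ) ≤ T.card.choose (s - 2) := by exact_mod_cast Nat.choose_pos (by omega)
    rw [one_pow] at h2
    linarith only [h1, hc, he, h2, h3, hd, h0, mul_nonneg_of_nonpos_of_nonpos (Mathlib.Tactic.Linarith.sub_nonpos_of_le hd) (Mathlib.Tactic.Linarith.sub_nonpos_of_le h0)]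

end Pool.Agent.Work.MP_001c0f_co
end

-- merged part: Pool.Agent.Work.MP_001c0f_co.LEul
section
set_option autoImplicit false
set_option linter.unusedSectionVars false

open Finset Polynomial

namespace Pool.Agent.Work.MP_001c0f_co

variable {V : Type} [Fintype V] [DecidableEq V] {G : SimpleGraph V}

lemma sum_cl_supset {M : Type} [AddCommMonoid M] {S ρ : Finset V} (hρ : ρ ∈ cl G S)
    (F : Finset V → M) :
    ∑ σ ∈ (cl G S).filter (fun σ => ρ ⊆ σ), F σ = ∑ π ∈ cl G (S ∩ nb G ρ), F (ρ ∪ π) := by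
  rw [mem_cl] at hρ
  symm
  refine sum_bij' (fun π _ => ρ ∪ π) (fun σ _ => σ \ ρ) ?_ ?_ ?_ ?_ ?_
  · intro π hπ
    rw [mem_cl] at hπ
    rw [mem_filter, mem_cl]
    exact ⟨⟨union_subset hρ.1 (hπ.1.trans inter_subset_left),
      hρ.2.union hπ.2 (hπ.1.trans inter_subset_right)⟩, subset_union_left⟩
  · intro σ hσ
    rw [mem_filter, mem_cl] at hσ
    rw [mem_cl]
    refine ⟨fun v hv => ?_, hσ.1.2.mono sdiff_subset⟩
    rw [mem_sdiff] at hv
    exact mem_inter.2 ⟨hσ.1.1 hv.1, mem_nb.2 fun u hu =>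
      hσ.1.2 u (hσ.2 hu) v hv.1 (fun h => hv.2 (h ▸ hu))⟩
  · intro π hπ
    rw [mem_cl] at hπ
    exact union_sdiff_cancel_left (disjoint_of_subset_nb (hπ.1.trans inter_subset_right))
  · intro σ hσ
    exact union_sdiff_of_subset (mem_filter.1 hσ).2
  · intro π _; rfl

lemma cc_eq_sum_ite (S : Finset V) (k : ℕ) :
    cc G S k = ∑ σ ∈ cl G S, if σ.card = k then 1 else 0 := by
  rw [cc, clj, card_filter]; push_cast; rfl

lemma cc_mono {A B : Finset V} (h : A ⊆ B) (k : ℕ) : cc G A k ≤ cc G B k := by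
  unfold cc
  exact_mod_cast card_le_card fun σ hσ =>
    mem_clj.2 ⟨(mem_clj.1 hσ).1.trans h, (mem_clj.1 hσ).2⟩

lemma cc_le_pow (A : Finset V) (k : ℕ) : cc G A k ≤ (Fintype.card V : ℤ) ^ k := by
  have h1 : (clj G A k).card ≤ (powersetCard k (univ : Finset V)).card :=
    card_le_card fun σ hσ => mem_powersetCard.2 ⟨subset_univ _, (mem_clj.1 hσ).2.2⟩
  rw [card_powersetCard, card_univ] at h1
  have h2 := h1.trans (Nat.choose_le_pow _ _)
  unfold cc
  exact_mod_cast h2

lemma cc_vertex {A : Finset V} {w : V} (hw : w ∈ A) (k : ℕ) (p : Finset V → Prop)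
    [DecidablePred p] :
    ∑ σ ∈ cl G A, (if w ∈ σ ∧ σ.card = k + 1 ∧ p σ then (1 : ℤ) else 0) =
      ∑ τ ∈ cl G (A ∩ nb G {w}), if τ.card = k ∧ p (insert w τ) then 1 else 0 := by
  have := sum_cl_mem (G := G) hw (fun σ => if σ.card = k + 1 ∧ p σ then (1 : ℤ) else 0)
  rw [sum_filter] at this
  refine Eq.trans ?_ (this.trans ?_)
  · apply sum_congr rfl
    intro σ _
    by_cases h : w ∈ σ <;> simp [h]
  · apply sum_congr rfl
    intro τ hτ
    rw [card_insert_of_cl hτ]; simp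

lemma cc_sdiff (A W : Finset V) (k : ℕ) :
    cc G (A \ W) k = ∑ σ ∈ cl G A, if σ.card = k ∧ Disjoint σ W then 1 else 0 := by
  rw [cc, sum_boole]
  congr 2
  ext σ
  simp only [mem_clj, mem_filter, mem_cl, subset_sdiff]
  tauto

lemma cc_split_le {A W : Finset V} (hW : W ⊆ A) (k : ℕ) :
    cc G A (k + 1) ≤ cc G (A \ W) (k + 1) + ∑ w ∈ W, cc G (A ∩ nb G {w}) k := by
  have h1 : ∀ w ∈ W, cc G (A ∩ nb G {w}) k =
      ∑ σ ∈ cl G A, (if w ∈ σ ∧ σ.card = k + 1 ∧ True then (1 : ℤ) else 0) := by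
    intro w hw
    rw [cc_vertex (hW hw) k (fun _ => True), cc_eq_sum_ite]; simp
  rw [sum_congr rfl h1, sum_comm, cc_sdiff, cc_eq_sum_ite, ← sum_add_distrib]
  apply sum_le_sum
  intro σ _
  have h0 : (0 : ℤ) ≤ ∑ w ∈ W, (if w ∈ σ ∧ σ.card = k + 1 ∧ True then (1 : ℤ) else 0) :=
    sum_nonneg fun _ _ => by split_ifs <;> norm_num
  by_cases h2 : σ.card = k + 1
  · by_cases h3 : Disjoint σ W
    · rw [if_pos h2, if_pos ⟨h2, h3⟩]; linarith only [h0]
    · obtain ⟨w, hw1, hw2⟩ := not_disjoint_iff.1 h3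
      have := single_le_sum (f := fun w => if w ∈ σ ∧ σ.card = k + 1 ∧ True then (1 : ℤ) else 0)
        (fun _ _ => by split_ifs <;> norm_num) hw2
      rw [if_pos ⟨hw1, h2, trivial⟩] at this
      rw [if_pos h2, if_neg (fun h => h3 h.2)]; linarith only [this]
  · rw [if_neg h2, if_neg (fun h => h2 h.1)]; linarith

lemma cc_split_ge {A W : Finset V} (hW : W ⊆ A) (k : ℕ) :
    cc G (A \ W) (k + 1) + ∑ w ∈ W, cc G ((A \ W) ∩ nb G {w}) k ≤ cc G A (k + 1) := by
  have h1 : ∀ w ∈ W, cc G ((A \ W) ∩ nb G {w}) k =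
      ∑ σ ∈ cl G A, (if w ∈ σ ∧ σ.card = k + 1 ∧ Disjoint (σ.erase w) W then (1 : ℤ) else 0) := by
    intro w hw
    rw [cc_vertex (hW hw) k (fun σ => Disjoint (σ.erase w) W),
      show (A \ W) ∩ nb G {w} = (A ∩ nb G {w}) \ W by ext; simp; tauto, cc_sdiff]
    apply sum_congr rfl
    intro τ hτ
    rw [erase_insert]
    intro h
    exact G.irrefl (mem_nb1.1 (mem_inter.1 ((mem_cl.1 hτ).1 h)).2)
  rw [sum_congr rfl h1, sum_comm, cc_sdiff, cc_eq_sum_ite, ← sum_add_distrib]
  apply sum_le_sum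
  intro σ _
  by_cases h2 : σ.card = k + 1
  · rw [if_pos h2, sum_boole]
    by_cases h3 : Disjoint σ W
    · rw [if_pos ⟨h2, h3⟩, filter_false_of_mem]
      · simp
      · exact fun w hw h => disjoint_left.1 h3 h.1 hw
    · rw [if_neg (fun h => h3 h.2), zero_add]
      have : (W.filter fun w => w ∈ σ ∧ σ.card = k + 1 ∧ Disjoint (σ.erase w) W).card ≤ 1 := by
        rw [card_le_one]
        intro a ha b hb
        rw [mem_filter] at ha hb
        by_contra hab
        exact disjoint_left.1 ha.2.2.2 (mem_erase.2 ⟨Ne.symm hab, hb.2.1⟩) hb.1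
      exact_mod_cast this
  · rw [if_neg h2, if_neg (fun h => h2 h.1), sum_eq_zero (fun w _ => if_neg (fun h => h2 h.2.1))]
    simp

variable (G) in
/-- the clique polynomial -/
noncomputable def Fp (S : Finset V) : ℝ[X] := ∑ σ ∈ cl G S, X ^ σ.card

lemma Fp_coeff (S : Finset V) (k : ℕ) : (Fp G S).coeff k = cc G S k := by
  rw [Fp, finsetSum_coeff, cc_eq_sum_ite]
  push_cast
  apply sum_congr rfl
  intro σ _
  rw [coeff_X_pow]
  by_cases h : σ.card = k
  · simp [h]
  · rw [if_neg h, if_neg (Ne.symm h)]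

/-- Eulerian flag complexes with facets of size `d` -/
structure Eul (G : SimpleGraph V) (d : ℕ) : Prop where
  K : ∀ σ, Cq G σ → σ.card ≤ d
  N : ∀ τ, Cq G τ → nb G τ = ∅ → τ.card = d
  E : ∀ τ, Cq G τ → Q G (nb G τ) 1 = (-1) ^ (d - τ.card)

namespace Eul

variable {d : ℕ} (h : Eul G d)
include h

lemma K' {τ ρ : Finset V} (hτ : Cq G τ) (hρ : ρ ∈ cl G (nb G τ)) : τ.card + ρ.card ≤ d := by
  rw [mem_cl] at hρ
  rw [← card_union_of_subset_nb hρ.1]
  exact h.K _ (hτ.union hρ.2 hρ.1)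

lemma ds {τ : Finset V} (hτ : Cq G τ) :
    (Fp G (nb G τ)).comp (-1 - X) = (-1) ^ (d - τ.card) * Fp G (nb G τ) := by
  rw [Fp, Polynomial.sum_comp, mul_sum]
  have e1 : ∀ σ ∈ cl G (nb G τ), (X ^ σ.card : ℝ[X]).comp (-1 - X) =
      ∑ ρ ∈ σ.powerset, (-X) ^ ρ.card * (-1) ^ (σ.card - ρ.card) := by
    intro σ _
    rw [sum_pow_mul_eq_add_pow, pow_comp, X_comp]
    congr 1; ring
  rw [sum_congr rfl e1, sum_comm' (t' := cl G (nb G τ))
    (s' := fun ρ => (cl G (nb G τ)).filter (fun σ => ρ ⊆ σ))]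
  · apply sum_congr rfl
    intro ρ hρ
    rw [sum_cl_supset hρ, ← nb_union]
    have hk := h.K' hτ hρ
    rw [mem_cl] at hρ
    have e2 := h.E _ (hτ.union hρ.2 hρ.1)
    rw [card_union_of_subset_nb hρ.1] at e2
    have e3 : ∀ π ∈ cl G (nb G (τ ∪ ρ)), (-X : ℝ[X]) ^ ρ.card * (-1) ^ ((ρ ∪ π).card - ρ.card) =
        (-X) ^ ρ.card * C ((-1) ^ π.card) := by
      intro π hπ
      rw [card_union_of_subset_nb, Nat.add_sub_cancel_left]
      · simp
      · exact (mem_cl.1 hπ).1.trans (nb_union (G := G) τ ρ ▸ inter_subset_right)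
    rw [sum_congr rfl e3, ← mul_sum, ← map_sum]
    unfold Q at e2
    rw [e2, show d - τ.card = (d - (τ.card + ρ.card)) + ρ.card by omega, pow_add, neg_pow (X : ℝ[X])]
    simp only [map_pow, map_neg, map_one]
    ring
  · intro σ ρ
    simp only [mem_powerset, mem_filter, mem_cl]
    constructor
    · rintro ⟨h1, h2⟩; exact ⟨⟨h1, h2⟩, h2.trans h1.1, h1.2.mono h2⟩
    · rintro ⟨⟨h1, h2⟩, _⟩; exact ⟨h1, h2⟩

lemma wp {τ : Finset V} (hτ : Cq G τ) {r : ℕ} (hr : τ.card + (2 * r + 1) = d) :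
    Wp r (Fp G (nb G τ)) := by
  constructor
  · rw [Fp]
    apply natDegree_sum_le_of_forall_le
    intro σ hσ
    rw [natDegree_X_pow]
    have := h.K' hτ hσ
    omega
  · rw [h.ds hτ, show d - τ.card = 2 * r + 1 by omega, pow_succ, pow_mul]; simp

lemma nb_two {τ : Finset V} (hτ : Cq G τ) (hc : τ.card + 1 = d) : (nb G τ).card = 2 := by
  have h1 := (h.wp hτ (r := 0) hc).eq_Bp (by simp)
  have h2 := congrArg (fun P => P.coeff (0 + 1)) h1
  simp only [coeff_C_mul, Bp_succ, Fp_coeff, cc_zero, zero_add, cc_one] at h2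
  norm_num at h2
  exact_mod_cast h2

lemma link3 {τ : Finset V} (hτ : Cq G τ) (hc : τ.card + 3 = d) :
    cc G (nb G τ) 2 = 3 * ((nb G τ).card - 2) ∧ cc G (nb G τ) 3 = 2 * ((nb G τ).card - 2) := by
  obtain ⟨g, hg⟩ := (h.wp hτ (r := 1) hc).decomp
  have hk := fun k => (Fp_coeff (G := G) (nb G τ) k).symm.trans
    ((congrArg (fun P => P.coeff k) hg).trans (coeff_sum_Bp 1 g k))
  have a0 := hk 0
  have a1 := hk 1
  have a2 := hk 2
  have a3 := hk 3
  have b01 : (Bp 0).coeff 1 = 2 := by simpa using Bp_succ 0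
  have b02 : (Bp 0).coeff 2 = 0 := by simpa [Dp_succ] using Bp_add 0 2
  have b03 : (Bp 0).coeff 3 = 0 := by simpa [Dp_succ] using Bp_add 0 3
  have b12 : (Bp 1).coeff 2 = 3 := by have := Bp_succ 1; norm_num at this; exact this
  have b13 : (Bp 1).coeff 3 = 2 := by simpa [Dp_succ] using Bp_add 1 2
  simp only [sum_range_succ, range_zero, sum_empty, zero_add, Bp_self, b01, b02, b03, b12, b13,
    Bp_lt (show 0 < 1 by norm_num), cc_zero, cc_one] at a0 a1 a2 a3
  constructor
  · have : (cc G (nb G τ) 2 : ℝ) = 3 * ((nb G τ).card - 2) := by push_cast at a0 a1; linarith only [a2, a0, a1]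
    exact_mod_cast this
  · have : (cc G (nb G τ) 3 : ℝ) = 2 * ((nb G τ).card - 2) := by push_cast at a0 a1; linarith only [a3, a0, a1]
    exact_mod_cast this

lemma link2 {τ : Finset V} (hτ : Cq G τ) (hc : τ.card + 2 = d) : 4 ≤ cc G (nb G τ) 2 := by
  have h1 : ∀ u ∈ nb G τ, (nb G τ ∩ nb G {u}).card = 2 := fun u hu => by
    rw [← nb_insert]
    exact h.nb_two (hτ.insert hu) (by rw [card_insert_nb hu]; omega)
  have h2 := handshake_cc (G := G) (nb G τ) 1
  rw [sum_congr rfl (fun u hu => by rw [cc_one, h1 u hu]), sum_const] at h2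
  obtain ⟨u, hu⟩ : (nb G τ).Nonempty :=
    nonempty_iff_ne_empty.2 fun he => by have := h.N τ hτ he; omega
  obtain ⟨a, ha⟩ : (nb G τ ∩ nb G {u}).Nonempty := card_pos.1 (by rw [h1 u hu]; norm_num)
  have hd : Disjoint (nb G τ ∩ nb G {u}) (nb G τ ∩ nb G {a}) := by
    rw [disjoint_left]
    intro z hz hz'
    have ha' : a ∈ nb G (insert u τ) := by rwa [nb_insert]
    have hz2 : z ∈ nb G (insert a (insert u τ)) := by
      rw [nb_insert, nb_insert]
      exact mem_inter.2 ⟨hz, (mem_inter.1 hz').2⟩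
    have := h.K _ (((hτ.insert hu).insert ha').insert hz2)
    rw [card_insert_nb hz2, card_insert_nb ha', card_insert_nb hu] at this
    omega
  have h3 := card_le_card (union_subset (inter_subset_left (s₁ := nb G τ) (s₂ := nb G {u}))
    (inter_subset_left (s₁ := nb G τ) (s₂ := nb G {a})))
  rw [card_union_of_disjoint hd, h1 u hu, h1 a (mem_inter.1 ha).1] at h3
  have h4 : (4 : ℤ) ≤ (nb G τ).card := by exact_mod_cast h3
  simp only [nsmul_eq_mul] at h2
  push_cast at h2
  linarith only [h3, h2]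

lemma exists_facet : ∃ σ, Cq G σ ∧ σ.card = d := by
  obtain ⟨ρ, -, h1, h2⟩ := exists_max_clique (G := G) univ
  rw [univ_inter] at h2
  exact ⟨ρ, h1, h.N ρ h1 h2⟩

lemma cc_pos {r : ℕ} (hr : r ≤ d) : 0 < cc G univ r := by
  obtain ⟨σ, h1, h2⟩ := h.exists_facet
  obtain ⟨ρ, h3, h4⟩ := exists_subset_card_eq (h2 ▸ hr)
  unfold cc
  exact_mod_cast card_pos.2 ⟨ρ, mem_clj.2 ⟨subset_univ _, h1.mono h3, h4⟩⟩

end Eul

end Pool.Agent.Work.MP_001c0f_co
end

-- merged part: Pool.Agent.Work.MP_001c0f_co.LTrans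
section
set_option autoImplicit false
set_option linter.unusedSectionVars false

open Finset

namespace Pool.Agent.Work.MP_001c0f_co

variable {V : Type} [Fintype V] [DecidableEq V] {ι : Type} [Fintype ι] [DecidableEq ι]

/-- the part of `A` of colour `j` -/
def pt (c : V → ι) (A : Finset V) (j : ι) : Finset V := A.filter (fun v => c v = j)

/-- number of cliques in `A` that are transversals of the colour set `J` -/
noncomputable def kap (G : SimpleGraph V) (c : V → ι) (A : Finset V) (J : Finset ι) : ℤ :=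
  ∑ σ ∈ cl G A, if σ.card = J.card ∧ σ.image c = J then 1 else 0

open Classical in
/-- non-neighbours of other colours -/
noncomputable def mis (G : SimpleGraph V) (c : V → ι) (v : V) : Finset V :=
  univ.filter (fun u => c u ≠ c v ∧ ¬ G.Adj v u)

open Classical in
/-- neighbours of the same colour -/
noncomputable def ind (G : SimpleGraph V) (c : V → ι) (v : V) : Finset V :=
  univ.filter (fun u => c u = c v ∧ G.Adj v u)

variable {G : SimpleGraph V} {c : V → ι}

lemma mem_pt {A : Finset V} {j : ι} {v : V} : v ∈ pt c A j ↔ v ∈ A ∧ c v = j := mem_filter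

lemma mem_mis {u v : V} : u ∈ mis G c v ↔ c u ≠ c v ∧ ¬ G.Adj v u := by simp [mis]

lemma mem_ind {u v : V} : u ∈ ind G c v ↔ c u = c v ∧ G.Adj v u := by simp [ind]

lemma pt_mono {A B : Finset V} (h : A ⊆ B) (j : ι) : pt c A j ⊆ pt c B j :=
  filter_subset_filter _ h

lemma kap_nonneg (A : Finset V) (J : Finset ι) : 0 ≤ kap G c A J :=
  sum_nonneg fun _ _ => by split_ifs <;> norm_num

lemma kap_empty (A : Finset V) : kap G c A ∅ = 1 := by
  refine Eq.trans ?_ ((cc_eq_sum_ite (G := G) A 0).symm.trans (cc_zero A))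
  apply sum_congr rfl
  intro σ _
  simp [card_eq_zero]

lemma kap_rec (A : Finset V) {J : Finset ι} {i : ι} (hi : i ∈ J) :
    kap G c A J = ∑ v ∈ pt c A i, kap G c (A ∩ nb G {v}) (J.erase i) := by
  have hJ := card_erase_add_one hi
  have h1 : ∀ v ∈ pt c A i, kap G c (A ∩ nb G {v}) (J.erase i) =
      ∑ σ ∈ cl G A, (if v ∈ σ ∧ σ.card = (J.erase i).card + 1 ∧ σ.image c = J
        then (1 : ℤ) else 0) := by
    intro v hv
    rw [mem_pt] at hv
    rw [cc_vertex hv.1 _ (fun σ => σ.image c = J), kap]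
    apply sum_congr rfl
    intro τ _
    refine if_congr (and_congr_right fun hc => ?_) rfl rfl
    rw [image_insert, hv.2]
    constructor
    · intro h; rw [h, insert_erase hi]
    · intro h
      have h2 : i ∉ τ.image c := fun h3 => by
        rw [insert_eq_of_mem h3] at h
        have := card_image_le (s := τ) (f := c)
        rw [h] at this
        omega
      rw [← h, erase_insert h2]
  rw [sum_congr rfl h1, sum_comm, kap]
  apply sum_congr rfl
  intro σ hσ
  rw [hJ]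
  split_ifs with h
  · have hinj : Set.InjOn c σ := card_image_iff.1 (by rw [h.2, h.1])
    obtain ⟨v, hv, hvi⟩ := mem_image.1 (h.2 ▸ hi)
    rw [sum_eq_single_of_mem v (mem_pt.2 ⟨(mem_cl.1 hσ).1 hv, hvi⟩), if_pos ⟨hv, h⟩]
    intro u hu huv
    exact if_neg fun hh => huv (hinj hh.1 hv ((mem_pt.1 hu).2.trans hvi.symm))
  · exact (sum_eq_zero fun v _ => if_neg fun hh => h hh.2).symm

lemma kap_le (J : Finset ι) : ∀ A : Finset V,
    (kap G c A J : ℝ) ≤ ∏ j ∈ J, ((pt c A j).card : ℝ) := by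
  induction J using Finset.induction_on with
  | empty => intro A; simp [kap_empty]
  | insert i J hi ih =>
    intro A
    rw [kap_rec A (mem_insert_self i J), erase_insert hi, prod_insert hi, ← nsmul_eq_mul]
    push_cast
    apply sum_le_card_nsmul
    intro v _
    refine (ih _).trans (prod_le_prod (fun _ _ => Nat.cast_nonneg _) fun j _ => ?_)
    exact_mod_cast card_le_card (pt_mono inter_subset_left j)

lemma kap_pen (A : Finset V) {J : Finset ι} {i l : ι} (hi : i ∈ J) (hl : l ∈ J.erase i) :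
    (kap G c A J : ℝ) + (∑ v ∈ pt c A i, (((pt c A l).card : ℝ) - (pt c (A ∩ nb G {v}) l).card)) *
      ∏ j ∈ (J.erase i).erase l, ((pt c A j).card : ℝ) ≤ ∏ j ∈ J, ((pt c A j).card : ℝ) := by
  rw [kap_rec A hi, ← mul_prod_erase _ _ hi, ← mul_prod_erase _ _ hl, ← nsmul_eq_mul, sum_mul]
  push_cast
  rw [← sum_add_distrib]
  apply sum_le_card_nsmul
  intro v _
  have h1 := kap_le (G := G) (c := c) (J.erase i) (A ∩ nb G {v})
  rw [← mul_prod_erase _ _ hl] at h1
  have h2 : ∏ j ∈ (J.erase i).erase l, ((pt c (A ∩ nb G {v}) j).card : ℝ) ≤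
      ∏ j ∈ (J.erase i).erase l, ((pt c A j).card : ℝ) :=
    prod_le_prod (fun _ _ => Nat.cast_nonneg _) fun j _ => by
      exact_mod_cast card_le_card (pt_mono inter_subset_left j)
  have h3 := mul_le_mul_of_nonneg_left h2
    (Nat.cast_nonneg (α := ℝ) (pt c (A ∩ nb G {v}) l).card)
  linarith

lemma sum_card_pt (A : Finset V) (T : Finset ι) :
    ∑ j ∈ T, (pt c A j).card = (A.filter (fun v => c v ∈ T)).card := by
  rw [card_eq_sum_card_fiberwise (f := c) (s := A.filter (fun v => c v ∈ T)) (t := T)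
    (fun v hv => mem_coe.2 (mem_filter.1 (mem_coe.1 hv)).2)]
  apply sum_congr rfl
  intro j hj
  congr 1
  ext v
  simp only [mem_pt, mem_filter]
  exact ⟨fun h => ⟨⟨h.1, h.2 ▸ hj⟩, h.2⟩, fun h => ⟨h.1.1, h.2⟩⟩

lemma sum_loss_le (A : Finset V) (v : V) {T : Finset ι} (hT : c v ∉ T) :
    ∑ j ∈ T, (((pt c A j).card : ℝ) - (pt c (A ∩ nb G {v}) j).card) ≤ (mis G c v).card := by
  rw [sum_sub_distrib, ← Nat.cast_sum, ← Nat.cast_sum, sum_card_pt, sum_card_pt, sub_le_iff_le_add,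
    ← Nat.cast_add, Nat.cast_le]
  refine le_trans (card_le_card ?_) (card_union_le _ _)
  intro u hu
  rw [mem_filter] at hu
  rw [mem_union, mem_mis, mem_filter, mem_inter, mem_nb1]
  by_cases h : G.Adj v u
  · exact Or.inr ⟨⟨hu.1, h⟩, hu.2⟩
  · exact Or.inl ⟨fun e => hT (e ▸ hu.2), h⟩

variable (G c) in
/-- total number of missing ordered cross pairs -/
noncomputable def Mis : ℝ := ∑ v, ((mis G c v).card : ℝ)

variable (G c) in
/-- total number of adjacent ordered pairs inside parts -/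
noncomputable def Ind : ℝ := ∑ v, ((ind G c v).card : ℝ)

lemma Mis_nonneg : 0 ≤ Mis G c := sum_nonneg fun _ _ => Nat.cast_nonneg _

lemma Ind_nonneg : 0 ≤ Ind G c := sum_nonneg fun _ _ => Nat.cast_nonneg _

lemma kap_ge {n : ℝ} (hn : n = Fintype.card V) (hn0 : 0 < n) (J : Finset ι) : ∀ A : Finset V,
    ∏ j ∈ J, ((pt c A j).card / n : ℝ) - J.card * (Mis G c / n ^ 2) ≤
      kap G c A J / n ^ J.card := by
  induction J using Finset.induction_on with
  | empty => intro A; simp [kap_empty]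
  | insert i J hi ih =>
    intro A
    have hle : ∀ B : Finset V, (B.card : ℝ) ≤ n := fun B => by
      rw [hn]; exact_mod_cast card_le_univ B
    rw [kap_rec A (mem_insert_self i J), erase_insert hi, prod_insert hi,
      card_insert_of_notMem hi]
    push_cast
    have h1 : ∀ v ∈ pt c A i, ∏ j ∈ J, ((pt c A j).card / n : ℝ) - (mis G c v).card / n -
        J.card * (Mis G c / n ^ 2) ≤ kap G c (A ∩ nb G {v}) J / n ^ J.card := by
      intro v hv
      refine le_trans ?_ (ih _)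
      have h2 := (pert (fun j => ((pt c (A ∩ nb G {v}) j).card / n : ℝ))
        (fun j => ((pt c A j).card / n : ℝ)) (lo := 0) (hi := 1) le_rfl J (fun j _ =>
          ⟨by positivity, div_le_div_of_nonneg_right (by
            exact_mod_cast card_le_card (pt_mono inter_subset_left j)) hn0.le,
            (div_le_one hn0).2 (hle _)⟩)).2
      have h3 := div_le_div_of_nonneg_right
        (sum_loss_le (G := G) A v (T := J) ((mem_pt.1 hv).2 ▸ hi)) hn0.le
      rw [sum_div] at h3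
      simp only [sub_div] at h3
      rw [one_pow, one_mul] at h2
      linarith only [h2, h3]
    have h2 := sum_le_sum h1
    rw [sum_sub_distrib, sum_sub_distrib, sum_const, sum_const, nsmul_eq_mul, nsmul_eq_mul,
      ← sum_div, ← sum_div] at h2
    have h3 : ∑ v ∈ pt c A i, ((mis G c v).card : ℝ) ≤ Mis G c :=
      sum_le_sum_of_subset_of_nonneg (subset_univ _) fun _ _ _ => Nat.cast_nonneg _
    have h4 := div_le_div_of_nonneg_right h2 hn0.le
    rw [pow_succ n J.card, ← div_div]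
    refine le_trans ?_ h4
    have h5 : ((pt c A i).card / n : ℝ) * (J.card * (Mis G c / n ^ 2)) ≤
        1 * (J.card * (Mis G c / n ^ 2)) :=
      mul_le_mul_of_nonneg_right ((div_le_one hn0).2 (hle _))
        (by have := Mis_nonneg (G := G) (c := c); positivity)
    have h6 : (∑ v ∈ pt c A i, ((mis G c v).card : ℝ)) / n ^ 2 ≤ Mis G c / n ^ 2 :=
      div_le_div_of_nonneg_right h3 (by positivity)
    have e : (((pt c A i).card : ℝ) * ∏ j ∈ J, ((pt c A j).card / n : ℝ) -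
        (∑ v ∈ pt c A i, ((mis G c v).card : ℝ)) / n -
        (pt c A i).card * (J.card * (Mis G c / n ^ 2))) / n =
        (pt c A i).card / n * ∏ j ∈ J, ((pt c A j).card / n : ℝ) -
        (∑ v ∈ pt c A i, ((mis G c v).card : ℝ)) / n ^ 2 -
        ((pt c A i).card / n : ℝ) * (J.card * (Mis G c / n ^ 2)) := by
      field_simp
    rw [e]
    linarith only [h5, h6]

lemma sum_kap_eq (A : Finset V) (T : Finset ι) (k : ℕ) :
    ∑ J ∈ powersetCard k T, kap G c A J =
      ∑ σ ∈ cl G A, if σ.card = k ∧ (σ.image c).card = k ∧ σ.image c ⊆ T then 1 else 0 := by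
  unfold kap
  rw [sum_comm]
  apply sum_congr rfl
  intro σ _
  split_ifs with h
  · rw [sum_eq_single_of_mem (σ.image c) (mem_powersetCard.2 ⟨h.2.2, h.2.1⟩),
      if_pos ⟨h.1.trans h.2.1.symm, rfl⟩]
    intro J _ hJ
    exact if_neg fun hh => hJ hh.2.symm
  · apply sum_eq_zero
    intro J hJ
    rw [mem_powersetCard] at hJ
    refine if_neg fun hh => h ?_
    rw [hh.2, hh.1]
    exact ⟨hJ.2, hJ.2, hJ.1⟩

lemma sum_kap_le_cc (A : Finset V) (T : Finset ι) (k : ℕ) :
    ∑ J ∈ powersetCard k T, kap G c A J ≤ cc G A k := by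
  rw [sum_kap_eq, cc_eq_sum_ite]
  apply sum_le_sum
  intro σ _
  split_ifs with h1 h2 <;> first | exact absurd h1.1 h2 | norm_num

lemma cc_supset {A e : Finset V} (he : e ∈ cl G A) (k : ℕ) (p : Finset V → Prop)
    [DecidablePred p] :
    ∑ σ ∈ cl G A, (if e ⊆ σ ∧ σ.card = e.card + k ∧ p (σ \ e) then (1 : ℤ) else 0) =
      ∑ π ∈ cl G (A ∩ nb G e), if π.card = k ∧ p π then 1 else 0 := by
  have := sum_cl_supset he (fun σ => if σ.card = e.card + k ∧ p (σ \ e) then (1 : ℤ) else 0)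
  rw [sum_filter] at this
  refine Eq.trans ?_ (this.trans ?_)
  · apply sum_congr rfl
    intro σ _
    by_cases h : e ⊆ σ <;> simp [h]
  · apply sum_congr rfl
    intro π hπ
    have h1 := (mem_cl.1 hπ).1.trans inter_subset_right
    rw [card_union_of_subset_nb h1, union_sdiff_cancel_left (disjoint_of_subset_nb h1)]
    simp

lemma mem_cl_of_pt {A e : Finset V} {i : ι} (he : e ∈ clj G (pt c A i) 2) : e ∈ cl G A :=
  mem_cl.2 ⟨(mem_clj.1 he).1.trans (filter_subset _ _), (mem_clj.1 he).2.1⟩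

lemma cc_le_kap {A : Finset V} {T : Finset ι} (hT : ∀ v ∈ A, c v ∈ T) (k : ℕ) :
    cc G A (k + 2) ≤ ∑ J ∈ powersetCard (k + 2) T, kap G c A J +
      ∑ i, ∑ e ∈ clj G (pt c A i) 2, cc G (A ∩ nb G e) k := by
  have h1 : ∀ i, ∀ e ∈ clj G (pt c A i) 2, cc G (A ∩ nb G e) k =
      ∑ σ ∈ cl G A, (if e ⊆ σ ∧ σ.card = e.card + k ∧ True then (1 : ℤ) else 0) := by
    intro i e he
    rw [cc_supset (mem_cl_of_pt he) k (fun _ => True), cc_eq_sum_ite]; simp
  rw [sum_congr rfl (fun i _ => (sum_congr rfl (h1 i)).trans sum_comm), sum_comm, sum_kap_eq,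
    cc_eq_sum_ite, ← sum_add_distrib]
  apply sum_le_sum
  intro σ hσ
  rw [mem_cl] at hσ
  have h0 : ∀ i, (0 : ℤ) ≤ ∑ e ∈ clj G (pt c A i) 2,
      (if e ⊆ σ ∧ σ.card = e.card + k ∧ True then (1 : ℤ) else 0) := fun i =>
    sum_nonneg fun _ _ => by split_ifs <;> norm_num
  have h0' := sum_nonneg (s := univ) fun i _ => h0 i
  by_cases h2 : σ.card = k + 2
  · rw [if_pos h2]
    by_cases h3 : (σ.image c).card = k + 2
    · rw [if_pos ⟨h2, h3, fun j hj => by
        obtain ⟨v, hv, rfl⟩ := mem_image.1 hj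
        exact hT v (hσ.1 hv)⟩]
      linarith only [h0']
    · rw [if_neg fun h => h3 h.2.1, zero_add]
      have h4 : ¬ Set.InjOn c σ := fun h => h3 (by rw [card_image_of_injOn h, h2])
      obtain ⟨u, hu, v, hv, huv, hne⟩ : ∃ u ∈ σ, ∃ v ∈ σ, c u = c v ∧ u ≠ v := by
        by_contra hh
        push Not at hh
        exact h4 fun u hu v hv e => hh u hu v hv e
      have hsub : ({u, v} : Finset V) ⊆ σ := insert_subset hu (singleton_subset_iff.2 hv)
      have he : ({u, v} : Finset V) ∈ clj G (pt c A (c v)) 2 :=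
        mem_clj.2 ⟨insert_subset (mem_pt.2 ⟨hσ.1 hu, huv⟩)
          (singleton_subset_iff.2 (mem_pt.2 ⟨hσ.1 hv, rfl⟩)), hσ.2.mono hsub, card_pair hne⟩
      refine le_trans ?_ (single_le_sum (fun i _ => h0 i) (mem_univ (c v)))
      refine le_trans ?_ (single_le_sum
        (f := fun e => if e ⊆ σ ∧ σ.card = e.card + k ∧ True then (1 : ℤ) else 0)
        (fun _ _ => by split_ifs <;> norm_num) he)
      rw [if_pos ⟨hsub, by rw [card_pair hne]; omega, trivial⟩]
  · rw [if_neg h2, if_neg fun h => h2 h.1]; linarith only [h0']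

lemma cc_le_kap_small {A : Finset V} {T : Finset ι} (hT : ∀ v ∈ A, c v ∈ T) {k : ℕ}
    (hk : k < 2) : cc G A k ≤ ∑ J ∈ powersetCard k T, kap G c A J := by
  rw [sum_kap_eq, cc_eq_sum_ite]
  apply sum_le_sum
  intro σ hσ
  split_ifs with h1 h2 h2
  · rfl
  · refine absurd ⟨h1, ?_, fun j hj => ?_⟩ h2
    · rw [card_image_of_injOn, h1]
      intro u hu v hv _
      exact card_le_one.1 (by omega) u hu v hv
    · obtain ⟨v, hv, rfl⟩ := mem_image.1 hj
      exact hT v ((mem_cl.1 hσ).1 hv)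
  · exact absurd h2.1 h1
  · rfl

lemma inside_le_cc [Nonempty ι] (A : Finset V) :
    ∑ i, ∑ e ∈ clj G (pt c A i) 2, kap G c (A ∩ nb G e) (univ.erase i) ≤
      cc G A (Fintype.card ι + 1) := by
  have hc : ∀ i : ι, (univ.erase i).card + 1 = Fintype.card ι := fun i => by
    rw [card_erase_add_one (mem_univ i), card_univ]
  have h1 : ∀ i, ∀ e ∈ clj G (pt c A i) 2, kap G c (A ∩ nb G e) (univ.erase i) =
      ∑ σ ∈ cl G A, (if e ⊆ σ ∧ σ.card = e.card + (univ.erase i).card ∧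
        (σ \ e).image c = univ.erase i then (1 : ℤ) else 0) := by
    intro i e he
    rw [cc_supset (mem_cl_of_pt he) _ (fun π => π.image c = univ.erase i), kap]
  rw [sum_congr rfl (fun i _ => (sum_congr rfl (h1 i)).trans sum_comm), sum_comm, cc_eq_sum_ite]
  apply sum_le_sum
  intro σ _
  rw [sum_sigma', sum_boole]
  split_ifs with h2
  · rw [Nat.cast_le_one, card_le_one]
    rintro ⟨i, e⟩ ha ⟨i', e'⟩ hb
    simp only [mem_filter, mem_sigma, mem_univ, true_and, mem_clj] at ha hb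
    obtain ⟨⟨a1, -, a3⟩, a4, a5, a6⟩ := ha
    obtain ⟨⟨b1, -, b3⟩, b4, b5, b6⟩ := hb
    have key : ∀ v ∈ σ, c v = i → v ∈ e := fun v hv hvi => by
      by_contra hh
      have := mem_image_of_mem c (mem_sdiff.2 ⟨hv, hh⟩)
      rw [a6, hvi] at this
      exact notMem_erase i _ this
    have hii : i' = i := by
      by_contra hne
      have hinj : Set.InjOn c (σ \ e : Finset V) := by
        apply card_image_iff.1
        rw [a6, card_sdiff_of_subset a4]; omega
      obtain ⟨u, v, huv, rfl⟩ := card_eq_two.1 b3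
      have hu := mem_pt.1 (b1 (mem_insert_self u {v}))
      have hv := mem_pt.1 (b1 (mem_insert_of_mem (mem_singleton_self v)))
      refine huv (hinj ?_ ?_ (hu.2.trans hv.2.symm))
      · exact mem_coe.2 (mem_sdiff.2 ⟨b4 (by simp), fun hh =>
          hne (hu.2.symm.trans (mem_pt.1 (a1 hh)).2)⟩)
      · exact mem_coe.2 (mem_sdiff.2 ⟨b4 (by simp), fun hh =>
          hne (hv.2.symm.trans (mem_pt.1 (a1 hh)).2)⟩)
    subst hii
    have : e' = e := eq_of_subset_of_card_le
      (fun v hv => key v (b4 hv) (mem_pt.1 (b1 hv)).2) (by omega)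
    rw [this]
  · rw [filter_false_of_mem]
    · simp
    · rintro ⟨i, e⟩ ha hb
      simp only [mem_sigma, mem_univ, true_and, mem_clj] at ha hb
      have := hc i
      omega

lemma sum_inside_le (A : Finset V) : ∑ i, (cc G (pt c A i) 2 : ℝ) ≤ Ind G c := by
  have h1 : ∀ i, (cc G (pt c A i) 2 : ℝ) ≤ ∑ v ∈ pt c univ i, ((ind G c v).card : ℝ) := by
    intro i
    have h2 := handshake_cc (G := G) (pt c A i) 1
    have h3 : ∑ u ∈ pt c A i, cc G (pt c A i ∩ nb G {u}) 1 ≤
        ∑ v ∈ pt c univ i, ((ind G c v).card : ℤ) := by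
      refine le_trans (sum_le_sum fun u hu => ?_)
        (sum_le_sum_of_subset_of_nonneg (pt_mono (subset_univ A) i) fun _ _ _ => by positivity)
      rw [cc_one, Nat.cast_le]
      apply card_le_card
      intro v hv
      rw [mem_inter, mem_nb1, mem_pt] at hv
      exact mem_ind.2 ⟨hv.1.2.trans (mem_pt.1 hu).2.symm, hv.2⟩
    have h4 := cc_nonneg (G := G) (pt c A i) 2
    have h5 : cc G (pt c A i) 2 ≤ ∑ v ∈ pt c univ i, ((ind G c v).card : ℤ) := by
      norm_num at h2; linarith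
    exact_mod_cast h5
  refine (sum_le_sum fun i _ => h1 i).trans (le_of_eq ?_)
  exact sum_fiberwise univ c _

end Pool.Agent.Work.MP_001c0f_co
end

-- merged part: Pool.Agent.Work.MP_001c0f_co.LNorm
section
set_option autoImplicit false
set_option linter.unusedSectionVars false

open Finset

namespace Pool.Agent.Work.MP_001c0f_co

variable {V : Type} [Fintype V] [DecidableEq V] {ι : Type} [Fintype ι] [DecidableEq ι]

/-- normalised clique numbers -/
noncomputable def cn (G : SimpleGraph V) (N : ℝ) (A : Finset V) (k : ℕ) : ℝ := cc G A k / N ^ k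

/-- normalised part sizes -/
noncomputable def sz (c : V → ι) (N : ℝ) (A : Finset V) (j : ι) : ℝ := (pt c A j).card / N

variable {G : SimpleGraph V} {c : V → ι} {N : ℝ}

lemma sz_mono (N0 : 0 < N) {A B : Finset V} (h : A ⊆ B) (j : ι) : sz c N A j ≤ sz c N B j :=
  div_le_div_of_nonneg_right (Nat.cast_le.2 (card_le_card (pt_mono h j))) N0.le

lemma sz_nonneg (N0 : 0 < N) (A : Finset V) (j : ι) : 0 ≤ sz c N A j := by
  unfold sz; positivity

lemma sum_kap_le_es (A : Finset V) (T : Finset ι) (k : ℕ) (N0 : 0 < N) :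
    (∑ J ∈ powersetCard k T, (kap G c A J : ℝ)) / N ^ k ≤ es T k (sz c N A) := by
  unfold sz
  rw [es_mul]
  exact div_le_div_of_nonneg_right (sum_le_sum fun J _ => kap_le J A) (by positivity)

section

variable (hN : N = Fintype.card V) (N0 : 0 < N)
include hN N0

lemma cc_le_powN (A : Finset V) (k : ℕ) : (cc G A k : ℝ) ≤ N ^ k := by
  rw [hN]; exact_mod_cast cc_le_pow A k

lemma cn_le_es {A : Finset V} {T : Finset ι} (hT : ∀ v ∈ A, c v ∈ T) (k : ℕ) :
    cn G N A k ≤ es T k (sz c N A) + Ind G c / N ^ 2 := by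
  have h0 := sum_kap_le_es (G := G) (c := c) A T k N0
  rcases lt_or_ge k 2 with hk | hk
  · have h1 : (cc G A k : ℝ) ≤ ∑ J ∈ powersetCard k T, (kap G c A J : ℝ) := by
      exact_mod_cast cc_le_kap_small hT hk
    have h2 : 0 ≤ Ind G c / N ^ 2 := div_nonneg Ind_nonneg (by positivity)
    have h3 := div_le_div_of_nonneg_right h1 (show 0 ≤ N ^ k by positivity)
    unfold cn
    linarith only [h0, h2, h3]
  · obtain ⟨k, rfl⟩ := Nat.exists_eq_add_of_le' hk
    have h1 : (cc G A (k + 2) : ℝ) ≤ ∑ J ∈ powersetCard (k + 2) T, (kap G c A J : ℝ) +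
        ∑ i, ∑ e ∈ clj G (pt c A i) 2, (cc G (A ∩ nb G e) k : ℝ) := by
      exact_mod_cast cc_le_kap hT k
    have h2 : ∑ i, ∑ e ∈ clj G (pt c A i) 2, (cc G (A ∩ nb G e) k : ℝ) ≤ Ind G c * N ^ k := by
      refine le_trans (sum_le_sum fun i _ => sum_le_sum fun e _ => cc_le_powN hN N0 _ k) ?_
      simp only [sum_clj_const]
      rw [← sum_mul]
      exact mul_le_mul_of_nonneg_right (sum_inside_le A) (by positivity)
    have h3 := div_le_div_of_nonneg_right (h1.trans (add_le_add le_rfl h2))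
      (show 0 ≤ N ^ (k + 2) by positivity)
    have e : Ind G c * N ^ k / N ^ (k + 2) = Ind G c / N ^ 2 := by field_simp; ring
    rw [add_div, e] at h3
    unfold cn
    linarith only [h0, h3]

lemma cn_le_sdiff (A B : Finset V) (k : ℕ) : cn G N A k ≤ cn G N (A \ B) k + B.card / N := by
  unfold cn
  rcases k with _ | k
  · simp only [cc_zero]
    have : (0 : ℝ) ≤ B.card / N := by positivity
    linarith only [this]
  · have h1 := cc_split_le (G := G) (inter_subset_left (s₁ := A) (s₂ := B)) k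
    rw [sdiff_inter_self_left] at h1
    have h2 : (cc G A (k + 1) : ℝ) ≤ cc G (A \ B) (k + 1) +
        ∑ w ∈ A ∩ B, (cc G (A ∩ nb G {w}) k : ℝ) := by exact_mod_cast h1
    have h3 : ∑ w ∈ A ∩ B, (cc G (A ∩ nb G {w}) k : ℝ) ≤ B.card * N ^ k := by
      refine le_trans (sum_le_card_nsmul _ _ _ fun w _ => cc_le_powN hN N0 _ k) ?_
      rw [nsmul_eq_mul]
      exact mul_le_mul_of_nonneg_right (Nat.cast_le.2 (card_le_card inter_subset_right))
        (by positivity)
    have h4 := div_le_div_of_nonneg_right (h2.trans (add_le_add le_rfl h3))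
      (show 0 ≤ N ^ (k + 1) by positivity)
    have e : B.card * N ^ k / N ^ (k + 1) = B.card / N := by field_simp; ring
    rwa [add_div, e] at h4

lemma kap_ge' {m : ℕ} (hm : Fintype.card ι = m) (A : Finset V) (J : Finset ι) :
    ∏ j ∈ J, sz c N A j - m * (Mis G c / N ^ 2) ≤ kap G c A J / N ^ J.card := by
  refine le_trans (sub_le_sub_left ?_ _) (kap_ge hN N0 J A)
  exact mul_le_mul_of_nonneg_right (Nat.cast_le.2 (hm ▸ card_le_univ J))
    (div_nonneg Mis_nonneg (by positivity))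

lemma es_le_cn {m : ℕ} (hm : Fintype.card ι = m) (A : Finset V) (k : ℕ) :
    es univ k (sz c N A) - 2 ^ m * (m * (Mis G c / N ^ 2)) ≤ cn G N A k := by
  have h1 : ∑ J ∈ powersetCard k univ, (kap G c A J : ℝ) ≤ cc G A k := by
    exact_mod_cast sum_kap_le_cc (G := G) (c := c) A univ k
  refine le_trans ?_ (div_le_div_of_nonneg_right h1 (by positivity))
  have h2 := sum_le_sum (s := powersetCard k univ) fun J hJ =>
    (mem_powersetCard.1 hJ).2 ▸ kap_ge' (G := G) (c := c) hN N0 hm A J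
  rw [sum_sub_distrib, sum_const, card_powersetCard, card_univ, hm, nsmul_eq_mul] at h2
  rw [sum_div]
  have h3 : (m.choose k : ℝ) ≤ 2 ^ m := by exact_mod_cast Nat.choose_le_two_pow m k
  have h4 := mul_le_mul_of_nonneg_right h3 (show 0 ≤ m * (Mis G c / N ^ 2) from
    mul_nonneg (Nat.cast_nonneg _) (div_nonneg Mis_nonneg (by positivity)))
  unfold es
  linarith only [h2, h4]

lemma upper_bd {q k : ℕ} (hm : Fintype.card ι = q + 2) (hk : k ≤ q) (W : Finset V) {ε ν μ : ℝ}
    (hε : ∀ v, v ∉ W → ((ind G c v).card : ℝ) ≤ ε * N) (hν : ∀ j, sz c N univ j ≤ ν)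
    (hμ0 : 0 ≤ μ) (hμ : ∀ j, μ ≤ sz c N (univ \ W) j) {i l : ι} (hil : i ≠ l) :
    N * cn G N univ (k + 2) ≤ N * es univ (k + 2) (sz c N (univ \ W)) -
      (∑ v ∈ pt c (univ \ W) i, (((pt c (univ \ W) l).card : ℝ) -
        (pt c ((univ \ W) ∩ nb G {v}) l).card)) / N * μ ^ k +
      (∑ i, (cc G (pt c (univ \ W) i) 2 : ℝ)) / N *
        (((q + 1).choose k : ℝ) * ν ^ k + Ind G c / N ^ 2 + ε) +
      ∑ w ∈ W, es univ (k + 1) (sz c N ((univ \ W) ∩ nb G {w})) +
      W.card * (Ind G c / N ^ 2 + W.card / N) := by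
  set S := univ \ W with hS
  set M := ∑ v ∈ pt c S i, (((pt c S l).card : ℝ) - (pt c (S ∩ nb G {v}) l).card) with hM
  have h1 : (cc G univ (k + 2) : ℝ) ≤ cc G S (k + 2) +
      ∑ w ∈ W, (cc G (univ ∩ nb G {w}) (k + 1) : ℝ) := by
    exact_mod_cast cc_split_le (G := G) (subset_univ W) (k + 1)
  have h2 : (cc G S (k + 2) : ℝ) ≤ ∑ J ∈ powersetCard (k + 2) univ, (kap G c S J : ℝ) +
      ∑ i, ∑ e ∈ clj G (pt c S i) 2, (cc G (S ∩ nb G e) k : ℝ) := by
    exact_mod_cast cc_le_kap (G := G) (c := c) (A := S) (T := univ) (fun _ _ => mem_univ _) k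
  have h3 : ∀ w ∈ W, cn G N (univ ∩ nb G {w}) (k + 1) ≤
      es univ (k + 1) (sz c N (S ∩ nb G {w})) + (Ind G c / N ^ 2 + W.card / N) := by
    intro w _
    have a1 := cn_le_sdiff (G := G) hN N0 (univ ∩ nb G {w}) W (k + 1)
    rw [show (univ ∩ nb G {w}) \ W = S ∩ nb G {w} by ext; simp [hS, and_comm]] at a1
    linarith only [a1, hN, N0, cn_le_es (G := G) (c := c) hN N0 (A := S ∩ nb G {w}) (T := univ)
      (fun _ _ => mem_univ _) (k + 1)]
  have h4 : ∀ j, ∀ e ∈ clj G (pt c S j) 2, cn G N (S ∩ nb G e) k ≤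
      ((q + 1).choose k : ℝ) * ν ^ k + Ind G c / N ^ 2 + ε := by
    intro j e he
    rw [mem_clj] at he
    obtain ⟨u, hu⟩ : e.Nonempty := card_pos.1 (by omega)
    have hu' := mem_pt.1 (he.1 hu)
    have a1 := cn_le_sdiff (G := G) hN N0 (S ∩ nb G e) (ind G c u) k
    have a2 := cn_le_es (G := G) (c := c) hN N0 (A := (S ∩ nb G e) \ ind G c u)
      (T := univ.erase j) (fun v hv => by
        rw [mem_sdiff, mem_ind, mem_inter] at hv
        exact mem_erase.2 ⟨fun h => hv.2 ⟨h.trans hu'.2.symm, mem_nb.1 hv.1.2 u hu⟩,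
          mem_univ _⟩) k
    have a3 := es_le (T := univ.erase j) (k := k) (a := sz c N ((S ∩ nb G e) \ ind G c u))
      (hi := ν) fun j _ => ⟨sz_nonneg N0 _ _, (sz_mono N0 (subset_univ _) j).trans (hν j)⟩
    rw [card_erase_of_mem (mem_univ j), card_univ, hm] at a3
    have a4 : ((ind G c u).card : ℝ) / N ≤ ε := by
      rw [div_le_iff₀ N0]; exact hε u (mem_sdiff.1 hu'.1).2
    simp only [Nat.add_succ_sub_one] at a3
    linarith only [a1, a2, a3, a4]
  have h5 : ∑ J ∈ powersetCard (k + 2) univ, (kap G c S J : ℝ) + M * (μ * N) ^ k ≤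
      es univ (k + 2) (sz c N S) * N ^ (k + 2) := by
    obtain ⟨J, hJ1, -, hJ2⟩ := exists_subsuperset_card_eq (n := k + 2)
      (subset_univ ({i, l} : Finset ι)) (by rw [card_pair hil]; omega)
      (by rw [card_univ]; omega)
    have hi : i ∈ J := hJ1 (by simp)
    have hl : l ∈ J.erase i := mem_erase.2 ⟨hil.symm, hJ1 (by simp)⟩
    have d1 := kap_pen (G := G) (c := c) S hi hl
    have d2 : (μ * N) ^ k ≤ ∏ j ∈ (J.erase i).erase l, ((pt c S j).card : ℝ) := by
      have : ((J.erase i).erase l).card = k := by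
        rw [card_erase_of_mem hl, card_erase_of_mem hi, hJ2]; rfl
      rw [← this, ← prod_const]
      exact prod_le_prod (fun _ _ => by positivity) fun j _ => (le_div_iff₀ N0).1 (hμ j)
    have d3 : 0 ≤ M := sum_nonneg fun w _ =>
      sub_nonneg.2 (Nat.cast_le.2 (card_le_card (pt_mono inter_subset_left _)))
    have d4 := mul_le_mul_of_nonneg_left d2 d3
    have hJ : J ∈ powersetCard (k + 2) univ := mem_powersetCard.2 ⟨subset_univ _, hJ2⟩
    have d5 := sum_le_sum (s := (powersetCard (k + 2) univ).erase J)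
      fun J' _ => kap_le (G := G) (c := c) J' S
    unfold sz
    rw [es_mul, div_mul_cancel₀ _ (by positivity), es, ← add_sum_erase _ _ hJ,
      ← add_sum_erase _ _ hJ]
    linarith only [d1, d4, d5]
  have h3' : ∑ w ∈ W, (cc G (univ ∩ nb G {w}) (k + 1) : ℝ) ≤
      (∑ w ∈ W, es univ (k + 1) (sz c N (S ∩ nb G {w})) +
        W.card * (Ind G c / N ^ 2 + W.card / N)) * N ^ (k + 1) := by
    rw [← nsmul_eq_mul, ← sum_const, ← sum_add_distrib, sum_mul]
    exact sum_le_sum fun w hw => (div_le_iff₀ (by positivity)).1 (h3 w hw)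
  have h4' : ∑ i, ∑ e ∈ clj G (pt c S i) 2, (cc G (S ∩ nb G e) k : ℝ) ≤
      (∑ i, (cc G (pt c S i) 2 : ℝ)) *
        ((((q + 1).choose k : ℝ) * ν ^ k + Ind G c / N ^ 2 + ε) * N ^ k) := by
    rw [sum_mul]
    refine sum_le_sum fun j _ => ?_
    rw [← sum_clj_const]
    exact sum_le_sum fun e he => (div_le_iff₀ (by positivity)).1 (h4 j e he)
  refine le_of_mul_le_mul_right ?_ (show 0 < N ^ (k + 1) by positivity)
  have e1 : N * cn G N univ (k + 2) * N ^ (k + 1) = cc G univ (k + 2) := by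
    unfold cn; field_simp; ring
  have e2 : ∀ X Y : ℝ, X / N * Y * N ^ (k + 1) = X * (Y * N ^ k) := fun X Y => by
    field_simp; ring
  rw [e1, add_mul, add_mul, add_mul, sub_mul, e2, e2, ← mul_pow]
  have e3 : N * es univ (k + 2) (sz c N S) * N ^ (k + 1) =
      es univ (k + 2) (sz c N S) * N ^ (k + 2) := by ring
  rw [e3]
  linarith only [h1, h2, h5, h3', h4']

lemma lower_bd {q : ℕ} (hm : Fintype.card ι = q + 2) (W : Finset V) {ε μ : ℝ}
    (hε : ∀ v, v ∉ W → ((mis G c v).card : ℝ) ≤ ε * N)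
    (hμ0 : 0 ≤ μ - 2 * ε) (hμ : ∀ j, μ ≤ sz c N (univ \ W) j) :
    (∑ i, (cc G (pt c (univ \ W) i) 2 : ℝ)) / N *
        ((μ - 2 * ε) ^ (q + 1) - (q + 2 : ℕ) * (Mis G c / N ^ 2)) +
      (∑ w ∈ W, ∏ j, sz c N ((univ \ W) ∩ nb G {w}) j -
        W.card * ((q + 2 : ℕ) * (Mis G c / N ^ 2))) ≤ N * cn G N univ (q + 3) := by
  have : Nonempty ι := Fintype.card_pos_iff.1 (by omega)
  set S := univ \ W with hS
  have h1 : (cc G S (q + 3) : ℝ) + ∑ w ∈ W, (cc G (S ∩ nb G {w}) (q + 2) : ℝ) ≤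
      cc G univ (q + 3) := by
    exact_mod_cast cc_split_ge (G := G) (subset_univ W) (q + 2)
  have h2 : ∑ i, ∑ e ∈ clj G (pt c S i) 2, (kap G c (S ∩ nb G e) (univ.erase i) : ℝ) ≤
      cc G S (q + 3) := by
    have := inside_le_cc (G := G) (c := c) S
    rw [hm] at this
    exact_mod_cast this
  have h3 : ∀ w ∈ W, (∏ j, sz c N (S ∩ nb G {w}) j - (q + 2 : ℕ) * (Mis G c / N ^ 2)) *
      N ^ (q + 2) ≤ cc G (S ∩ nb G {w}) (q + 2) := by
    intro w _
    have a1 := kap_ge' (G := G) (c := c) hN N0 hm (S ∩ nb G {w}) univ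
    have a2 := sum_kap_le_cc (G := G) (c := c) (S ∩ nb G {w}) univ (univ : Finset ι).card
    rw [powersetCard_self, sum_singleton] at a2
    rw [card_univ, hm] at a1 a2
    exact ((le_div_iff₀ (by positivity)).1 a1).trans (by exact_mod_cast a2)
  have h4 : ∀ j, ∀ e ∈ clj G (pt c S j) 2,
      ((μ - 2 * ε) ^ (q + 1) - (q + 2 : ℕ) * (Mis G c / N ^ 2)) * N ^ (q + 1) ≤
        kap G c (S ∩ nb G e) (univ.erase j) := by
    intro j e he
    rw [mem_clj] at he
    have a1 := kap_ge' (G := G) (c := c) hN N0 hm (S ∩ nb G e) (univ.erase j)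
    have hc : (univ.erase j).card = q + 1 := by
      rw [card_erase_of_mem (mem_univ j), card_univ, hm]; rfl
    have a2 : (μ - 2 * ε) ^ (q + 1) ≤ ∏ l ∈ univ.erase j, sz c N (S ∩ nb G e) l := by
      rw [← hc, ← prod_const]
      refine prod_le_prod (fun _ _ => hμ0) fun l hl => ?_
      obtain ⟨u, v, -, rfl⟩ := card_eq_two.1 he.2.2
      have hu := mem_pt.1 (he.1 (mem_insert_self u {v}))
      have hv := mem_pt.1 (he.1 (mem_insert_of_mem (mem_singleton_self v)))
      have b1 : (pt c S l).card ≤ (pt c (S ∩ nb G {u, v}) l).card + ((mis G c u).card +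
          (mis G c v).card) := by
        refine le_trans (card_le_card fun z hz => ?_)
          ((card_union_le _ _).trans (add_le_add le_rfl (card_union_le _ _)))
        rw [mem_pt] at hz
        simp only [mem_union, mem_pt, mem_mis, mem_inter, mem_nb, mem_insert, mem_singleton,
          forall_eq_or_imp, forall_eq, hu.2, hv.2, hz.2]
        have := (mem_erase.1 hl).1
        tauto
      have b2 : ((pt c S l).card : ℝ) ≤ (pt c (S ∩ nb G {u, v}) l).card + ((mis G c u).card +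
          (mis G c v).card) := by exact_mod_cast b1
      have b3 := (le_div_iff₀ N0).1 (hμ l)
      have b4 := hε u (mem_sdiff.1 hu.1).2
      have b5 := hε v (mem_sdiff.1 hv.1).2
      unfold sz
      rw [le_div_iff₀ N0]
      linarith only [b2, b3, b4, b5]
    rw [hc] at a1
    exact (le_div_iff₀ (by positivity)).1 (le_trans (sub_le_sub_right a2 _) a1)
  have h3' := sum_le_sum h3
  rw [← sum_mul, sum_sub_distrib, sum_const, nsmul_eq_mul] at h3'
  have h4' := sum_le_sum (s := univ) fun j _ => sum_le_sum (h4 j)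
  simp only [sum_clj_const] at h4'
  rw [← sum_mul] at h4'
  refine le_of_mul_le_mul_right ?_ (show 0 < N ^ (q + 2) by positivity)
  have e1 : N * cn G N univ (q + 3) * N ^ (q + 2) = cc G univ (q + 3) := by
    unfold cn; field_simp; ring
  have e2 : ∀ X Y : ℝ, X / N * Y * N ^ (q + 2) = X * (Y * N ^ (q + 1)) := fun X Y => by
    field_simp; ring
  rw [e1, add_mul, e2]
  linarith only [h1, h2, h3', h4']

end

open Classical in
lemma card_filter_loss (A : Finset V) (v : V) (i : ι) :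
    ((A.filter fun u => c u ≠ i ∧ ¬ G.Adj v u).card : ℝ) =
      ∑ j ∈ univ.erase i, (((pt c A j).card : ℝ) - (pt c (A ∩ nb G {v}) j).card) := by
  rw [sum_sub_distrib, ← Nat.cast_sum, ← Nat.cast_sum, sum_card_pt, sum_card_pt, eq_sub_iff_add_eq,
    ← Nat.cast_add, ← card_union_of_disjoint]
  · congr 2
    ext u
    simp only [mem_union, mem_filter, mem_inter, mem_nb1, mem_erase, mem_univ, and_true]
    tauto
  · rw [disjoint_left]
    intro u h1 h2
    exact (mem_filter.1 h1).2.2 (mem_nb1.1 (mem_inter.1 (mem_filter.1 h2).1).2)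

lemma mis_new (W : Finset V) (l : V → ι) :
    Mis G (fun v => if v ∈ W then l v else c v) ≤
      ∑ i, ∑ j ∈ univ.erase i, ∑ v ∈ pt c (univ \ W) i,
        (((pt c (univ \ W) j).card : ℝ) - (pt c ((univ \ W) ∩ nb G {v}) j).card) +
      2 * ∑ w ∈ W, ∑ j ∈ univ.erase (l w),
        (((pt c (univ \ W) j).card : ℝ) - (pt c ((univ \ W) ∩ nb G {w}) j).card) +
      (W.card : ℝ) ^ 2 := by
  classical
  set S := univ \ W with hS
  have mS : ∀ v, v ∈ S ↔ v ∉ W := fun v => by simp [hS]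
  set c' : V → ι := fun v => if v ∈ W then l v else c v with hc'
  set D : ι → V → Finset V := fun i v => S.filter fun u => c u ≠ i ∧ ¬ G.Adj v u with hD
  have e1 : ∑ i, ∑ j ∈ univ.erase i, ∑ v ∈ pt c S i,
      (((pt c S j).card : ℝ) - (pt c (S ∩ nb G {v}) j).card) = ∑ v ∈ S, ((D (c v) v).card : ℝ) := by
    rw [← sum_fiberwise S c]
    apply sum_congr rfl
    intro i _
    rw [sum_comm]
    apply sum_congr rfl
    intro v hv
    rw [(mem_pt.1 hv).2, card_filter_loss]
  have e2 : ∑ w ∈ W, ∑ j ∈ univ.erase (l w),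
      (((pt c S j).card : ℝ) - (pt c (S ∩ nb G {w}) j).card) = ∑ w ∈ W, ((D (l w) w).card : ℝ) :=
    sum_congr rfl fun w _ => (card_filter_loss _ _ _).symm
  have h1 : ∀ v ∈ S, (mis G c' v).card ≤ (D (c v) v).card +
      (W.filter fun w => v ∈ D (l w) w).card := by
    intro v hv
    refine le_trans (card_le_card fun u hu => ?_) (card_union_le _ _)
    rw [mem_mis] at hu
    have hv' := (mS v).1 hv
    by_cases h : u ∈ W
    · simp only [hc', h, hv', if_true, if_false] at hu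
      exact mem_union_right _ (mem_filter.2 ⟨h, mem_filter.2 ⟨hv, Ne.symm hu.1,
        fun h' => hu.2 h'.symm⟩⟩)
    · simp only [hc', h, hv', if_false] at hu
      exact mem_union_left _ (mem_filter.2 ⟨(mS u).2 h, hu⟩)
  have h2 : ∀ w ∈ W, (mis G c' w).card ≤ (D (l w) w).card + W.card := by
    intro w hw
    refine le_trans (card_le_card fun u hu => ?_) (card_union_le _ _)
    rw [mem_mis] at hu
    by_cases h : u ∈ W
    · exact mem_union_right _ h
    · simp only [hc', h, hw, if_true, if_false] at hu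
      exact mem_union_left _ (mem_filter.2 ⟨(mS u).2 h, hu⟩)
  have h3 : ∑ v ∈ S, (W.filter fun w => v ∈ D (l w) w).card = ∑ w ∈ W, (D (l w) w).card := by
    simp only [card_filter]
    rw [sum_comm]
    apply sum_congr rfl
    intro w _
    rw [← card_filter, filter_mem_eq_inter, inter_eq_right.2 (filter_subset _ _)]
  have h4 := add_le_add (sum_le_sum h1) (sum_le_sum h2)
  rw [sum_add_distrib, sum_add_distrib, h3, sum_const, smul_eq_mul, hS,
    sum_sdiff (subset_univ W)] at h4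
  rw [e1, e2, Mis]
  have h5 : ((∑ v, (mis G c' v).card : ℕ) : ℝ) ≤ _ := Nat.cast_le.2 h4
  push_cast at h5
  linarith only [h5]

end Pool.Agent.Work.MP_001c0f_co
end

-- merged part: Pool.Agent.Work.MP_001c0f_co.LSeq
section
set_option autoImplicit false

open Finset

namespace Pool.Agent.Work.MP_001c0f_co

lemma prodL {s r0 : ℕ} (hr0 : r0 < s) (u v : ℕ → ℝ) {x κ lam B : ℝ} (hx : 0 ≤ x) (hκ : 0 ≤ κ)
    (hl : 0 ≤ lam) (hu : ∀ r < s, 0 ≤ u r ∧ u r ≤ v r + κ)
    (hv : ∀ r < s, x ≤ v r ∧ v r + κ ≤ B) (h0 : u r0 ≤ v r0 - lam) :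
    ∏ r ∈ range s, u r ≤ ∏ r ∈ range s, v r + s * κ * B ^ (s - 1) - lam * x ^ (s - 1) := by
  have hm := mem_range.2 hr0
  have h1 := (pert v (fun r => v r + κ) hx (range s) (hi := B) (fun r hr =>
    ⟨(hv r (mem_range.1 hr)).1, by linarith only [hκ], (hv r (mem_range.1 hr)).2⟩)).2
  simp only [add_sub_cancel_left, sum_const, card_range, nsmul_eq_mul] at h1
  have h2 : ∏ r ∈ (range s).erase r0, u r ≤ ∏ r ∈ (range s).erase r0, (v r + κ) :=
    prod_le_prod (fun r hr => (hu r (mem_range.1 (mem_of_mem_erase hr))).1)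
      (fun r hr => (hu r (mem_range.1 (mem_of_mem_erase hr))).2)
  have h3 : x ^ (s - 1) ≤ ∏ r ∈ (range s).erase r0, (v r + κ) := by
    have : s - 1 = ((range s).erase r0).card := by rw [card_erase_of_mem hm, card_range]
    rw [this, ← prod_const]
    exact prod_le_prod (fun _ _ => hx) fun r hr => by
      linarith only [hκ, hv, hr, (hv r (mem_range.1 (mem_of_mem_erase hr))).1]
  rw [← mul_prod_erase _ (fun r => v r + κ) hm] at h1
  rw [← mul_prod_erase _ u hm]
  have h4 := (hu r0 hr0).1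
  have h5 := mul_le_mul (show u r0 ≤ v r0 + κ - lam by linarith) h2
    (prod_nonneg fun r hr => (hu r (mem_range.1 (mem_of_mem_erase hr))).1) (by linarith)
  have h6 := mul_le_mul_of_nonneg_left h3 hl
  linarith only [h1, h5, h6]

lemma prod_turan {m s : ℕ} (hs : s ≤ m) (x : ℝ) :
    ∏ r ∈ range s, ((m : ℝ) * x - r * x) = (s.factorial : ℝ) * (m.choose s * x ^ s) := by
  have h1 : ∏ r ∈ range s, ((m : ℝ) * x - r * x) = ∏ r ∈ range s, (((m - r : ℕ) : ℝ) * x) := by
    apply prod_congr rfl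
    intro r hr
    rw [Nat.cast_sub (by have := mem_range.1 hr; omega)]; ring
  rw [h1, prod_mul_distrib, prod_const, card_range, ← Nat.cast_prod,
    ← Nat.descFactorial_eq_prod_range, Nat.descFactorial_eq_factorial_mul_choose]
  push_cast; ring

theorem seq_bound (p : ℕ) (hp : 1 ≤ p) {K : ℝ} (hK : 1 ≤ K) : ∃ K' X0 : ℝ, 1 ≤ K' ∧
    ∀ (x N : ℝ) (c : ℕ → ℝ) (s : ℕ), X0 ≤ x → N = (p + 1 : ℕ) * x → 2 ≤ s → s ≤ p + 1 →
      (∀ r ≤ p + 2, 0 < c r) → c 0 = 1 → c 1 = N →
      (∀ r : ℕ, r ≤ p → ((r + 1) * c (r + 1)) ^ 2 ≤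
        c r * (N * c (r + 1) + r * (r + 2) * c (r + 2))) →
      ((p + 1).choose s : ℝ) * x ^ s - K * N ^ (s - 1) ≤ c s → c (p + 2) ≤ K * N ^ (p + 1) →
      N - x - K' ≤ 2 * c 2 / N ∧
      N + p * ((p + 2) * c (p + 2) / c (p + 1)) - (p + 1) * ((p + 1) * c (p + 1) / c p) ≤ K' ∧
      N ^ (p + 1) ≤ K' * c (p + 1) := by
  set m : ℝ := ((p + 1 : ℕ) : ℝ) with hm
  have hm' : m = p + 1 := by rw [hm]; push_cast; ring
  have hp' : (1 : ℝ) ≤ p := by exact_mod_cast hp
  have hm1 : 1 ≤ m := by linarith only [hm', hp']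
  set K1 : ℝ := (p + 1).factorial * K * m ^ (p + 1) with hK1
  set K0 : ℝ := (2 * m ^ 2) ^ (p + 1) with hK0
  set K2 : ℝ := (m + 1) * K * K0 with hK2
  set K3 : ℝ := K1 + m * K2 * (2 * m) ^ (p + 1) with hK3
  have hf1 : (1 : ℝ) ≤ (p + 1).factorial := by exact_mod_cast Nat.factorial_pos _
  have hmp : 1 ≤ m ^ (p + 1) := one_le_pow₀ hm1
  obtain k1 : K * m ^ (p + 1) ≤ K1 := by
    rw [hK1, mul_assoc]; exact le_mul_of_one_le_left (by positivity) hf1
  have k1' : 1 ≤ K1 := le_trans (one_le_mul_of_one_le_of_one_le hK hmp) k1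
  have k0 : 1 ≤ K0 := one_le_pow₀ (by nlinarith only [hm1])
  have k2 : 0 ≤ K2 := by positivity
  have k3 : K1 ≤ K3 := le_add_of_nonneg_right (by positivity)
  obtain k4 : 0 ≤ m * K2 + m ^ 2 * K3 := by
    have : 0 ≤ K3 := by linarith only [k1', k3]
    positivity
  have k5 : K1 ≤ m * K1 := le_mul_of_one_le_left (by linarith only [k1']) hm1
  clear_value K1 K0 K2 K3
  refine ⟨K3 + (m * K2 + m ^ 2 * K3) + K0, 2 * m * K1 + K2, by linarith only [k1', k0, k3, k4], ?_⟩
  intro x N c s hx hN hs2 hsm hc c0 c1 hMM hlo hhi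
  have x1 : 2 * m * K1 ≤ x := by linarith only [k2, hx]
  have x2 : K2 ≤ x := by linarith only [k1', k5, hx]
  have x0 : 0 < x := by linarith only [k1', k2, k5, hx]
  have xN : x ≤ N := by rw [hN]; exact le_mul_of_one_le_left x0.le hm1
  have N0 : 0 < N := by linarith only [k1', k2, k5, hx, xN]
  set t : ℕ → ℝ := fun r => (r + 1) * c (r + 1) / c r with ht
  have t0 : ∀ r ≤ p + 1, 0 ≤ t r := fun r hr => by
    have := hc r (by omega); have := hc (r + 1) (by omega); positivity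
  have tz : t 0 = N := by simp [ht, c0, c1]
  have tc : ∀ r ≤ p + 1, c (r + 1) = t r * c r / (r + 1) := fun r hr => by
    have := hc r (by omega); simp only [ht]; field_simp
  obtain hprod : ∀ r ≤ p + 2, ∏ i ∈ range r, t i = r.factorial * c r := by
    clear * - p t c c0 s tc
    intro r hr
    induction r with
    | zero => simp [c0]
    | succ r ih =>
      rw [prod_range_succ, ih (by omega), tc r (by omega), Nat.factorial_succ]
      push_cast; field_simp
  set ρ : ℕ → ℝ := fun r => (N - t r) / r with hρ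
  have tρ : ∀ r, 1 ≤ r → t r = N - r * ρ r := fun r hr => by
    have : (r : ℝ) ≠ 0 := by positivity
    simp only [hρ]; field_simp; ring
  obtain hstep : ∀ r, 1 ≤ r → r ≤ p → ρ (r + 1) ≤ ρ r := by
    clear * - p c hc s t N ht hMM ρ hρ
    intro r hr hrp
    have a0 := hc r (by omega)
    have a1 := hc (r + 1) (by omega)
    obtain a2 : (r + 1) * t r ≤ N + r * t (r + 1) := by
      obtain e1 : (r + 1) * t r = ((r + 1) * c (r + 1)) ^ 2 / (c r * c (r + 1)) := by
        simp only [ht]; field_simp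
      obtain e2 : N + r * t (r + 1) =
          c r * (N * c (r + 1) + r * (r + 2) * c (r + 2)) / (c r * c (r + 1)) := by
        simp only [ht]; push_cast; field_simp; ring
      rw [e1, e2]
      exact div_le_div_of_nonneg_right (hMM r hrp) (by positivity)
    have r0 : (0 : ℝ) < r := by positivity
    simp only [hρ]
    rw [div_le_div_iff₀ (by positivity) r0]
    push_cast
    linarith only [a2]
  obtain hmono : ∀ r r', 1 ≤ r → r ≤ r' → r' ≤ p + 1 → ρ r' ≤ ρ r := by
    intro r r' hr hrr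
    induction r', hrr using Nat.le_induction with
    | base => intro _; rfl
    | succ k hk ih => intro h; exact (hstep k (by omega) (by omega)).trans (ih (by omega))
  have hv : ∀ r < s, x ≤ m * x - r * x ∧ m * x - r * x ≤ N := fun r hr => by
    have h1 : (r : ℝ) ≤ p := by exact_mod_cast (by omega : r ≤ p)
    have h2 : (0 : ℝ) ≤ r := Nat.cast_nonneg r
    rw [hN, hm']
    constructor <;> nlinarith only [h1, h2, x0]
  have xs : 0 < x ^ (s - 1) := by positivity
  have hfs : (s.factorial : ℝ) ≤ (p + 1).factorial := by exact_mod_cast Nat.factorial_le hsm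
  have hms : m ^ (s - 1) ≤ m ^ (p + 1) := pow_le_pow_right₀ hm1 (by omega)
  have hNs : N ^ (s - 1) = m ^ (s - 1) * x ^ (s - 1) := by rw [hN, mul_pow]
  obtain hlo' : (s.factorial : ℝ) * ((p + 1).choose s * x ^ s) - K1 * x ^ (s - 1) ≤
      ∏ i ∈ range s, t i := by
    clear * - s p x K1 t c hprod hsm K N hlo m hK1 hfs hK hms hp xs hNs
    rw [hprod s (by omega)]
    have a1 := mul_le_mul_of_nonneg_left hlo (Nat.cast_nonneg (α := ℝ) s.factorial)
    obtain a2 : (s.factorial : ℝ) * K * m ^ (s - 1) ≤ K1 := by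
      rw [hK1]; gcongr
    have a3 := mul_le_mul_of_nonneg_right a2 xs.le
    rw [hNs] at a1
    linarith only [a1, a3]
  obtain s1 : ρ (s - 1) ≤ x + K1 := by
    clear * - ρ s x K1 t m N p hs2 x0 c k1' t0 hsm tz hN hmono tρ hv hm hlo' xs
    by_contra hh
    push Not at hh
    have a1 := prodL (s := s) (r0 := s - 1) (by omega) t (fun r => m * x - r * x) (κ := 0)
      (lam := ρ (s - 1) - x) (B := N) x0.le le_rfl (by linarith only [k1', hh]) (fun r hr => ⟨t0 r (by omega), by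
        rcases Nat.eq_zero_or_pos r with rfl | h0
        · simp [tz, hN]
        · have := hmono r (s - 1) h0 (by omega) (by omega)
          rw [tρ r h0, hN]
          nlinarith only [this, hh, k1', Nat.cast_nonneg (α := ℝ) r]⟩)
      (fun r hr => by simpa using hv r hr) (by
        rw [tρ (s - 1) (by omega), hN]
        have : (1 : ℝ) ≤ (s - 1 : ℕ) := by exact_mod_cast (by omega : 1 ≤ s - 1)
        nlinarith only [this, hh, k1'])
    rw [hm, prod_turan hsm] at a1
    linarith only [a1, hlo', hh, xs, a1, hlo', hh, xs, mul_pos_of_neg_of_neg (Mathlib.Tactic.Linarith.sub_neg_of_lt hh) (Mathlib.Tactic.Linarith.sub_neg_of_lt xs)]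
  obtain s2 : ∀ r, s ≤ r → r ≤ p + 1 → (x / (2 * m)) ^ r ≤ c r := by
    clear * - s p x m c hsm hs2 K N K1 t ρ x0 hp hm' hK K2 k1 k2 k5 hx hlo hv xs hfs hms hNs hlo' s1
      hmono tρ hN k1' x1 tc hc hp'
    intro r hr
    induction r, hr using Nat.le_induction with
    | base =>
      intro _
      have a1 : (1 : ℝ) ≤ (p + 1).choose s := by exact_mod_cast Nat.choose_pos hsm
      obtain ⟨q, rfl⟩ : ∃ q, s = q + 1 := ⟨s - 1, by omega⟩
      rw [Nat.add_sub_cancel] at hlo hNs xs hms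
      have a2 : (x / (2 * m)) ^ q ≤ x ^ q :=
        pow_le_pow_left₀ (by positivity) (div_le_self x0.le (by linarith only [hm', hp'])) q
      have a3 : x / (2 * m) ≤ x / 2 := div_le_div_of_nonneg_left x0.le (by norm_num) (by linarith only [hm', hp'])
      have a4 := mul_le_mul a2 a3 (by positivity) xs.le
      obtain a5 : K * m ^ q ≤ x / 2 := by
        have := mul_le_mul_of_nonneg_left hms (show 0 ≤ K by linarith only [hK])
        linarith only [k1, k2, k5, hx, this]
      have a6 := mul_le_mul_of_nonneg_right a5 xs.le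
      have a7 := mul_le_mul_of_nonneg_right a1 (show 0 ≤ x ^ (q + 1) by positivity)
      rw [hNs] at hlo
      rw [pow_succ] at a7 hlo ⊢
      linarith only [hlo, a4, a6, a7]
    | succ k hk ih =>
      intro h
      have a1 := hmono (s - 1) k (by omega) (by omega) (by omega)
      have a2 : (k : ℝ) ≤ p := by exact_mod_cast (by omega : k ≤ p)
      have a0 : (0 : ℝ) ≤ k := Nat.cast_nonneg k
      obtain a3 : x / 2 ≤ t k := by
        clear * - x t k N ρ tρ p s hs2 hk m hN K1 a1 s1 a0 a2 K2 k1' k2 k5 hx c hm' x1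
        rw [tρ k (by omega), hN]
        have : (k : ℝ) * ρ k ≤ p * (x + K1) :=
          (mul_le_mul_of_nonneg_left (a1.trans s1) a0).trans
            (mul_le_mul_of_nonneg_right a2 (by linarith only [k1', k2, k5, hx]))
        rw [hm'] at x1 ⊢
        linarith only [k1', x1, this]
      obtain a4 : x / (2 * m) ≤ t k / (k + 1) := by
        clear * - x m t k K1 K2 c k1' k2 k5 hx a3 p hm' a2
        rw [← div_div]
        exact div_le_div₀ (by linarith only [k1', k2, k5, hx, a3]) a3 (by positivity) (by linarith only [hm', a2])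
      rw [tc k (by omega), pow_succ, mul_comm (t k), mul_div_assoc]
      exact mul_le_mul (ih (by omega)) a4 (by positivity) (hc k (by omega)).le
  have cm := hc (p + 1) (by omega)
  obtain s3 : N ^ (p + 1) ≤ K0 * c (p + 1) := by
    clear * - N p K0 x m hK0 hN x0 hm1 c s2 hsm k0
    obtain e : N ^ (p + 1) = K0 * (x / (2 * m)) ^ (p + 1) := by
      rw [hK0, ← mul_pow, hN]; congr 1; field_simp
    rw [e]
    exact mul_le_mul_of_nonneg_left (s2 (p + 1) hsm le_rfl) (by linarith only [k0])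
  obtain s4 : t (p + 1) ≤ K2 := by
    clear * - t p K2 c ht cm m hm K K0 hK2 N s3 hK hhi hm' hp'
    simp only [ht]
    rw [div_le_iff₀ cm, ← hm, hK2]
    have := mul_le_mul_of_nonneg_left s3 (show 0 ≤ K by linarith only [hK])
    have := mul_le_mul_of_nonneg_left (hhi.trans this) (show 0 ≤ m + 1 by linarith only [hm', hp'])
    linarith only [this]
  obtain s5 : ∀ r ≤ p + 1, t r ≤ m * x - r * x + K2 := by
    clear * - p t m x K2 N tz hN k2 ρ hmono hρ hm hm' hp c s4 tρ hp'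
    intro r hr
    rcases Nat.eq_zero_or_pos r with rfl | h0
    · simp [tz, hN, k2]
    · have a1 := hmono r (p + 1) h0 hr le_rfl
      obtain a2 : x - K2 / m ≤ ρ (p + 1) := by
        simp only [hρ]
        rw [← hm, le_div_iff₀ (by linarith only [hm', hp']), sub_mul, div_mul_cancel₀ _ (by positivity), hN]
        linarith only [s4]
      have a3 : (r : ℝ) ≤ m := by rw [hm]; exact_mod_cast hr
      obtain a4 : (r : ℝ) * (K2 / m) ≤ K2 := by
        rw [← mul_div_assoc, div_le_iff₀ (by linarith only [hm', hp'])]; nlinarith only [a3, k2]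
      have a5 := mul_le_mul_of_nonneg_left (a2.trans a1) (Nat.cast_nonneg (α := ℝ) r)
      rw [tρ r h0, hN]
      linarith only [a4, a5]
  obtain s6 : N - x - K3 ≤ t 1 := by
    clear * - N x K3 t s m K2 p hs2 x0 k2 K1 c k1' k3 t0 hsm s5 hv k5 hx xN hN hm hm' hp hlo' hK3 xs
      hp'
    by_contra hh
    push Not at hh
    have a1 := prodL (s := s) (r0 := 1) (by omega) t (fun r => m * x - r * x) (κ := K2)
      (lam := N - x - t 1) (B := 2 * N) x0.le k2 (by linarith only [k1', k3, hh])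
      (fun r hr => ⟨t0 r (by omega), s5 r (by omega)⟩)
      (fun r hr => ⟨(hv r hr).1, by linarith only [k1', k5, hx, xN, hv, hr, (hv r hr).2]⟩) (by rw [hN]; simp)
    rw [hm, prod_turan hsm] at a1
    obtain a2 : (s : ℝ) * K2 * (2 * N) ^ (s - 1) ≤ m * K2 * (2 * m) ^ (p + 1) * x ^ (s - 1) := by
      clear * - s m p hm hsm hm' hs2 K2 N x hN k2 hp x0 hp'
      have b1 : (s : ℝ) ≤ m := by rw [hm]; exact_mod_cast hsm
      have b2 : (2 * m) ^ (s - 1) ≤ (2 * m) ^ (p + 1) := pow_le_pow_right₀ (by linarith only [hm', hp']) (by omega)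
      rw [hN, ← mul_assoc 2, mul_pow, ← mul_assoc]
      gcongr
    rw [hK3] at hh
    linarith only [a1, a2, hlo', hh, xs, a1, a2, hlo', hh, xs, mul_pos_of_neg_of_neg (Mathlib.Tactic.Linarith.sub_neg_of_lt hh) (Mathlib.Tactic.Linarith.sub_neg_of_lt xs)]
  obtain s7 : x - p * K3 ≤ t p := by
    clear * - ρ p hmono hp s t N tρ x K3 c s6 m hN hm'
    have a1 := hmono 1 p le_rfl hp (by omega)
    have a2 := tρ 1 le_rfl
    rw [tρ p hp]
    have a3 : ρ p ≤ x + K3 := by push_cast at a2; linarith only [s6, a1, a2]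
    have a4 := mul_le_mul_of_nonneg_left a3 (Nat.cast_nonneg (α := ℝ) p)
    rw [hN, hm']
    linarith only [a4]
  refine ⟨?_, ?_, s3.trans (mul_le_mul_of_nonneg_right (by linarith only [k1', k3, k4]) cm.le)⟩
  · have : t 1 = 2 * c 2 / N := by simp only [ht, c1]; norm_num
    linarith only [k0, k4, s6, this]
  · have e1 : ((p : ℝ) + 2) * c (p + 2) / c (p + 1) = t (p + 1) := by
      simp only [ht]; push_cast; ring
    have e2 : ((p : ℝ) + 1) * c (p + 1) / c p = t p := rfl
    rw [e1, e2, hN, hm']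
    have a1 := mul_le_mul_of_nonneg_left s4 (Nat.cast_nonneg (α := ℝ) p)
    have a2 := mul_le_mul_of_nonneg_left s7 (show (0 : ℝ) ≤ p + 1 by linarith only [hp'])
    obtain a3 : 0 ≤ (p : ℝ) * K3 := by
      have : 0 ≤ K3 := by linarith only [k1', k3]
      positivity
    linarith only [k1', k0, k2, k3, a1, a2, a3]

end Pool.Agent.Work.MP_001c0f_co
end

-- merged part: Pool.Agent.Work.MP_001c0f_co.LCore
section
set_option autoImplicit false
set_option linter.unusedSectionVars false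

open Finset

namespace Pool.Agent.Work.MP_001c0f_co

variable {V : Type} [Fintype V] [DecidableEq V] {ι : Type} [Fintype ι] [DecidableEq ι]

/-- an edge in every part whose ends are adjacent to everything outside the part -/
def Core (G : SimpleGraph V) (c : V → ι) (e : ι → Finset V) : Prop :=
  ∀ j, Cq G (e j) ∧ (e j).card = 2 ∧ ∀ v ∈ e j, c v = j ∧ ∀ u, c u ≠ j → G.Adj v u

variable {G : SimpleGraph V} {c : V → ι}

theorem exists_core {m : ℕ} (h : Eul G (2 * m + 1)) (hm : Fintype.card ι = m) (hm1 : 1 ≤ m)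
    {n : ℝ} (hn : n = Fintype.card V) (hbig : 96 * (m : ℝ) ^ 2 ≤ n)
    (hM : Mis G c ≤ n / (8 * m)) (hP : ∀ j, n / (2 * m) ≤ (pt c univ j).card) :
    ∃ e, Core G c e := by
  classical
  set U : ι → Finset V := fun j => univ.filter (fun v => c v = j ∧ ∀ u, c u ≠ j → G.Adj v u)
    with hU
  have mU : ∀ j v, v ∈ U j ↔ c v = j ∧ ∀ u, c u ≠ j → G.Adj v u := fun j v => by simp [hU]
  have hm' : (1 : ℝ) ≤ m := by exact_mod_cast hm1
  set y : ℝ := n / (8 * m) with hy
  have hny : n = 8 * m * y := by rw [hy]; field_simp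
  have hy12 : 12 * (m : ℝ) ≤ y := by
    rw [hy, le_div_iff₀ (by positivity)]; linarith only [hbig]
  have hPU : ∀ j, ((pt c univ j).card : ℝ) ≤ (U j).card + y := by
    intro j
    have h1 : ((pt c univ j \ U j).card : ℝ) ≤ Mis G c := by
      rw [card_eq_sum_ones, Nat.cast_sum]
      refine le_trans (sum_le_sum fun v hv => ?_)
        (sum_le_sum_of_subset_of_nonneg (subset_univ _) fun _ _ _ => Nat.cast_nonneg _)
      rw [mem_sdiff, mU, mem_pt] at hv
      obtain ⟨u, hu⟩ : ∃ u, c u ≠ j ∧ ¬ G.Adj v u := by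
        by_contra hh
        push Not at hh
        exact hv.2 ⟨hv.1.2, hh⟩
      exact_mod_cast card_pos.2 ⟨u, mem_mis.2 ⟨hv.1.2 ▸ hu.1, hu.2⟩⟩
    have h2 : ((pt c univ j).card : ℝ) ≤ (pt c univ j \ U j).card + (U j).card := by
      exact_mod_cast card_le_card_sdiff_add_card
    linarith only [hM, h1, h2]
  have hUy : ∀ j, 3 * y ≤ (U j).card := fun j => by
    have h1 := hP j
    have h2 : n / (2 * m) = 4 * y := by rw [hy]; field_simp; ring
    linarith only [h1, h2, hPU, hPU j]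
  have hUnb : ∀ j (τ : Finset V), (∀ w ∈ τ, c w ≠ j) → U j ⊆ nb G τ := fun j τ hτ u hu =>
    mem_nb.2 fun w hw => (((mU j u).1 hu).2 w (hτ w hw)).symm
  obtain ⟨σ, hσ, hσc⟩ := h.exists_facet
  have hfac : ∀ j, 2 ≤ (pt c σ j).card := by
    intro j
    by_contra hlt
    obtain ⟨v, hv, hv2⟩ : ∃ v ∈ σ, ∀ w ∈ σ.erase v, c w ≠ j := by
      rcases (pt c σ j).eq_empty_or_nonempty with h0 | ⟨v, hv⟩
      · obtain ⟨v, hv⟩ : σ.Nonempty := card_pos.1 (by omega)
        refine ⟨v, hv, fun w hw hwj => ?_⟩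
        have := mem_pt.2 ⟨mem_of_mem_erase hw, hwj⟩
        rw [h0] at this
        exact notMem_empty _ this
      · refine ⟨v, (mem_pt.1 hv).1, fun w hw hwj => (mem_erase.1 hw).1 ?_⟩
        exact card_le_one.1 (by omega) w (mem_pt.2 ⟨mem_of_mem_erase hw, hwj⟩) v hv
    have h1 := card_le_card (hUnb j _ hv2)
    rw [h.nb_two (hσ.mono (erase_subset _ _)) (by rw [card_erase_add_one hv, hσc])] at h1
    have h2 : ((U j).card : ℝ) ≤ 2 := by exact_mod_cast h1
    linarith only [hm', hy12, h2, hUy, hUy j]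
  have key : ∀ i, ∃ e : Finset V, Cq G e ∧ e.card = 2 ∧ e ⊆ U i := by
    intro i
    by_contra hno
    have hind : ∀ u ∈ U i, ∀ v ∈ U i, ¬ G.Adj u v := by
      intro u hu v hv huv
      refine hno ⟨{u, v}, ?_, card_pair huv.ne, insert_subset hu (singleton_subset_iff.2 hv)⟩
      exact (cq_singleton v).insert (mem_nb1.2 huv.symm)
    have h1 : 2 * (m - 1) ≤ (σ.filter (fun v => c v ∈ univ.erase i)).card := by
      rw [← sum_card_pt]
      have := card_nsmul_le_sum (univ.erase i) (fun j => (pt c σ j).card) 2 (fun j _ => hfac j)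
      rw [card_erase_of_mem (mem_univ i), card_univ, hm, smul_eq_mul] at this
      omega
    obtain ⟨κ, hκ, hκc⟩ := exists_subset_card_eq h1
    have hκq : Cq G κ := hσ.mono (hκ.trans (filter_subset _ _))
    have hUL : U i ⊆ nb G κ := hUnb i κ fun w hw => (mem_erase.1 (mem_filter.1 (hκ hw)).2).1
    obtain ⟨l2, l3⟩ := h.link3 hκq (by omega)
    have h2 := cc_split_ge (G := G) hUL 2
    have h3 : ∀ u ∈ U i, 4 ≤ cc G ((nb G κ \ U i) ∩ nb G {u}) 2 := by
      intro u hu
      have e : (nb G κ \ U i) ∩ nb G {u} = nb G (insert u κ) := by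
        rw [nb_insert]
        ext v
        simp only [mem_inter, mem_sdiff, mem_nb1]
        exact ⟨fun hh => ⟨hh.1.1, hh.2⟩, fun hh => ⟨⟨hh.1, fun hv => hind u hu v hv hh.2⟩, hh.2⟩⟩
      rw [e]
      exact h.link2 (hκq.insert (hUL hu)) (by rw [card_insert_nb (hUL hu)]; omega)
    have h4 := card_nsmul_le_sum _ _ _ h3
    have h5 := cc_nonneg (G := G) (nb G κ \ U i) (2 + 1)
    have h6 : ((U i).card : ℤ) * 4 ≤ 2 * ((nb G κ).card - 2) := by
      rw [nsmul_eq_mul] at h4
      norm_num at h2 h5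
      linarith only [l3, h4, h2, h5]
    set Z := (nb G κ).filter (fun v => c v ≠ i) with hZ
    have h7 : ((U i).card : ℤ) * Z.card ≤ 6 * ((nb G κ).card - 2) := by
      have a1 := handshake_cc (G := G) (nb G κ) 1
      have a2 : ∑ _u ∈ U i, (Z.card : ℤ) ≤ ∑ u ∈ nb G κ, cc G (nb G κ ∩ nb G {u}) 1 := by
        refine le_trans (sum_le_sum fun u hu => ?_)
          (sum_le_sum_of_subset_of_nonneg hUL fun _ _ _ => cc_nonneg _ _)
        rw [cc_one, Nat.cast_le]
        apply card_le_card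
        intro z hz
        rw [hZ, mem_filter] at hz
        exact mem_inter.2 ⟨hz.1, mem_nb1.2 (((mU i u).1 hu).2 z hz.2)⟩
      rw [sum_const, nsmul_eq_mul] at a2
      norm_num at a1
      linarith only [l2, a2, a1]
    have h8 : (nb G κ).card ≤ (pt c univ i).card + Z.card := by
      refine le_trans (card_le_card fun v hv => ?_) (card_union_le _ _)
      by_cases hvi : c v = i
      · exact mem_union_left _ (mem_pt.2 ⟨mem_univ _, hvi⟩)
      · exact mem_union_right _ (mem_filter.2 ⟨hv, hvi⟩)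
    have h9 : ((nb G κ).card : ℝ) ≤ n := by rw [hn]; exact_mod_cast card_le_univ _
    have b6 : ((U i).card : ℝ) * 4 ≤ 2 * ((nb G κ).card - 2) := by exact_mod_cast h6
    have b7 : ((U i).card : ℝ) * Z.card ≤ 6 * ((nb G κ).card - 2) := by exact_mod_cast h7
    have b8 : ((nb G κ).card : ℝ) ≤ (pt c univ i).card + Z.card := by exact_mod_cast h8
    have b1 := hUy i
    have b2 := hPU i
    have b3 : 2 * y ≤ Z.card := by linarith only [b6, b8, b1, b2]
    have b4 : 3 * y * (2 * y) ≤ ((U i).card : ℝ) * Z.card :=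
      mul_le_mul b1 b3 (by linarith only [hm', hy12]) (Nat.cast_nonneg _)
    linarith only [hbig, hm', hny, b7, b6, b1, hy12, b8, b2, mul_nonneg_of_nonpos_of_nonpos (Mathlib.Tactic.Linarith.sub_nonpos_of_le (Mathlib.Tactic.Linarith.natCast_nonneg ℝ m)) (Mathlib.Tactic.Linarith.sub_nonpos_of_le hm'), mul_nonneg_of_nonpos_of_nonpos (Mathlib.Tactic.Linarith.sub_nonpos_of_le (Mathlib.Tactic.Linarith.natCast_nonneg ℝ m)) (Mathlib.Tactic.Linarith.sub_nonpos_of_le b6), mul_nonneg_of_nonpos_of_nonpos (Mathlib.Tactic.Linarith.sub_nonpos_of_le (Mathlib.Tactic.Linarith.natCast_nonneg ℝ m)) (Mathlib.Tactic.Linarith.sub_nonpos_of_le b1), mul_nonneg_of_nonpos_of_nonpos (Mathlib.Tactic.Linarith.sub_nonpos_of_le (Mathlib.Tactic.Linarith.natCast_nonneg ℝ #(nb G κ))) (Mathlib.Tactic.Linarith.sub_nonpos_of_le hm'), mul_nonneg_of_nonpos_of_nonpos (Mathlib.Tactic.Linarith.sub_nonpos_of_le (Mathlib.Tactic.Linarith.natCast_nonneg ℝ #(nb G κ))) (Mathlib.Tactic.Linarith.sub_nonpos_of_le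 hy12), mul_nonneg_of_nonpos_of_nonpos (Mathlib.Tactic.Linarith.sub_nonpos_of_le (Mathlib.Tactic.Linarith.natCast_nonneg ℝ #(nb G κ))) (Mathlib.Tactic.Linarith.sub_nonpos_of_le b1), mul_nonneg_of_nonpos_of_nonpos (Mathlib.Tactic.Linarith.sub_nonpos_of_le (Mathlib.Tactic.Linarith.natCast_nonneg ℝ #(U i))) (Mathlib.Tactic.Linarith.sub_nonpos_of_le b6), mul_nonneg_of_nonpos_of_nonpos (Mathlib.Tactic.Linarith.sub_nonpos_of_le (Mathlib.Tactic.Linarith.natCast_nonneg ℝ #(U i))) (Mathlib.Tactic.Linarith.sub_nonpos_of_le b8), mul_nonneg_of_nonpos_of_nonpos (Mathlib.Tactic.Linarith.sub_nonpos_of_le (Mathlib.Tactic.Linarith.natCast_nonneg ℝ #(U i))) (Mathlib.Tactic.Linarith.sub_nonpos_of_le b1), mul_nonneg_of_nonpos_of_nonpos (Mathlib.Tactic.Linarith.sub_nonpos_of_le (Mathlib.Tactic.Linarith.natCast_nonneg ℝ #(U i))) (Mathlib.Tactic.Linarith.sub_nonpos_of_le b2)]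
  choose e he using key
  exact ⟨e, fun j => ⟨(he j).1, (he j).2.1, fun v hv => (mU j v).1 ((he j).2.2 hv)⟩⟩

end Pool.Agent.Work.MP_001c0f_co
end

-- merged part: Pool.Agent.Work.MP_001c0f_co.LEnd
section
set_option autoImplicit false
set_option linter.unusedSectionVars false

open Finset Polynomial

namespace Pool.Agent.Work.MP_001c0f_co

variable {V : Type} [Fintype V] [DecidableEq V] {ι : Type} [Fintype ι] [DecidableEq ι]
variable {G : SimpleGraph V} {c : V → ι} {e : ι → Finset V}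

namespace Core

variable (he : Core G c e)
include he

lemma cq (T : Finset ι) : Cq G (T.biUnion e) := by
  intro u hu v hv huv
  obtain ⟨i, -, hi⟩ := mem_biUnion.1 hu
  obtain ⟨j, -, hj⟩ := mem_biUnion.1 hv
  by_cases h : j = i
  · subst h; exact (he j).1 u hi v hj huv
  · exact ((he i).2.2 u hi).2 v (((he j).2.2 v hj).1 ▸ h)

lemma card_eq (T : Finset ι) : (T.biUnion e).card = 2 * T.card := by
  rw [card_biUnion, sum_congr rfl (fun j _ => (he j).2.1), sum_const, smul_eq_mul, mul_comm]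
  intro i _ j _ hij
  rw [Function.onFun, disjoint_left]
  intro v hi hj
  exact hij (((he i).2.2 v hi).1.symm.trans ((he j).2.2 v hj).1)

lemma mem_nb_iff (T : Finset ι) (v : V) :
    v ∈ nb G (T.biUnion e) ↔ c v ∉ T ∨ v ∈ nb G (univ.biUnion e) := by
  constructor
  · intro h
    by_cases hv : c v ∈ T
    · refine Or.inr (mem_nb.2 fun u hu => ?_)
      obtain ⟨i, -, hi⟩ := mem_biUnion.1 hu
      by_cases h2 : c v = i
      · exact mem_nb.1 h u (mem_biUnion.2 ⟨i, h2 ▸ hv, hi⟩)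
      · exact ((he i).2.2 u hi).2 v h2
    · exact Or.inl hv
  · rintro (h | h)
    · refine mem_nb.2 fun u hu => ?_
      obtain ⟨i, hiT, hi⟩ := mem_biUnion.1 hu
      exact ((he i).2.2 u hi).2 v fun h2 => h (h2 ▸ hiT)
    · refine mem_nb.2 fun u hu => mem_nb.1 h u ?_
      obtain ⟨i, -, hi⟩ := mem_biUnion.1 hu
      exact mem_biUnion.2 ⟨i, mem_univ _, hi⟩

lemma moebius {m : ℕ} (h : Eul G (2 * m + 1)) (hm : Fintype.card ι = m) :
    Fp G univ = ∑ J ∈ (univ : Finset ι).powerset,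
      C (kap G c (univ \ nb G (univ.biUnion e)) J : ℝ) * Bp J.card := by
  set Z := nb G (univ.biUnion e) with hZ
  set H : Finset ι → ℝ[X] := fun J =>
    ∑ σ ∈ (cl G univ).filter (fun σ => (σ \ Z).image c = J), X ^ σ.card with hH
  have h1 : ∀ J : Finset ι, Fp G (nb G (Jᶜ.biUnion e)) = ∑ J' ∈ J.powerset, H J' := by
    intro J
    rw [Fp, ← sum_fiberwise_of_maps_to (s := cl G (nb G (Jᶜ.biUnion e))) (t := J.powerset)
      (g := fun σ => (σ \ Z).image c)]
    · apply sum_congr rfl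
      intro J' hJ'
      apply sum_congr _ (fun _ _ => rfl)
      ext σ
      simp only [mem_filter, mem_cl, subset_univ, true_and]
      refine ⟨fun hh => ⟨hh.1.2, hh.2⟩, fun hh => ⟨⟨fun v hv => ?_, hh.1⟩, hh.2⟩⟩
      rw [he.mem_nb_iff]
      by_cases hv2 : v ∈ Z
      · exact Or.inr hv2
      · refine Or.inl (notMem_compl.2 (mem_powerset.1 hJ' ?_))
        rw [← hh.2]
        exact mem_image_of_mem c (mem_sdiff.2 ⟨hv, hv2⟩)
    · intro σ hσ
      rw [mem_powerset]
      intro j hj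
      obtain ⟨v, hv, rfl⟩ := mem_image.1 hj
      rw [mem_sdiff] at hv
      rcases (he.mem_nb_iff _ v).1 ((mem_cl.1 hσ).1 hv.1) with h2 | h2
      · exact notMem_compl.1 h2
      · exact absurd h2 hv.2
  have h2 : ∀ J : Finset ι, H J = C (kap G c (univ \ Z) J : ℝ) * Bp J.card := by
    intro J
    induction J using Finset.strongInduction with
    | H J ih =>
      have hJ : J.card ≤ m := hm ▸ card_le_univ J
      have w1 : Wp J.card (Fp G (nb G (Jᶜ.biUnion e))) :=
        h.wp (he.cq _) (by rw [he.card_eq, card_compl, hm]; omega)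
      have w2 : Wp J.card (H J) := by
        have := h1 J
        rw [← add_sum_erase _ _ (mem_powerset_self J)] at this
        rw [eq_sub_of_add_eq this.symm]
        refine w1.sub (Wp.sum _ _ fun J' hJ' => ?_)
        rw [mem_erase, mem_powerset] at hJ'
        rw [ih J' (Finset.ssubset_iff_subset_ne.2 ⟨hJ'.2, hJ'.1⟩)]
        exact (Wp_Bp _ _).mono (card_le_card hJ'.2)
      have hle : ∀ σ : Finset V, (σ \ Z).image c = J → J.card ≤ (σ \ Z).card := fun σ hσ =>
        hσ ▸ card_image_le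
      have w3 : X ^ J.card ∣ H J := dvd_sum fun σ hσ =>
        pow_dvd_pow _ ((hle σ (mem_filter.1 hσ).2).trans (card_le_card sdiff_subset))
      rw [w2.eq_Bp w3]
      congr 2
      simp only [hH, finsetSum_coeff, coeff_X_pow, kap]
      rw [sum_boole, sum_boole, filter_filter]
      push_cast
      congr 2
      ext σ
      simp only [mem_filter, mem_cl, subset_univ, true_and, subset_sdiff]
      constructor
      · rintro ⟨a1, a2, a3⟩
        have a4 : σ \ Z = σ := eq_of_subset_of_card_le sdiff_subset (a3 ▸ hle σ a2)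
        exact ⟨⟨Finset.sdiff_eq_self_iff_disjoint.1 a4, a1⟩, a3.symm, a4 ▸ a2⟩
      · rintro ⟨⟨a1, a2⟩, a3, a4⟩
        exact ⟨a2, by rw [Finset.sdiff_eq_self_iff_disjoint.2 a1, a4], a3.symm⟩
  have h3 := h1 univ
  rw [compl_univ, biUnion_empty, nb_empty] at h3
  rw [h3]
  exact sum_congr rfl fun J _ => h2 J

end Core

/-- the face numbers of the conjectured extremal sphere -/
noncomputable def Tg (m N k : ℕ) : ℝ := ∑ s ∈ range (m + 1), Eb m N s * (Bp s).coeff k

/-- the structure of the extremal spheres -/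
def Struct (G : SimpleGraph V) (ι : Type) [DecidableEq ι] (m : ℕ) : Prop :=
  ∃ (c : V → ι) (j0 : ι), (∀ u v, c u ≠ c v → G.Adj u v) ∧
    (∀ j, ∃ τ, Cq G τ ∧ τ.card + (if j = j0 then 3 else 2) = 2 * m + 1 ∧
      nb G τ = pt c univ j) ∧
    ∀ j, (pt c univ j).card = (Fintype.card V - 2) / m + (if j = j0 then 2 else 0) ∨
      (pt c univ j).card = (Fintype.card V - 2 + m - 1) / m + (if j = j0 then 2 else 0)

theorem endgame {m : ℕ} (h : Eul G (2 * m + 1)) (hm : Fintype.card ι = m) (hm2 : 2 ≤ m)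
    (he : Core G c e) {k : ℕ} (hk1 : 2 ≤ k) (hk2 : k ≤ 2 * m + 1) :
    (cc G univ k : ℝ) ≤ Tg m (Fintype.card V - 2) k ∧
      ((cc G univ k : ℝ) = Tg m (Fintype.card V - 2) k → Struct G ι m) := by
  classical
  have : Nonempty ι := Fintype.card_pos_iff.1 (by omega)
  have hF := congrArg (fun P => P.coeff k) (he.moebius h hm)
  set Z := nb G (univ.biUnion e) with hZ
  have hZ2 : Z.card = 2 := h.nb_two (he.cq _) (by rw [he.card_eq, card_univ, hm])
  set A := univ \ Z with hA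
  set a : ι → ℕ := fun j => (pt c A j).card with ha
  have hsum : ∑ j, a j = Fintype.card V - 2 := by
    rw [sum_card_pt, filter_true_of_mem (fun _ _ => mem_univ _), hA,
      card_sdiff_of_subset (subset_univ _), card_univ, hZ2]
  have heA : ∀ j, e j ⊆ pt c A j := fun j v hv =>
    mem_pt.2 ⟨mem_sdiff.2 ⟨mem_univ _, fun hz =>
      not_mem_of_mem_nb hz (mem_biUnion.2 ⟨j, mem_univ _, hv⟩)⟩, ((he j).2.2 v hv).1⟩
  have ha1 : ∀ j, 1 ≤ a j := fun j => by
    have := card_le_card (heA j)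
    rw [(he j).2.1] at this
    exact le_trans (by norm_num) this
  simp only [Fp_coeff] at hF
  rw [sum_powerset, card_univ, hm, finsetSum_coeff] at hF
  have hF' : (cc G univ k : ℝ) = ∑ s ∈ range (m + 1),
      (∑ J ∈ powersetCard s univ, (kap G c A J : ℝ)) * (Bp s).coeff k := by
    rw [hF]
    apply sum_congr rfl
    intro s _
    rw [finsetSum_coeff, sum_mul]
    apply sum_congr rfl
    intro J hJ
    rw [coeff_C_mul, (mem_powersetCard.1 hJ).2]
  have b1 : ∀ s, ∑ J ∈ powersetCard s univ, (kap G c A J : ℝ) ≤ es univ s (fun j => (a j : ℝ)) :=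
    fun s => sum_le_sum fun J _ => kap_le J A
  have b2 : ∀ s, es univ s (fun j => (a j : ℝ)) ≤ Eb m (Fintype.card V - 2) s := fun s => by
    have := (es_le_Eb s a).1
    rwa [hm, hsum] at this
  have b3 : ∀ s ∈ range (m + 1), (∑ J ∈ powersetCard s univ, (kap G c A J : ℝ)) * (Bp s).coeff k ≤
      Eb m (Fintype.card V - 2) s * (Bp s).coeff k := fun s _ =>
    mul_le_mul_of_nonneg_right ((b1 s).trans (b2 s)) (Bp_nonneg _ _)
  refine ⟨hF' ▸ sum_le_sum b3, fun heq => ?_⟩
  rw [hF', Tg, sum_eq_sum_iff_of_le b3] at heq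
  obtain ⟨s, hs1, hs2, hs3, hs4⟩ : ∃ s, 2 ≤ s ∧ s ≤ m ∧ s ≤ k ∧ k ≤ 2 * s + 1 :=
    ⟨max 2 (k / 2), by omega, by omega, by omega, by omega⟩
  have c1 := mul_right_cancel₀ (Bp_pos hs3 hs4).ne' (heq s (mem_range.2 (by omega)))
  have hbal : Bal a := (es_le_Eb s a).2 ha1 hs1 (by omega) (by
    rw [hm, hsum]; linarith only [c1, b1, b2, b1 s, b2 s])
  have c2 : ∀ J ∈ powersetCard s univ, (kap G c A J : ℝ) = ∏ j ∈ J, (a j : ℝ) :=
    (sum_eq_sum_iff_of_le fun J _ => kap_le J A).1 (le_antisymm (b1 s) (c1 ▸ b2 s))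
  have hcross : ∀ u ∈ A, ∀ v ∈ A, c u ≠ c v → G.Adj u v := by
    intro u hu v hv huv
    obtain ⟨J, hJ1, -, hJ2⟩ := exists_subsuperset_card_eq (n := s)
      (subset_univ ({c u, c v} : Finset ι)) (by rw [card_pair huv]; omega)
      (by rw [card_univ]; omega)
    have d1 := kap_pen (G := G) (c := c) A (J := J) (i := c u) (l := c v) (hJ1 (by simp))
      (mem_erase.2 ⟨huv.symm, hJ1 (by simp)⟩)
    rw [c2 J (mem_powersetCard.2 ⟨subset_univ _, hJ2⟩)] at d1
    have d2 : 0 < ∏ j ∈ (J.erase (c u)).erase (c v), ((pt c A j).card : ℝ) :=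
      prod_pos fun j _ => by exact_mod_cast ha1 j
    have d3 : ∀ w ∈ pt c A (c u),
        0 ≤ ((pt c A (c v)).card : ℝ) - (pt c (A ∩ nb G {w}) (c v)).card := fun w _ =>
      sub_nonneg.2 (Nat.cast_le.2 (card_le_card (pt_mono inter_subset_left _)))
    have d4 := single_le_sum d3 (mem_pt.2 ⟨hu, rfl⟩)
    have d5 : ((pt c A (c v)).card : ℝ) ≤ (pt c (A ∩ nb G {u}) (c v)).card := by
      by_contra hlt
      have := mul_pos (lt_of_lt_of_le (sub_pos.2 (not_le.1 hlt)) d4) d2
      linarith only [d1, this]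
    have d6 := eq_of_subset_of_card_le (pt_mono (c := c) (inter_subset_left (s₁ := A)
      (s₂ := nb G {u})) (c v)) (by exact_mod_cast d5)
    have d7 : v ∈ pt c (A ∩ nb G {u}) (c v) := d6 ▸ mem_pt.2 ⟨hv, rfl⟩
    exact mem_nb1.1 (mem_inter.1 (mem_pt.1 d7).1).2
  obtain ⟨j0, hj0⟩ : ∃ j0, ∀ j, j ≠ j0 → ∀ t ⊆ pt c A j, Cq G t → t.card ≠ 3 := by
    by_contra hh
    push Not at hh
    obtain ⟨i, -, t, ht1, ht2, ht3⟩ := hh (Classical.arbitrary ι)
    obtain ⟨j, hji, t', ht1', ht2', ht3'⟩ := hh i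
    have f1 : t' ⊆ nb G t := fun v hv => mem_nb.2 fun u hu =>
      hcross u (mem_pt.1 (ht1 hu)).1 v (mem_pt.1 (ht1' hv)).1
        (by rw [(mem_pt.1 (ht1 hu)).2, (mem_pt.1 (ht1' hv)).2]; exact hji.symm)
    have f2 : t ∪ t' ⊆ nb G (({i, j}ᶜ : Finset ι).biUnion e) := fun v hv => by
      rw [he.mem_nb_iff, notMem_compl]
      rcases mem_union.1 hv with hv | hv
      · exact Or.inl (by simp [(mem_pt.1 (ht1 hv)).2])
      · exact Or.inl (by simp [(mem_pt.1 (ht1' hv)).2])
    have f3 := h.K' (he.cq _) (mem_cl.2 ⟨f2, ht2.union ht2' f1⟩)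
    rw [he.card_eq, card_compl, hm, card_pair hji.symm, card_union_of_subset_nb f1] at f3
    omega
  have hS : ∀ j v, v ∈ nb G (({j}ᶜ : Finset ι).biUnion e) ↔ c v = j ∨ v ∈ Z := fun j v => by
    rw [he.mem_nb_iff, notMem_compl, mem_singleton]
  have hSc : ∀ j, (({j}ᶜ : Finset ι).biUnion e).card + 3 = 2 * m + 1 := fun j => by
    rw [he.card_eq, card_compl, hm, card_singleton]; omega
  have hZZ : ∀ p ∈ Z, ∀ q ∈ Z, ¬ G.Adj p q := by
    intro p hp q hq hpq
    have f1 : q ∈ nb G (insert p (univ.biUnion e)) := by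
      rw [nb_insert]; exact mem_inter.2 ⟨hq, mem_nb1.2 hpq⟩
    have := h.K _ (((he.cq _).insert hp).insert f1)
    rw [card_insert_nb f1, card_insert_nb hp, he.card_eq, card_univ, hm] at this
    omega
  have hZA : ∀ v ∈ A, c v ≠ j0 → ∀ p ∈ Z, G.Adj v p := by
    clear * - V A ι c j0 G e Z hS he m hSc h hj0 hZ2 this
    intro v hv hvj
    have f0 := (hS (c v) v).2 (Or.inl rfl)
    set τ := insert v (({c v}ᶜ : Finset ι).biUnion e) with hτ
    have f1 : Cq G τ := (he.cq _).insert f0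
    have f1c : τ.card + 2 = 2 * m + 1 := by rw [card_insert_nb f0, ← hSc (c v)]
    have f2 := h.link2 f1 f1c
    have f3 := cc_split_le (G := G) (inter_subset_left (s₁ := nb G τ) (s₂ := Z)) 1
    have f4 : cc G (nb G τ \ (nb G τ ∩ Z)) (1 + 1) = 0 := by
      unfold cc
      rw [Nat.cast_eq_zero, card_eq_zero, eq_empty_iff_forall_notMem]
      intro ρ hρ
      rw [mem_clj] at hρ
      have g1 : v ∈ nb G ρ := mem_nb.2 fun u hu =>
        (mem_nb.1 (mem_sdiff.1 (hρ.1 hu)).1 v (mem_insert_self _ _)).symm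
      refine hj0 (c v) hvj (insert v ρ) (insert_subset (mem_pt.2 ⟨hv, rfl⟩) fun u hu => ?_)
        (hρ.2.1.insert g1) (by rw [card_insert_nb g1, hρ.2.2])
      have g2 := mem_sdiff.1 (hρ.1 hu)
      have g3 : u ∉ Z := fun hz => g2.2 (mem_inter.2 ⟨g2.1, hz⟩)
      have g4 := g2.1
      rw [hτ, nb_insert, mem_inter, hS] at g4
      exact mem_pt.2 ⟨mem_sdiff.2 ⟨mem_univ _, g3⟩, g4.1.resolve_right g3⟩
    have f5 : ∀ w ∈ nb G τ ∩ Z, cc G (nb G τ ∩ nb G {w}) 1 = 2 := fun w hw => by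
      rw [cc_one, ← nb_insert, h.nb_two (f1.insert (mem_inter.1 hw).1)
        (by rw [card_insert_nb (mem_inter.1 hw).1]; omega)]
      rfl
    rw [f4, sum_congr rfl f5, sum_const, nsmul_eq_mul] at f3
    have f6 : Z.card ≤ (nb G τ ∩ Z).card := by
      rw [hZ2]
      norm_num at f3
      have : (2 : ℤ) ≤ (nb G τ ∩ Z).card := by linarith only [f2, f3]
      exact_mod_cast this
    have f7 := eq_of_subset_of_card_le (inter_subset_right (s₁ := nb G τ) (s₂ := Z)) f6
    intro p hp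
    rw [← f7] at hp
    exact mem_nb.1 (mem_inter.1 hp).1 v (mem_insert_self _ _)
  have hmA : ∀ v, v ∈ A ↔ v ∉ Z := fun v => by simp [hA]
  set c' : V → ι := fun v => if v ∈ Z then j0 else c v with hc'
  have p0 : pt c' univ j0 = pt c A j0 ∪ Z := by
    ext v
    by_cases hv : v ∈ Z <;> simp [mem_pt, hc', hv, hmA]
  have p1 : ∀ j, j ≠ j0 → pt c' univ j = pt c A j := fun j hj => by
    ext v
    by_cases hv : v ∈ Z <;> simp [mem_pt, hc', hv, hmA, hj.symm]
  refine ⟨c', j0, ?_, ?_, ?_⟩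
  · intro u v huv
    by_cases hu : u ∈ Z <;> by_cases hv : v ∈ Z <;> simp only [hc', hu, hv, if_true, if_false] at huv
    · exact absurd rfl huv
    · exact (hZA v ((hmA v).2 hv) (Ne.symm huv) u hu).symm
    · exact hZA u ((hmA u).2 hu) huv v hv
    · exact hcross u ((hmA u).2 hu) v ((hmA v).2 hv) huv
  · intro j
    by_cases hj : j = j0
    · subst hj
      refine ⟨_, he.cq {j}ᶜ, by rw [if_pos rfl, hSc], ?_⟩
      ext v
      rw [hS, p0, mem_union, mem_pt, hmA]
      clear * - ι c v j V Z; tauto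
    · obtain ⟨p, hp⟩ : Z.Nonempty := card_pos.1 (by omega)
      have f0 := (hS j p).2 (Or.inr hp)
      refine ⟨_, (he.cq _).insert f0, by rw [if_neg hj, card_insert_nb f0, ← hSc j], ?_⟩
      ext v
      rw [nb_insert, mem_inter, hS, p1 j hj, mem_pt, hmA, mem_nb1]
      constructor
      · rintro ⟨g1, g2⟩
        have g3 : v ∉ Z := fun hz => hZZ p hp v hz g2
        exact ⟨g3, g1.resolve_right g3⟩
      · rintro ⟨g1, g2⟩
        exact ⟨Or.inl g2, (hZA v ((hmA v).2 g1) (g2 ▸ hj) p hp).symm⟩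
  · intro j
    obtain ⟨s1, s2⟩ := hbal.spec
    rw [hsum, hm] at s1 s2
    have e1 : (pt c' univ j).card = a j + (if j = j0 then 2 else 0) := by
      split_ifs with hj
      · subst hj
        rw [p0, card_union_of_disjoint, hZ2]
        exact disjoint_left.2 fun v hv => (hmA v).1 (mem_pt.1 hv).1
      · rw [p1 j hj, add_zero]
    rw [e1]
    rcases s1 j with g | g
    · exact Or.inl (by rw [g])
    · refine Or.inr ?_
      have g1 : 0 < (Fintype.card V - 2) % m := s2 ▸ card_pos.2 ⟨j, mem_filter.2 ⟨mem_univ _, g⟩⟩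
      have g2 := Nat.div_add_mod (Fintype.card V - 2) m
      have g3 := Nat.mod_lt (Fintype.card V - 2) (show 0 < m by omega)
      rw [g]
      congr 1
      symm
      apply Nat.div_eq_of_lt_le
      · rw [add_mul, one_mul, mul_comm]; omega
      · rw [add_mul, add_mul, one_mul, mul_comm]; omega

end Pool.Agent.Work.MP_001c0f_co
end
end

-- merged part: Pool.Agent.Work.MP_001c0f_co.LArith
section
set_option autoImplicit false

namespace Pool.Agent.Work.MP_001c0f_co

lemma combine {Ncs NeS NeP NeP' MiN ISN Se Sp Spen ω Ncm ck cm i2 m2 ε τ Kτ ρ νk νk1 νq μk μk1 lam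
    A0 A1 Cc m b k3 : ℝ} (ρ0 : 0 ≤ ρ) (a0 : 0 ≤ A0) (m0 : 0 ≤ m) (k0 : 0 ≤ k3)
    (U : Ncs ≤ NeS - MiN * μk + ISN * (A0 * νk + i2 + ε) + Se + ω * (i2 + ω * τ))
    (Lo : ISN * (lam - m * m2) + (Sp - ω * (m * m2)) ≤ Ncm)
    (D1 : NeP' + k3 * ck - Kτ ≤ Ncs) (E1 : NeP - NeP' ≤ A1 * νk1 * 2)
    (E2 : A1 * μk1 * ω ≤ NeP - NeS) (L4 : Cc * μk1 - b * (m * m2) ≤ ck)
    (D2 : Ncm ≤ (m + 2) * cm + Kτ) (L2 : cm ≤ ρ * νk1 + i2)
    (Ψ : ρ * Se - A0 * Sp + Spen * νq ≤ ω * (A1 * (ρ * νk1)))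
    (Id : 2 * A1 + (m + 2) * A0 = k3 * Cc) :
    ρ * μk * MiN + νq * Spen ≤ (ω * A1 + k3 * Cc) * (ρ * (νk1 - μk1)) +
      ISN * (A0 * (ρ * νk - lam) + ρ * (i2 + ε) + A0 * (m * m2)) + ρ * (ω * i2 + ω * (ω * τ)) +
      A0 * m * (ω * m2) + ρ * k3 * b * m * m2 + ρ * Kτ + A0 * ((m + 2) * i2 + Kτ) := by
  have h1 := mul_le_mul_of_nonneg_left U ρ0
  have h2 := mul_le_mul_of_nonneg_left Lo a0
  have h3 := mul_le_mul_of_nonneg_left D1 ρ0
  have h4 := mul_le_mul_of_nonneg_left E1 ρ0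
  have h5 := mul_le_mul_of_nonneg_left E2 ρ0
  have h6 := mul_le_mul_of_nonneg_left L4 (mul_nonneg ρ0 k0)
  have h7 := mul_le_mul_of_nonneg_left D2 a0
  have h8 := mul_le_mul_of_nonneg_left L2 (mul_nonneg a0 (show 0 ≤ m + 2 by linarith only [m0]))
  have h9 := congrArg (fun t => t * (ρ * νk1)) Id
  linarith only [Ψ, h1, h2, h3, h4, h5, h6, h7, h8, h9]

lemma bound_rhs {ISN ω i2 m2 ε τ Kτ ρ d1 d2 A0 A1 Cc m b k3 K β : ℝ}
    (ρ0 : 0 ≤ ρ) (ρ1 : ρ ≤ 1) (a0 : 0 ≤ A0) (a0' : A0 ≤ b) (a1' : A1 ≤ b)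
    (c0' : Cc ≤ b) (m0 : 0 ≤ m) (k0 : 0 ≤ k3) (k1 : k3 ≤ m + 1) (ω0 : 0 ≤ ω)
    (I1 : ISN ≤ K) (K0 : 0 ≤ K) (ε0 : 0 ≤ ε)
    (i0 : 0 ≤ i2) (i1 : i2 ≤ ε) (n0 : 0 ≤ m2) (n1 : m2 ≤ ε) (t0 : 0 ≤ Kτ) (t1 : Kτ ≤ ε)
    (w0 : 0 ≤ τ) (w1 : ω * i2 ≤ ε) (w2 : ω * m2 ≤ ε) (w3 : ω * (ω * τ) ≤ ε)
    (β1 : β ≤ 3 * ε) (β2 : ω * β ≤ (4 * K + 1) * ε)
    (d0 : 0 ≤ d1) (d1' : d1 ≤ m * β) (e0 : 0 ≤ d2) (e1 : d2 ≤ m * (β + 2 * ε)) :
    (ω * A1 + k3 * Cc) * (ρ * d1) +
      ISN * (A0 * d2 + ρ * (i2 + ε) + A0 * (m * m2)) + ρ * (ω * i2 + ω * (ω * τ)) +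
      A0 * m * (ω * m2) + ρ * k3 * b * m * m2 + ρ * Kτ + A0 * ((m + 2) * i2 + Kτ) ≤
    (b * m * (4 * K + 1 + 3 * (m + 1)) + K * (6 * b * m + 2) + 3 + b * m + (m + 1) * b * m +
      b * (m + 3)) * ε := by
  have b0 : 0 ≤ b := a0.trans a0'
  have t1 : (ω * A1 + k3 * Cc) * (ρ * d1) ≤ (ω * b + (m + 1) * b) * (1 * (m * β)) := by
    clear * - k3 Cc m b c0' k0 k1 b0 ω A1 ρ d1 β a1' ω0 ρ1 d1' d0 ρ0 m0
    have : k3 * Cc ≤ (m + 1) * b :=
      (mul_le_mul_of_nonneg_left c0' k0).trans (mul_le_mul_of_nonneg_right k1 b0)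
    gcongr
  have t1' : (ω * b + (m + 1) * b) * (1 * (m * β)) ≤
      b * m * ((4 * K + 1) * ε + (m + 1) * (3 * ε)) := by
    have e : (ω * b + (m + 1) * b) * (1 * (m * β)) = b * m * (ω * β + (m + 1) * β) := by ring
    rw [e]; gcongr
  have t2 : ISN * (A0 * d2 + ρ * (i2 + ε) + A0 * (m * m2)) ≤
      K * (b * (m * (3 * ε + 2 * ε)) + 1 * (ε + ε) + b * (m * ε)) := by
    clear * - d2 m ε β e1 β1 m0 ISN K A0 ρ i2 m2 b I1 a0' e0 b0 ρ1 i1 i0 ε0 n1 n0 a0 ρ0 K0
    have : d2 ≤ m * (3 * ε + 2 * ε) := e1.trans (by gcongr)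
    gcongr
  have t3 : ρ * (ω * i2 + ω * (ω * τ)) ≤ 1 * (ε + ε) := by gcongr
  have t4 : A0 * m * (ω * m2) ≤ b * m * ε := by gcongr
  have t5 : ρ * k3 * b * m * m2 ≤ 1 * (m + 1) * b * m * ε := by clear * - ρ k3 b m m2 ε ρ1 k1 k0 b0 m0 n1 n0; gcongr
  have t6 : ρ * Kτ ≤ 1 * ε := by gcongr
  have t7 : A0 * ((m + 2) * i2 + Kτ) ≤ b * ((m + 2) * ε + ε) := by gcongr
  linarith only [t1, t1', t2, t3, t4, t5, t6, t7]

lemma pen_le {b B p lam y : ℝ} {m : ℕ} (y0 : 0 < y) (l0 : 0 < lam) (b0 : 0 ≤ b) (hb : b ≤ B)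
    (p0 : 0 ≤ p) (hp : B ≤ y → y ^ m ≤ p) :
    b ≤ (1 / y + 1 / lam) * (B * b) + lam / y ^ m * p := by
  have h0 : 0 ≤ B * b := mul_nonneg (b0.trans hb) b0
  have h1 : 0 ≤ 1 / y * (B * b) := by positivity
  have h2 : 0 ≤ 1 / lam * (B * b) := by positivity
  have h3 : 0 ≤ lam / y ^ m * p := by positivity
  rcases le_total B y with h | h
  · have h4 : lam ≤ lam / y ^ m * p := by
      rw [div_mul_eq_mul_div, le_div_iff₀ (by positivity)]
      exact mul_le_mul_of_nonneg_left (hp h) l0.le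
    rcases le_total b lam with h5 | h5
    · linarith only [h1, h2, h4, h5]
    · have : b ≤ 1 / lam * (B * b) := by
        rw [one_div, inv_mul_eq_div, le_div_iff₀ l0]; linarith only [b0, hb, h5, mul_nonneg_of_nonpos_of_nonpos (Mathlib.Tactic.Linarith.sub_nonpos_of_le b0) (Mathlib.Tactic.Linarith.sub_nonpos_of_le hb), mul_nonneg_of_nonpos_of_nonpos (Mathlib.Tactic.Linarith.sub_nonpos_of_le b0) (Mathlib.Tactic.Linarith.sub_nonpos_of_le h5)]
      linarith only [l0, h1, h4, this]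
  · have : b ≤ 1 / y * (B * b) := by
      rw [one_div, inv_mul_eq_div, le_div_iff₀ y0]; linarith only [b0, h, mul_nonneg_of_nonpos_of_nonpos (Mathlib.Tactic.Linarith.sub_nonpos_of_le b0) (Mathlib.Tactic.Linarith.sub_nonpos_of_le h)]
    linarith only [h2, h3, this]

end Pool.Agent.Work.MP_001c0f_co
end

-- merged part: Pool.Agent.Work.MP_001c0f_co.LSecond
section
set_option autoImplicit false
set_option linter.unusedSectionVars false

open Finset

namespace Pool.Agent.Work.MP_001c0f_co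

lemma choose_id {q k : ℕ} (hk : k ≤ q) :
    2 * ((q + 1).choose (k + 1) : ℝ) + ((q + 2 : ℕ) + 2) * ((q + 1).choose k : ℝ) =
      (k + 3) * ((q + 2).choose (k + 1) : ℝ) := by
  have h1 := Nat.choose_succ_right_eq (q + 1) k
  have h2 : ((q + 1).choose (k + 1) : ℝ) * (k + 1) = (q + 1).choose k * (q + 1 - k) := by
    have := congrArg (Nat.cast : ℕ → ℝ) h1
    push_cast [Nat.cast_sub (show k ≤ q + 1 by omega)] at this
    exact this
  rw [Nat.choose_succ_succ' (q + 1) k]
  push_cast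
  linarith only [h2]

theorem second_order (q : ℕ) {K δ : ℝ} (hK : 1 ≤ K) (hδ : 0 < δ) : ∃ N0 : ℝ,
    ∀ (V : Type) [Fintype V] [DecidableEq V] (G : SimpleGraph V) (N : ℝ) (k : ℕ)
      (c : V → Fin (q + 2)), N = Fintype.card V → N0 ≤ N → k ≤ q →
      Ind G c ≤ K * N → Mis G c ≤ K * N →
      (∀ j, (((pt c univ j).card : ℝ) - N / (q + 2 : ℕ)) ^ 2 ≤ K * N) →
      (∀ a : Fin (q + 2) → ℕ, ∑ j, a j = Fintype.card V - 2 →
        es univ (k + 2) (fun j => (a j : ℝ)) + (k + 3) * cc G univ (k + 1) - K * N ^ k ≤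
          cc G univ (k + 2)) →
      (cc G univ (q + 3) : ℝ) ≤ ((q + 2 : ℕ) + 2) * cc G univ (q + 2) + K * N ^ (q + 1) →
      ∃ c' : V → Fin (q + 2), Mis G c' ≤ δ * N ∧
        ∀ j, N / (2 * (q + 2 : ℕ)) ≤ (pt c' univ j).card := by
  classical
  set m : ℝ := ((q + 2 : ℕ) : ℝ) with hm
  have m2 : 2 ≤ m := by rw [hm]; exact_mod_cast (by omega : 2 ≤ q + 2)
  set b : ℝ := 2 ^ (q + 2) with hb
  have b0 : 0 < b := by positivity
  set y : ℝ := 1 / (4 * m) with hy
  have y0 : 0 < y := by positivity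
  have ym : 1 / m = 4 * y := by rw [hy]; field_simp
  have y1 : y ≤ 1 / 8 := by rw [hy]; exact one_div_le_one_div_of_le (by norm_num) (by linarith only [m2])
  set C1 : ℝ := b * m * (4 * K + 1 + 3 * (m + 1)) + K * (6 * b * m + 2) + 3 + b * m +
    (m + 1) * b * m + b * (m + 3) with hC1
  have K0 : 0 ≤ K := by linarith only [hK, y0, y1]
  have C10 : 0 < C1 := by positivity
  set C2 : ℝ := C1 / y ^ (q + 1) with hC2
  have C20 : 0 < C2 := by positivity
  set C3 : ℝ := 2 * (m + 2) + 1 + m + K * m with hC3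
  have C30 : 0 < C3 := by positivity
  set lam : ℝ := δ * y ^ (q + 2) / (4 * m * C3) with hlam
  have l0 : 0 < lam := by positivity
  set C4 : ℝ := m ^ 2 * C2 + 2 * m * ((1 / y + 1 / lam) * C2) + 1 with hC4
  have C40 : 0 < C4 := by
    have h1 : 0 ≤ m := by linarith only [m2]
    exact add_pos_of_nonneg_of_pos (add_nonneg (mul_nonneg (sq_nonneg m) C20.le) (mul_nonneg
      (mul_nonneg zero_le_two h1) (mul_nonneg (add_nonneg (one_div_nonneg.2 y0.le)
      (one_div_nonneg.2 l0.le)) C20.le))) one_pos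
  set ε : ℝ := min (y / 2) (δ / (2 * C4)) with hε
  have ε0 : 0 < ε := lt_min (half_pos y0) (div_pos hδ (mul_pos two_pos C40))
  have ε1 : ε ≤ y / 2 := min_le_left _ _
  have ε2 : C4 * ε ≤ δ / 2 := by
    have := min_le_right (y / 2) (δ / (2 * C4))
    rw [← hε, le_div_iff₀ (mul_pos two_pos C40)] at this
    linarith only [this]
  have ε3 : ε ≤ 1 := by linarith only [ε1, y1]
  have l1 : 2 * m * (lam / y ^ (q + 2) * C3) = δ / 2 := by rw [hlam]; field_simp; norm_num
  clear_value ε lam C3 C2 C4 b y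
  refine ⟨4 * K ^ 2 / ε ^ 4, ?_⟩
  intro V _ _ G N k c hN hN0 hk hI hM hP hD1 hD2
  have N0 : 0 < N := lt_of_lt_of_le (by positivity) hN0
  set τ : ℝ := 1 / N with hτ
  have τ0 : 0 < τ := by positivity
  have τN : ∀ X : ℝ, X / N = X * τ := fun X => by rw [hτ]; field_simp
  have τ1 : 4 * K ^ 2 * τ ≤ ε ^ 4 := by
    rw [← τN, div_le_iff₀ N0, mul_comm (ε ^ 4), ← div_le_iff₀ (by positivity)]; exact hN0
  have ε4 : ε ^ 2 ≤ ε := by nlinarith only [ε0, ε3]
  have τ2 : K * τ ≤ (ε ^ 2) ^ 2 := by clear * - K τ ε N τ1 hK τ0; nlinarith only [τ1, hK, τ0, mul_pos τ0 (show 0 < K by linarith)]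
  have τ3 : K * τ ≤ ε := by nlinarith only [τ2, ε4, ε0, ε3, sq_nonneg ε]
  have τ4 : τ ≤ ε := by nlinarith only [τ3, hK, τ0]
  set W := univ.filter (fun v => ε * N < (ind G c v).card + (mis G c v).card) with hW
  set ω : ℝ := (W.card : ℝ) with hω
  have ω0 : 0 ≤ ω := Nat.cast_nonneg _
  have hW' : ∀ v, v ∉ W → ((ind G c v).card : ℝ) + (mis G c v).card ≤ ε * N := fun v hv => by
    simpa [hW] using hv
  have ω1 : ω * ε ≤ 2 * K := by
    have a1 := card_nsmul_le_sum W (fun v => ((ind G c v).card : ℝ) + (mis G c v).card) (ε * N)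
      fun v hv => (mem_filter.1 hv).2.le
    have a2 : ∑ v ∈ W, (((ind G c v).card : ℝ) + (mis G c v).card) ≤ Ind G c + Mis G c := by
      rw [Ind, Mis, ← sum_add_distrib]
      exact sum_le_sum_of_subset_of_nonneg (subset_univ _) fun _ _ _ =>
        add_nonneg (Nat.cast_nonneg _) (Nat.cast_nonneg _)
    rw [nsmul_eq_mul] at a1
    refine le_of_mul_le_mul_right ?_ N0
    linarith only [a1, a2, hI, hM]
  have ω2 : ω * (ω * τ) ≤ ε := by
    have a1 : (ω * ε) ^ 2 ≤ (2 * K) ^ 2 := pow_le_pow_left₀ (mul_nonneg ω0 ε0.le) ω1 2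
    have a2 := mul_le_mul_of_nonneg_right a1 τ0.le
    have a3 : ω * (ω * τ) ≤ ε ^ 2 := by
      refine le_of_mul_le_mul_right ?_ (show 0 < ε ^ 2 by positivity)
      linarith only [a2, τ1]
    exact a3.trans ε4
  have ω3 : ω * (K * τ) ≤ ε := by
    refine le_of_mul_le_mul_right ?_ ε0
    have a1 := mul_le_mul_of_nonneg_right ω1 (show 0 ≤ K * τ by positivity)
    have a2 : ε ^ 4 ≤ ε ^ 2 := pow_le_pow_of_le_one ε0.le ε3 (by norm_num)
    have a3 : 0 ≤ K ^ 2 * τ := by positivity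
    linarith only [a1, a2, a3, τ1]
  have ω4 : ω * τ ≤ ε := by nlinarith only [ω3, hK, mul_nonneg ω0 τ0.le]
  set ν : ℝ := 4 * y + ε ^ 2 with hν
  set μ : ℝ := 4 * y - ε ^ 2 - ω * τ with hμ
  set S := univ \ W with hS
  have hP' : ∀ j, 4 * y - ε ^ 2 ≤ sz c N univ j ∧ sz c N univ j ≤ ν := fun j => by
    clear * - V q c N j y ε m ym m2 N0 K τ hτ hK hP τ2 ε0 ν hν
    have a1 : (sz c N univ j - 4 * y) ^ 2 ≤ (ε ^ 2) ^ 2 := by
      have e : sz c N univ j - 4 * y = (((pt c univ j).card : ℝ) - N / m) / N := by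
        rw [← ym, sz]; field_simp
      rw [e, div_pow, div_le_iff₀ (by positivity)]
      have : K * N = K * τ * N ^ 2 := by rw [hτ]; field_simp
      exact (hP j).trans (this ▸ mul_le_mul_of_nonneg_right τ2 (by positivity))
    have := abs_le.1 (abs_le_of_sq_le_sq' a1 (by positivity) |> abs_le.2)
    constructor <;> linarith only [this.1, this.2, hν]
  have hμS : ∀ j, μ ≤ sz c N S j := fun j => by
    have a1 : ((pt c univ j).card : ℝ) ≤ (pt c S j).card + ω := by
      have : (pt c univ j).card ≤ (pt c S j).card + W.card :=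
        le_trans (card_le_card fun v hv => by
          by_cases h : v ∈ W
          · exact mem_union_right _ h
          · exact mem_union_left _ (mem_pt.2 ⟨mem_sdiff.2 ⟨mem_univ _, h⟩, (mem_pt.1 hv).2⟩))
          (card_union_le _ _)
      rw [hω]
      exact_mod_cast this
    have a2 := div_le_div_of_nonneg_right a1 N0.le
    rw [add_div, τN ω] at a2
    have := (hP' j).1
    unfold sz at this ⊢
    linarith only [a2, this, hμ]
  have μ1 : 3 * y ≤ μ := by linarith only [hμ, ε4, ε1, ω4]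
  have μ0 : 0 ≤ μ := by linarith only [μ1, y0]
  have μν : μ ≤ ν := by linarith only [hμ, hν, mul_nonneg ω0 τ0.le, sq_nonneg ε]
  have ν1 : ν ≤ 1 := by linarith only [hν, y1, ε4, ε1]
  have ν0 : 0 ≤ ν := μ0.trans μν
  have με : 0 ≤ μ - 2 * ε := by linarith only [μ1, ε1, y0]
  have μεν : μ - 2 * ε ≤ ν := by linarith only [μν, ε0]
  have yμ : y ≤ μ := by linarith only [μ1, y0]
  have yν : y ≤ ν := yμ.trans μν
  have m0 : 0 ≤ m := by linarith only [m2]
  have m20 : 0 ≤ m + 2 := by linarith only [m2]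
  have Nne : N ≠ 0 := N0.ne'
  have y11 : y ≤ 1 := by linarith only [y1]
  have y2μ : 2 * y ≤ μ := by linarith only [μ1, y0]
  have τy : 2 * τ ≤ 4 * y - ε ^ 2 := by linarith only [τ4, ε4, ε1, y0]
  have k30 : (0 : ℝ) ≤ k + 3 := by positivity
  have hkm : (k : ℝ) + 2 ≤ m := by rw [hm]; exact_mod_cast Nat.add_le_add_right hk 2
  have hqm : (q : ℝ) + 2 = m := by rw [hm]; push_cast; ring
  have k31 : (k : ℝ) + 3 ≤ m + 1 := by linarith only [hkm]
  have β1 : ν - μ ≤ 3 * ε := by linarith only [hν, hμ, ε4, ω4]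
  have β2 : ω * (ν - μ) ≤ (4 * K + 1) * ε := by
    have e : ν - μ = 2 * ε ^ 2 + ω * τ := by rw [hν, hμ]; ring
    rw [e]
    linarith only [mul_le_mul_of_nonneg_right ω1 ε0.le, ω2]
  have k1m : ((k + 1 : ℕ) : ℝ) ≤ m := by push_cast; linarith only [hkm]
  have q1m : ((q + 1 : ℕ) : ℝ) ≤ m := by push_cast; linarith only [hqm]
  have cb : ∀ r s : ℕ, r ≤ q + 2 → (r.choose s : ℝ) ≤ b := by
    intro r s hr
    rw [hb]
    exact_mod_cast (Nat.choose_le_two_pow r s).trans (Nat.pow_le_pow_right two_pos hr)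
  have h01 : (0 : Fin (q + 2)) ≠ 1 := by simp
  have ek : q + 1 = (q + 1 - k) + k := by omega
  have νμ0 : 0 ≤ ν - μ := sub_nonneg.2 μν
  have hcard : Fintype.card (Fin (q + 2)) = q + 2 := Fintype.card_fin _
  set a : V → Fin (q + 2) → ℝ := fun w j => sz c N (S ∩ nb G {w}) j with ha
  have ha0 : ∀ w j, 0 ≤ a w j ∧ a w j ≤ ν := fun w j =>
    ⟨sz_nonneg N0 _ _, (sz_mono N0 (subset_univ _) j).trans (hP' j).2⟩
  choose l _ hl using fun w => exists_min_image univ (a w) univ_nonempty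
  have hne : ∀ w, (univ.erase (l w)).Nonempty := by
    intro w
    rw [← card_pos, card_erase_of_mem (mem_univ _), card_univ, hcard]
    exact Nat.succ_pos q
  choose l' hl1 hl2 using fun w => exists_min_image (univ.erase (l w)) (a w) (hne w)
  set Spen := ∑ w ∈ W, (ν - a w (l w)) * (ν - a w (l' w)) with hSpen
  set Sp := ∑ w ∈ W, ∏ j, a w j with hSp
  have Spen0 : 0 ≤ Spen := sum_nonneg fun w _ =>
    mul_nonneg (sub_nonneg.2 (ha0 w _).2) (sub_nonneg.2 (ha0 w _).2)
  set i2 := Ind G c / N ^ 2 with hi2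
  set n2 := Mis G c / N ^ 2 with hn2
  have i0 : 0 ≤ i2 := div_nonneg Ind_nonneg (sq_nonneg N)
  have n0 : 0 ≤ n2 := div_nonneg Mis_nonneg (sq_nonneg N)
  have KN : K * N / N ^ 2 = K * τ := by rw [hτ]; field_simp
  have i1 : i2 ≤ K * τ := KN ▸ div_le_div_of_nonneg_right hI (sq_nonneg N)
  have n1 : n2 ≤ K * τ := KN ▸ div_le_div_of_nonneg_right hM (sq_nonneg N)
  set ISN := (∑ i, (cc G (pt c S i) 2 : ℝ)) / N with hISN
  have I0 : 0 ≤ ISN := by
    refine div_nonneg (sum_nonneg fun i _ => ?_) N0.le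
    exact_mod_cast cc_nonneg _ _
  have I1 : ISN ≤ K := (div_le_iff₀ N0).2 ((sum_inside_le S).trans hI)
  have Lo := lower_bd (G := G) (c := c) hN N0 hcard W (ε := ε) (μ := μ)
    (fun v hv => le_trans (le_add_of_nonneg_left (Nat.cast_nonneg _)) (hW' v hv))
    με hμS
  have D2 : N * cn G N univ (q + 3) ≤ (m + 2) * cn G N univ (q + 2) + K * τ := by
    clear * - V G q N m K hD2 N0 τ hτ Nne
    have := div_le_div_of_nonneg_right hD2 (pow_nonneg N0.le (q + 2))
    refine le_of_eq_of_le ?_ (le_of_le_of_eq this ?_)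
    · unfold cn; field_simp; ring
    · unfold cn; rw [hτ]; field_simp; ring
  have L2 : cn G N univ (q + 2) ≤ ν ^ (q + 2) + i2 := by
    have a1 := cn_le_es (G := G) (c := c) hN N0 (A := univ) (T := univ) (fun _ _ => mem_univ _)
      (q + 2)
    have a2 := es_le (T := univ) (k := q + 2) (a := sz c N univ) (hi := ν)
      fun j _ => ⟨sz_nonneg N0 _ _, (hP' j).2⟩
    rw [card_univ, hcard, Nat.choose_self, Nat.cast_one, one_mul] at a2
    linarith only [a1, a2, hi2]
  have hSp3 : Sp ≤ C3 := by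
    clear * - ν q ν0 ν1 ISN μ ε I0 με m n2 K I1 τ n1 τ3 ε3 m0 n0 K0 ω ω0 ω3 V G N i2 c y L2 i1 m20
      Sp C3 W S Lo D2 hC3
    have a1 : ν ^ (q + 2) ≤ 1 := pow_le_one₀ ν0 ν1
    have a2 : 0 ≤ ISN * (μ - 2 * ε) ^ (q + 1) := mul_nonneg I0 (pow_nonneg με _)
    have a3 : ISN * (m * n2) ≤ K * (m * 1) := mul_le_mul I1
      (mul_le_mul_of_nonneg_left (n1.trans (τ3.trans ε3)) m0) (mul_nonneg m0 n0) K0
    have a4 : m * (ω * n2) ≤ m * 1 := mul_le_mul_of_nonneg_left
      ((mul_le_mul_of_nonneg_left n1 ω0).trans (ω3.trans ε3)) m0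
    have a5 : (m + 2) * cn G N univ (q + 2) ≤ (m + 2) * 2 := by
      refine mul_le_mul_of_nonneg_left ?_ m20
      linarith only [L2, a1, i1, τ3, ε3]
    linarith only [Lo, D2, a2, a3, a4, a5, hC3, τ3, ε3]
  have key : ∀ i j : Fin (q + 2), i ≠ j → y ^ (q + 1) * ((∑ v ∈ pt c S i,
      (((pt c S j).card : ℝ) - (pt c (S ∩ nb G {v}) j).card)) / N + Spen) ≤ C1 * ε := by
    clear * - q N V G k c W μ ν ε hN N0 hcard hk hW' y hP' μ0 hμS S Spen C1 ν0 ν1 ek τ hτ Nne τy K
      hD1 ω hS b m n2 hb a Sp l l' ha0 hl1 m0 k30 τN Lo D2 i2 L2 με μεν q1m ISN cb k31 ω0 I1 K0 ε0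
      i0 i1 τ3 n0 n1 τ0 ω3 ω2 β1 β2 μν k1m νμ0 y0 yν yμ y11 Spen0 hC1 m2
    intro i j hij
    have U := upper_bd (G := G) (c := c) hN N0 hcard hk W (ε := ε) (ν := ν) (μ := μ)
      (fun v hv => le_trans (le_add_of_nonneg_right (Nat.cast_nonneg _)) (hW' v hv))
      (fun j => (hP' j).2) μ0 hμS hij
    rw [τN (W.card : ℝ)] at U
    set MiN := (∑ v ∈ pt c S i,
      (((pt c S j).card : ℝ) - (pt c (S ∩ nb G {v}) j).card)) / N with hMiN
    have M0 : 0 ≤ MiN := div_nonneg (sum_nonneg fun w _ =>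
      sub_nonneg.2 (Nat.cast_le.2 (card_le_card (pt_mono inter_subset_left _)))) N0.le
    set ρ := ν ^ (q + 1 - k) with hρ
    have ρ0 : 0 ≤ ρ := pow_nonneg ν0 _
    have ρ1 : ρ ≤ 1 := pow_le_one₀ ν0 ν1
    have ρ2 : ρ * ν ^ k = ν ^ (q + 1) := by rw [hρ, ← pow_add]; congr 1; omega
    have ρ3 : ν ^ (q + 2) = ρ * ν ^ (k + 1) := by rw [hρ, ← pow_add]; congr 1; omega
    have h2 : ∀ j, 2 ≤ (pt c univ j).card := by
      intro j
      have a1 := (le_div_iff₀ N0).1 (hP' j).1
      have a2 : τ * N = 1 := by rw [hτ]; field_simp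
      have a3 : 2 * τ * N ≤ (4 * y - ε ^ 2) * N := mul_le_mul_of_nonneg_right τy N0.le
      have : (2 : ℝ) ≤ (pt c univ j).card := by linarith only [a1, a2, a3]
      exact_mod_cast this
    set a' : Fin (q + 2) → ℕ := fun j => (pt c univ j).card - if j = 0 then 2 else 0 with ha'
    have ha'2 : ∀ j, (a' j : ℝ) = (pt c univ j).card - if j = 0 then 2 else 0 := by
      intro j
      simp only [ha']
      split_ifs
      · rw [Nat.cast_sub (h2 j)]; rfl
      · simp
    have hsum : ∑ j, (pt c univ j).card = Fintype.card V := by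
      rw [sum_card_pt, filter_true_of_mem fun _ _ => mem_univ _, card_univ]
    have hsum' : ∑ j, a' j = Fintype.card V - 2 := by
      have : ∑ j, (a' j + if j = 0 then 2 else 0) = Fintype.card V := by
        rw [← hsum]
        apply sum_congr rfl
        intro j _
        have := h2 j
        simp only [ha']
        split_ifs <;> omega
      rw [sum_add_distrib, sum_ite_eq', if_pos (mem_univ _)] at this
      omega
    have D1 : N * es univ (k + 2) (fun j => (a' j : ℝ) / N) + (k + 3) * cn G N univ (k + 1) -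
        K * τ ≤ N * cn G N univ (k + 2) := by
      clear * - q k a' V G K N hD1 hsum' N0 τ hτ Nne
      have := div_le_div_of_nonneg_right (hD1 a' hsum') (pow_nonneg N0.le (k + 1))
      refine le_of_eq_of_le ?_ (le_of_le_of_eq this ?_)
      · rw [es_mul, hτ]; unfold cn; field_simp; ring
      · unfold cn; field_simp; ring
    have E1 : N * es univ (k + 2) (sz c N univ) - N * es univ (k + 2) (fun j => (a' j : ℝ) / N) ≤
        ((q + 1).choose (k + 1) : ℝ) * ν ^ (k + 1) * 2 := by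
      have a1 := (es_lin univ (k + 1) (fun j => (a' j : ℝ) / N) (sz c N univ) (hi := ν) le_rfl
        fun j _ => ⟨div_nonneg (Nat.cast_nonneg _) N0.le, div_le_div_of_nonneg_right
          (Nat.cast_le.2 (Nat.sub_le _ _)) N0.le, (hP' j).2⟩).2
      have a2 : ∑ j, (sz c N univ j - (a' j : ℝ) / N) = 2 / N := by
        have : ∀ j, sz c N univ j - (a' j : ℝ) / N = if j = 0 then 2 / N else 0 := by
          intro j
          rw [ha'2, sz]; split_ifs <;> ring
        simp only [this, sum_ite_eq', if_pos (mem_univ _)]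
      rw [a2, card_univ, hcard] at a1
      have a3 := mul_le_mul_of_nonneg_left a1 N0.le
      refine le_of_eq_of_le (mul_sub _ _ _).symm (le_of_le_of_eq a3 ?_)
      simp only [Nat.add_succ_sub_one]
      rw [mul_left_comm, mul_div_cancel₀ _ Nne]
    have E2 : ((q + 1).choose (k + 1) : ℝ) * μ ^ (k + 1) * ω ≤
        N * es univ (k + 2) (sz c N univ) - N * es univ (k + 2) (sz c N S) := by
      have a1 := (es_lin univ (k + 1) (sz c N S) (sz c N univ) (hi := ν) μ0
        fun j _ => ⟨hμS j, sz_mono N0 (subset_univ _) j, (hP' j).2⟩).1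
      have a2 : ∑ j, (sz c N univ j - sz c N S j) = ω / N := by
        unfold sz
        rw [sum_sub_distrib, ← sum_div, ← sum_div, ← sub_div, ← Nat.cast_sum, ← Nat.cast_sum,
          hsum, sum_card_pt, filter_true_of_mem fun _ _ => mem_univ _, hS,
          card_sdiff_of_subset (subset_univ _), Nat.cast_sub (card_le_card (subset_univ _)),
          card_univ]
        ring
      rw [a2, card_univ, hcard] at a1
      have a3 := mul_le_mul_of_nonneg_left a1 N0.le
      refine le_of_eq_of_le ?_ (le_of_le_of_eq a3 (mul_sub _ _ _))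
      simp only [Nat.add_succ_sub_one]
      rw [mul_left_comm, mul_div_cancel₀ _ Nne]
    have L4 : ((q + 2).choose (k + 1) : ℝ) * μ ^ (k + 1) - b * (m * n2) ≤ cn G N univ (k + 1) := by
      have a1 := es_le_cn (G := G) (c := c) hN N0 hcard univ (k + 1)
      have a2 := le_es (T := univ) (k := k + 1) (a := sz c N univ) μ0
        fun j _ => (hμS j).trans (sz_mono N0 (subset_univ _) j)
      rw [card_univ, hcard] at a2
      rw [hb]
      linarith only [a1, a2]
    have Ψ : ρ * ∑ w ∈ W, es univ (k + 1) (a w) - ((q + 1).choose k : ℝ) * Sp + Spen * ν ^ q ≤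
        ω * (((q + 1).choose (k + 1) : ℝ) * (ρ * ν ^ (k + 1))) := by
      rw [← ρ3, mul_sum, mul_sum, sum_mul, ← sum_sub_distrib, ← sum_add_distrib, ← nsmul_eq_mul]
      exact sum_le_card_nsmul _ _ _ fun w _ =>
        psi_le hcard hk (a w) (ha0 w) (mem_erase.1 (hl1 w)).1.symm
    rw [ρ3] at L2
    have R := combine ρ0 (Nat.cast_nonneg _) m0 k30 U Lo D1 E1 E2 L4 D2 L2
      Ψ (choose_id hk)
    have d21 : ρ * ν ^ k - (μ - 2 * ε) ^ (q + 1) ≤ m * (ν - μ + 2 * ε) := by
      have e : ν - μ + 2 * ε = ν - (μ - 2 * ε) := by ring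
      rw [ρ2, e]
      exact (pow_sub_pow_le με μεν ν1 _).trans (mul_le_mul_of_nonneg_right q1m (sub_nonneg.2 μεν))
    have R2 := bound_rhs (ISN := ISN) (ω := ω) (i2 := i2) (m2 := n2) (ε := ε) (τ := τ)
      (Kτ := K * τ) (d1 := ν ^ (k + 1) - μ ^ (k + 1)) (d2 := ρ * ν ^ k - (μ - 2 * ε) ^ (q + 1))
      (m := m) (k3 := k + 3) (K := K) (β := ν - μ) ρ0 ρ1 (Nat.cast_nonneg _)
      (cb (q + 1) k (Nat.le_succ _)) (cb (q + 1) (k + 1) (Nat.le_succ _)) (cb (q + 2) (k + 1) le_rfl)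
      m0 k30 k31 ω0 I1 K0 ε0.le i0 (i1.trans τ3) n0
      (n1.trans τ3) (mul_nonneg K0 τ0.le) τ3 τ0.le ((mul_le_mul_of_nonneg_left i1 ω0).trans ω3)
      ((mul_le_mul_of_nonneg_left n1 ω0).trans ω3) ω2 β1 β2
      (sub_nonneg.2 (pow_le_pow_left₀ μ0 μν _))
      ((pow_sub_pow_le μ0 μν ν1 _).trans (mul_le_mul_of_nonneg_right k1m νμ0))
      (ρ2 ▸ sub_nonneg.2 (pow_le_pow_left₀ με μεν _))
      d21
    have p1 : y ^ (q + 1) ≤ ρ * μ ^ k := by
      rw [ek, pow_add]
      exact mul_le_mul (pow_le_pow_left₀ y0.le yν _)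
        (pow_le_pow_left₀ y0.le yμ _) (pow_nonneg y0.le _) ρ0
    have p2 : y ^ (q + 1) ≤ ν ^ q :=
      (pow_le_pow_of_le_one y0.le y11 (Nat.le_succ q)).trans
        (pow_le_pow_left₀ y0.le yν _)
    have p3 := mul_le_mul_of_nonneg_right p1 M0
    have p4 := mul_le_mul_of_nonneg_right p2 Spen0
    clear * - y q MiN Spen C1 ε ρ μ k ν V W G c N m τ b K ω ISN i2 n2 S i j R R2 p3 p4 hC1; linarith only [R, R2, p3, p4, hC1]
  have key2 : ∀ i j : Fin (q + 2), i ≠ j → (∑ v ∈ pt c S i,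
      (((pt c S j).card : ℝ) - (pt c (S ∩ nb G {v}) j).card)) / N + Spen ≤ C2 * ε := by
    intro i j hij
    rw [hC2, div_mul_eq_mul_div, le_div_iff₀ (pow_pos y0 _), mul_comm]
    exact key i j hij
  have Spen1 : Spen ≤ C2 * ε := le_trans (le_add_of_nonneg_left (div_nonneg (sum_nonneg fun w _ =>
    sub_nonneg.2 (Nat.cast_le.2 (card_le_card (pt_mono inter_subset_left _)))) N0.le))
    (key2 0 1 h01)
  refine ⟨fun v => if v ∈ W then l v else c v, (mis_new W l).trans ?_, fun j => ?_⟩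
  · have hce : ∀ i : Fin (q + 2), ((univ.erase i).card : ℝ) ≤ m := by
      intro i
      rw [hm]; exact_mod_cast (card_le_univ _).trans hcard.le
    have t1 : ∑ i, ∑ j ∈ univ.erase i, ∑ v ∈ pt c S i,
        (((pt c S j).card : ℝ) - (pt c (S ∩ nb G {v}) j).card) ≤ m * (m * (C2 * ε * N)) := by
      refine le_trans (sum_le_card_nsmul _ _ (m * (C2 * ε * N)) fun i _ => ?_) ?_
      · refine le_trans (sum_le_card_nsmul _ _ (C2 * ε * N) fun j hj => ?_) ?_
        · rw [← div_le_iff₀ N0]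
          exact le_trans (le_add_of_nonneg_right Spen0) (key2 i j (mem_erase.1 hj).1.symm)
        · rw [nsmul_eq_mul]
          exact mul_le_mul_of_nonneg_right (hce i) (mul_nonneg (mul_nonneg C20.le ε0.le) N0.le)
      · rw [nsmul_eq_mul, card_univ, hcard]
    have t2 : ∀ w ∈ W, ∑ j ∈ univ.erase (l w),
        (((pt c S j).card : ℝ) - (pt c (S ∩ nb G {w}) j).card) ≤
        m * N * ((1 / y + 1 / lam) * ((ν - a w (l w)) * (ν - a w (l' w))) +
          lam / y ^ (q + 2) * ∏ j, a w j) := by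
      clear * - V W ν a l y q hcard y0 ε hl l' lam l0 ha0 c S G N m hl2 N0 hP' ha Nne hce m0 hν
      intro w _
      have a0 : ν - a w (l w) ≤ y → y ^ (q + 2) ≤ ∏ j, a w j := by
        intro h
        have : y ^ (q + 2) = ∏ _j : Fin (q + 2), y := by
          rw [prod_const, card_univ, hcard]
        rw [this]
        refine prod_le_prod (fun _ _ => y0.le) fun j _ => ?_
        linarith only [hl w j (mem_univ _), sq_nonneg ε, h, hν, y0]
      have a1 := pen_le (m := q + 2) (p := ∏ j, a w j) y0 l0 (sub_nonneg.2 (ha0 w (l' w)).2)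
        (sub_le_sub_left (hl w _ (mem_univ _)) ν) (prod_nonneg fun j _ => (ha0 w j).1) a0
      refine le_trans (sum_le_card_nsmul _ _ (N * (ν - a w (l' w))) fun j hj => ?_) ?_
      · have b1 := hl2 w j hj
        have b2 := (sz_mono (c := c) N0 (subset_univ S) j).trans (hP' j).2
        have b3 : ((pt c S j).card : ℝ) - (pt c (S ∩ nb G {w}) j).card =
            N * (sz c N S j - a w j) := by simp only [ha, sz]; field_simp
        rw [b3]
        exact mul_le_mul_of_nonneg_left (sub_le_sub b2 b1) N0.le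
      · rw [nsmul_eq_mul, mul_assoc]
        exact mul_le_mul (hce _) (mul_le_mul_of_nonneg_left a1 N0.le)
          (mul_nonneg N0.le (sub_nonneg.2 (ha0 w (l' w)).2)) m0
    have t3 := sum_le_sum t2
    rw [← mul_sum, sum_add_distrib, ← mul_sum, ← mul_sum] at t3
    have t4 : m * N * ((1 / y + 1 / lam) * Spen + lam / y ^ (q + 2) * Sp) ≤
        m * N * ((1 / y + 1 / lam) * (C2 * ε) + lam / y ^ (q + 2) * C3) :=
      mul_le_mul_of_nonneg_left (add_le_add
        (mul_le_mul_of_nonneg_left Spen1 (add_nonneg (one_div_nonneg.2 y0.le) (one_div_nonneg.2 l0.le)))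
        (mul_le_mul_of_nonneg_left hSp3 (div_nonneg l0.le (pow_nonneg y0.le _)))) (mul_nonneg m0 N0.le)
    have t5 : ω ^ 2 ≤ ε * N := by
      have : ω ^ 2 = ω * (ω * τ) * N := by rw [hτ]; field_simp
      rw [this]; exact mul_le_mul_of_nonneg_right ω2 N0.le
    have t6 := mul_le_mul_of_nonneg_right ε2 N0.le
    have t7 := congrArg (fun t => t * N) l1
    rw [hC4] at t6
    linarith only [t1, t3, t4, t5, t6, t7]
  · have a1 := (le_div_iff₀ N0).1 (hμS j)
    have a2 : ((pt c S j).card : ℝ) ≤ (pt (fun v => if v ∈ W then l v else c v) univ j).card := by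
      refine Nat.cast_le.2 (card_le_card fun v hv => mem_pt.2 ⟨mem_univ _, ?_⟩)
      rw [mem_pt] at hv
      rw [if_neg (mem_sdiff.1 hv.1).2, hv.2]
    have a3 : N / (2 * m) = 2 * y * N := by rw [hy]; field_simp; norm_num
    have a4 : 2 * y * N ≤ μ * N := mul_le_mul_of_nonneg_right y2μ N0.le
    linarith only [a1, a2, a3, a4]

end Pool.Agent.Work.MP_001c0f_co
end

-- merged part: Pool.Agent.Work.MP_001c0f_co.LMain
section
-- merged part: Pool.Agent.Work.MP_001c0f_co.LFirst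
section
set_option autoImplicit false
set_option linter.unusedSectionVars false

open Finset

namespace Pool.Agent.Work.MP_001c0f_co

variable {V : Type} [Fintype V] [DecidableEq V] {G : SimpleGraph V}

lemma dc (j : ℕ) (F : V → Finset V → ℤ) :
    ∑ σ ∈ clj G univ (j + 1), ∑ v ∈ σ, F v σ =
      ∑ τ ∈ clj G univ j, ∑ u ∈ nb G τ, F u (insert u τ) := by
  rw [sum_sigma', sum_sigma']
  refine sum_bij' (fun a _ => ⟨a.1.erase a.2, a.2⟩) (fun a _ => ⟨insert a.2 a.1, a.2⟩)
    ?_ ?_ ?_ ?_ ?_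
  · rintro ⟨σ, v⟩ ha
    simp only [mem_sigma, mem_clj] at ha ⊢
    refine ⟨⟨subset_univ _, ha.1.2.1.mono (erase_subset _ _), ?_⟩, mem_nb.2 fun u hu => ?_⟩
    · rw [card_erase_of_mem ha.2, ha.1.2.2]; rfl
    · exact ha.1.2.1 u (mem_of_mem_erase hu) v ha.2 (mem_erase.1 hu).1
  · rintro ⟨τ, u⟩ ha
    simp only [mem_sigma, mem_clj] at ha ⊢
    exact ⟨⟨subset_univ _, ha.1.2.1.insert ha.2, by rw [card_insert_nb ha.2, ha.1.2.2]⟩,
      mem_insert_self _ _⟩
  · rintro ⟨σ, v⟩ ha
    simp only [mem_sigma] at ha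
    simp only [insert_erase ha.2]
  · rintro ⟨τ, u⟩ ha
    simp only [mem_sigma] at ha
    simp only [erase_insert (not_mem_of_mem_nb ha.2)]
  · rintro ⟨σ, v⟩ ha
    simp only [mem_sigma] at ha
    simp only [insert_erase ha.2]

variable (G) in
/-- vertices missing at least two vertices of `σ` -/
noncomputable def lo (σ : Finset V) : Finset V :=
  univ.filter (fun z => ∀ v ∈ σ, z ∉ nb G (σ.erase v))

lemma mm_point {σ : Finset V} {r : ℕ} (hσ : σ.card = r + 1) :
    ∑ v ∈ σ, ((nb G (σ.erase v)).card : ℤ) + (lo G σ).card ≤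
      Fintype.card V + r * (nb G σ).card := by
  have e : ∀ A : Finset V, (A.card : ℤ) = ∑ z, if z ∈ A then 1 else 0 := fun A => by
    rw [sum_boole, filter_mem_eq_inter, univ_inter]
  rw [sum_congr rfl (fun v _ => e _), e (lo G σ), e (nb G σ), sum_comm, ← card_univ,
    card_eq_sum_ones, Nat.cast_sum, mul_sum, ← sum_add_distrib, ← sum_add_distrib]
  apply sum_le_sum
  intro z _
  rw [sum_boole]
  have hr : (0 : ℤ) ≤ r := Nat.cast_nonneg r
  by_cases h1 : z ∈ lo G σ
  · rw [if_pos h1, filter_false_of_mem (mem_filter.1 h1).2]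
    split_ifs <;> simp
  · rw [if_neg h1]
    split_ifs with h2
    · have := card_filter_le σ (fun v => z ∈ nb G (σ.erase v))
      rw [hσ] at this
      have h3 : ((σ.filter (fun v => z ∈ nb G (σ.erase v))).card : ℤ) ≤ r + 1 := by
        exact_mod_cast this
      push_cast; linarith only [this]
    · have : (σ.filter (fun v => z ∈ nb G (σ.erase v))).card ≤ 1 := by
        rw [card_le_one]
        intro a ha b hb
        rw [mem_filter] at ha hb
        by_contra hab
        refine h2 (mem_nb.2 fun u hu => ?_)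
        by_cases hua : u = a
        · exact mem_nb.1 hb.2 u (mem_erase.2 ⟨hua ▸ hab, hu⟩)
        · exact mem_nb.1 ha.2 u (mem_erase.2 ⟨hua, hu⟩)
      simpa using this

lemma sum_nb_card (j : ℕ) :
    ∑ ρ ∈ clj G univ j, ((nb G ρ).card : ℤ) = (j + 1) * cc G univ (j + 1) := by
  rw [handshake_cc']; simp

lemma mm (r : ℕ) : ((r + 1) * cc G univ (r + 1)) ^ 2 +
    cc G univ r * ∑ σ ∈ clj G univ (r + 1), ((lo G σ).card : ℤ) ≤
    cc G univ r * (Fintype.card V * cc G univ (r + 1) + r * (r + 2) * cc G univ (r + 2)) := by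
  have h1 := sum_le_sum (s := clj G univ (r + 1)) fun σ hσ => mm_point (G := G) (mem_clj.1 hσ).2.2
  rw [sum_add_distrib, sum_add_distrib, ← mul_sum, sum_nb_card, sum_const,
    dc r (fun v σ => ((nb G (σ.erase v)).card : ℤ))] at h1
  have h2 : ∑ τ ∈ clj G univ r, ∑ u ∈ nb G τ, ((nb G ((insert u τ).erase u)).card : ℤ) =
      ∑ τ ∈ clj G univ r, ((nb G τ).card : ℤ) ^ 2 := by
    apply sum_congr rfl
    intro τ _
    rw [sum_congr rfl (fun u hu => by rw [erase_insert (not_mem_of_mem_nb hu)]), sum_const,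
      nsmul_eq_mul, sq]
  have h3 := sq_sum_le_card_mul_sum_sq (s := clj G univ r) (f := fun τ => ((nb G τ).card : ℤ))
  rw [sum_nb_card] at h3
  rw [h2, nsmul_eq_mul] at h1
  have h4 := mul_le_mul_of_nonneg_left h1 (cc_nonneg (G := G) univ r)
  unfold cc at *
  push_cast at h4
  linarith only [h3, h4]

lemma sum_cc_two (p : ℕ) : ∑ σ ∈ clj G univ (p + 1), ∑ v ∈ σ, 2 * cc G (nb G (σ.erase v)) 2 ≤
    Fintype.card V * ((p + 1) * (p + 2) * cc G univ (p + 2)) := by
  rw [dc p (fun v σ => 2 * cc G (nb G (σ.erase v)) 2)]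
  have h1 := dc (G := G) p (fun _ σ => ((nb G σ).card : ℤ))
  have h2 : ∑ σ ∈ clj G univ (p + 1), ∑ _v ∈ σ, ((nb G σ).card : ℤ) =
      (p + 1) * (p + 2) * cc G univ (p + 2) := by
    rw [sum_congr rfl (fun σ hσ => by rw [sum_const, (mem_clj.1 hσ).2.2, nsmul_eq_mul]),
      ← mul_sum, sum_nb_card]
    push_cast; ring
  rw [← h2, h1, mul_sum]
  apply sum_le_sum
  intro τ _
  have h3 := handshake_cc (G := G) (nb G τ) 1
  simp only [cc_one, ← nb_insert] at h3
  norm_num at h3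
  rw [sum_congr rfl (fun u hu => by rw [erase_insert (not_mem_of_mem_nb hu)]), sum_const,
    nsmul_eq_mul, ← h3]
  have h4 : ((nb G τ).card : ℤ) ≤ Fintype.card V := by exact_mod_cast card_le_univ _
  have := cc_nonneg (G := G) (nb G τ) 2
  linarith only [h4, this, mul_nonneg_of_nonpos_of_nonpos (Mathlib.Tactic.Linarith.sub_nonpos_of_le h4) (Mathlib.Tactic.Linarith.sub_nonpos_of_le this)]

lemma exists_partition {σ : Finset V} {p : ℕ} (hσ : σ.card = p + 1) :
    ∃ c : V → Fin (p + 1), Ind G c ≤ 2 * Fintype.card V * (lo G σ).card +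
      ∑ v ∈ σ, 2 * (cc G (nb G (σ.erase v)) 2 : ℝ) := by
  classical
  set e := (equivFinOfCardEq hσ).symm with he
  set A : Fin (p + 1) → Finset V := fun j => nb G (σ.erase (e j)) with hA
  set c : V → Fin (p + 1) := fun z => if h : ∃ j, z ∈ A j then h.choose else 0 with hc
  have h1 : ∀ z, z ∉ lo G σ → z ∈ A (c z) := by
    intro z hz
    have h : ∃ j, z ∈ A j := by
      by_contra hh
      refine hz (mem_filter.2 ⟨mem_univ _, fun v hv hzv => hh ⟨e.symm ⟨v, hv⟩, ?_⟩⟩)
      simpa [hA] using hzv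
    simp only [hc, dif_pos h]
    exact h.choose_spec
  refine ⟨c, ?_⟩
  have h2 : ∀ v, ((ind G c v).card : ℝ) ≤ (if v ∈ lo G σ then (Fintype.card V : ℝ) else 0) +
      (lo G σ).card + ∑ j, if v ∈ A j then ((A j ∩ nb G {v}).card : ℝ) else 0 := by
    intro v
    have h0 : ∀ j ∈ univ, (0 : ℝ) ≤ if v ∈ A j then ((A j ∩ nb G {v}).card : ℝ) else 0 :=
      fun j _ => by split_ifs <;> positivity
    split_ifs with hv
    · have a1 : ((ind G c v).card : ℝ) ≤ Fintype.card V := by exact_mod_cast card_le_univ _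
      have a2 := sum_nonneg h0
      have a3 : (0 : ℝ) ≤ (lo G σ).card := Nat.cast_nonneg _
      linarith only [a1, a2]
    · have a1 := single_le_sum h0 (mem_univ (c v))
      rw [if_pos (h1 v hv)] at a1
      have a2 : (ind G c v).card ≤ (lo G σ).card + (A (c v) ∩ nb G {v}).card := by
        refine le_trans (card_le_card fun u hu => ?_) (card_union_le _ _)
        rw [mem_ind] at hu
        by_cases h3 : u ∈ lo G σ
        · exact mem_union_left _ h3
        · exact mem_union_right _ (mem_inter.2 ⟨hu.1 ▸ h1 u h3, mem_nb1.2 hu.2⟩)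
      have a3 : ((ind G c v).card : ℝ) ≤ (lo G σ).card + (A (c v) ∩ nb G {v}).card := by
        exact_mod_cast a2
      linarith only [a1, a3]
  refine (sum_le_sum fun v _ => h2 v).trans (le_of_eq ?_)
  rw [sum_add_distrib, sum_add_distrib, ← sum_filter, filter_mem_eq_inter, univ_inter, sum_const,
    sum_const, sum_comm, card_univ, nsmul_eq_mul, nsmul_eq_mul, ← sum_coe_sort σ,
    ← e.sum_comp]
  congr 1
  · ring
  · apply sum_congr rfl
    intro j _
    rw [← sum_filter, filter_mem_eq_inter, univ_inter]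
    have h3 := handshake_cc (G := G) (A j) 1
    simp only [cc_one] at h3
    norm_num at h3
    exact_mod_cast h3.symm

lemma edge_identity {ι : Type} [Fintype ι] [DecidableEq ι] (c : V → ι) :
    2 * (cc G univ 2 : ℝ) + Mis G c + ∑ j, ((pt c univ j).card : ℝ) ^ 2 =
      (Fintype.card V : ℝ) ^ 2 + Ind G c := by
  classical
  have h1 : ∀ v, (nb G {v}).card + (mis G c v).card + (pt c univ (c v)).card =
      Fintype.card V + (ind G c v).card := by
    intro v
    have e : ∀ A : Finset V, A.card = ∑ z, if z ∈ A then 1 else 0 := fun A => by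
      rw [← card_filter, filter_mem_eq_inter, univ_inter]
    rw [e (nb G {v}), e (mis G c v), e (pt c univ (c v)), e (ind G c v), ← card_univ,
      card_eq_sum_ones, ← sum_add_distrib, ← sum_add_distrib, ← sum_add_distrib]
    apply sum_congr rfl
    intro z _
    by_cases a1 : G.Adj v z <;> by_cases a2 : c z = c v <;>
      simp [mem_nb1, mem_mis, mem_ind, mem_pt, a1, a2]
  have h2 := handshake_cc (G := G) univ 1
  simp only [cc_one, univ_inter] at h2
  norm_num at h2
  have h3 : 2 * (cc G univ 2 : ℝ) = ∑ v, ((nb G {v}).card : ℝ) := by exact_mod_cast h2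
  have h4 : ∑ j, ((pt c univ j).card : ℝ) ^ 2 = ∑ v, ((pt c univ (c v)).card : ℝ) := by
    rw [← sum_fiberwise univ c]
    apply sum_congr rfl
    intro j _
    rw [sum_congr rfl (fun v hv => by rw [(mem_filter.1 hv).2]), sum_const, nsmul_eq_mul, sq]
    rfl
  rw [h3, h4, Mis, Ind, ← sum_add_distrib, ← sum_add_distrib, sq, ← nsmul_eq_mul, ← card_univ,
    ← sum_const, ← sum_add_distrib, card_univ]
  exact sum_congr rfl fun v _ => by exact_mod_cast h1 v

theorem first_order (p : ℕ) (hp : 1 ≤ p) {K : ℝ} (hK : 1 ≤ K) : ∃ K' N0 : ℝ, 1 ≤ K' ∧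
    ∀ (V : Type) [Fintype V] [DecidableEq V] (G : SimpleGraph V) (N : ℝ) (s : ℕ),
      N = Fintype.card V → N0 ≤ N → 2 ≤ s → s ≤ p + 1 → (∀ r ≤ p + 2, 0 < cc G univ r) →
      ((p + 1).choose s : ℝ) * (N / (p + 1 : ℕ)) ^ s - K * N ^ (s - 1) ≤ cc G univ s →
      cc G univ (p + 2) ≤ K * N ^ (p + 1) →
      ∃ c : V → Fin (p + 1), Ind G c ≤ K' * N ∧ Mis G c ≤ K' * N ∧
        ∀ j, (((pt c univ j).card : ℝ) - N / (p + 1 : ℕ)) ^ 2 ≤ K' * N := by
  obtain ⟨K1, X0, k1, hseq⟩ := seq_bound p hp hK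
  have k2 : 0 ≤ ((p : ℝ) + 1) * (p + 2) * K * K1 := by positivity
  refine ⟨3 * K1 + (p + 1) * (p + 2) * K * K1, (p + 1 : ℕ) * X0, by linarith only [k1, k2], ?_⟩
  intro V _ _ G N s hN hN0 hs1 hs2 hpos hlo hhi
  have m0 : (0 : ℝ) < (p + 1 : ℕ) := by positivity
  have hpos' : ∀ r ≤ p + 2, (0 : ℝ) < cc G univ r := fun r hr => by exact_mod_cast hpos r hr
  have c1 : (cc G univ 1 : ℝ) = N := by rw [cc_one, hN, card_univ]; simp
  have N0 : 0 < N := c1 ▸ hpos' 1 (by omega)
  have hmm : ∀ r : ℕ, (((r : ℝ) + 1) * cc G univ (r + 1)) ^ 2 +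
      cc G univ r * ∑ σ ∈ clj G univ (r + 1), ((lo G σ).card : ℝ) ≤
      cc G univ r * (N * cc G univ (r + 1) + r * (r + 2) * cc G univ (r + 2)) := fun r => by
    rw [hN]; exact_mod_cast mm (G := G) r
  obtain ⟨a1, a2, a3⟩ := hseq (N / (p + 1 : ℕ)) N (fun r => cc G univ r) s
    (by rw [le_div_iff₀ m0]; linarith only [hN0]) (by field_simp) hs1 hs2 hpos' (by simp [cc_zero]) c1
    (fun r hr => le_trans (le_add_of_nonneg_right (mul_nonneg (hpos' r (by omega)).le
      (sum_nonneg fun _ _ => Nat.cast_nonneg _))) (hmm r)) hlo hhi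
  have cp := hpos' p (by omega)
  have cm := hpos' (p + 1) (by omega)
  have b1 : ∑ σ ∈ clj G univ (p + 1), ((lo G σ).card : ℝ) ≤ K1 * cc G univ (p + 1) := by
    have := mul_le_mul_of_nonneg_right a2 (mul_pos cp cm).le
    have e : (N + p * (((p : ℝ) + 2) * cc G univ (p + 2) / cc G univ (p + 1)) -
        (p + 1) * ((p + 1) * cc G univ (p + 1) / cc G univ p)) *
        (cc G univ p * cc G univ (p + 1)) =
        cc G univ p * (N * cc G univ (p + 1) + p * (p + 2) * cc G univ (p + 2)) -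
          (((p : ℝ) + 1) * cc G univ (p + 1)) ^ 2 := by
      field_simp
    rw [e] at this
    refine le_of_mul_le_mul_left ?_ cp
    linarith only [this, hmm, hmm p]
  have b2 : ∑ σ ∈ clj G univ (p + 1), ∑ v ∈ σ, 2 * (cc G (nb G (σ.erase v)) 2 : ℝ) ≤
      N * ((p + 1) * (p + 2) * cc G univ (p + 2)) := by
    rw [hN]; exact_mod_cast sum_cc_two (G := G) p
  have b3 : (cc G univ (p + 2) : ℝ) ≤ K * (K1 * cc G univ (p + 1)) :=
    hhi.trans (mul_le_mul_of_nonneg_left a3 (by linarith only [hK]))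
  obtain ⟨σ, hσ, hσ2⟩ := exists_le_of_sum_le (s := clj G univ (p + 1))
    (card_pos.1 (by have := hpos (p + 1) (by omega); unfold cc at this; exact_mod_cast this))
    (f := fun σ => 2 * N * (lo G σ).card + ∑ v ∈ σ, 2 * (cc G (nb G (σ.erase v)) 2 : ℝ))
    (g := fun _ => (2 * K1 + (p + 1) * (p + 2) * K * K1) * N) (by
      rw [sum_add_distrib, ← mul_sum, sum_clj_const]
      have d1 := mul_le_mul_of_nonneg_left b1 (show 0 ≤ 2 * N by linarith only [N0])
      have d2 := mul_le_mul_of_nonneg_left b3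
        (show 0 ≤ N * (((p : ℝ) + 1) * (p + 2)) by positivity)
      linarith only [b2, d1, d2])
  obtain ⟨c, hc⟩ := exists_partition (G := G) (mem_clj.1 hσ).2.2
  rw [← hN] at hc
  have d1 := hc.trans hσ2
  have d2 := edge_identity (G := G) c
  rw [← hN] at d2
  have d3 : ∑ j, ((pt c univ j).card : ℝ) = N := by
    rw [← Nat.cast_sum, sum_card_pt, filter_true_of_mem fun _ _ => mem_univ _, hN, card_univ]
  have d4 : ∑ j, (((pt c univ j).card : ℝ) - N / (p + 1 : ℕ)) ^ 2 =
      ∑ j, ((pt c univ j).card : ℝ) ^ 2 - N * (N / (p + 1 : ℕ)) := by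
    simp only [sub_sq, sum_add_distrib, sum_sub_distrib, ← sum_mul, ← mul_sum, d3, sum_const,
      card_univ, Fintype.card_fin, nsmul_eq_mul]
    field_simp; ring
  have d5 : ∀ j ∈ univ, 0 ≤ (((pt c univ j).card : ℝ) - N / (p + 1 : ℕ)) ^ 2 :=
    fun _ _ => sq_nonneg _
  have d6 := sum_nonneg d5
  have d7 := Mis_nonneg (G := G) (c := c)
  rw [le_div_iff₀ N0] at a1
  have d8 : 0 ≤ K1 * N := by positivity
  refine ⟨c, by linarith only [hσ2, hc, d8], by linarith only [a1, hσ2, hc, d2, d4, d6], fun j => ?_⟩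
  have := single_le_sum d5 (mem_univ j)
  linarith only [a1, hσ2, hc, d2, d4, d7, this]

end Pool.Agent.Work.MP_001c0f_co
end

-- merged part: Pool.Agent.Work.MP_001c0f_co.LLarge
section
set_option autoImplicit false
set_option linter.unusedSectionVars false

open Finset Polynomial

namespace Pool.Agent.Work.MP_001c0f_co

lemma geom_le {N : ℝ} (hN : 2 ≤ N) (r : ℕ) : N * ∑ s ∈ range r, N ^ s ≤ 2 * N ^ r := by
  induction r with
  | zero => simp
  | succ r ih =>
    rw [sum_range_succ, pow_succ]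
    have : 0 ≤ N ^ r := by positivity
    linarith only [ih, hN, this, mul_nonneg_of_nonpos_of_nonpos (Mathlib.Tactic.Linarith.sub_nonpos_of_le hN) (Mathlib.Tactic.Linarith.sub_nonpos_of_le this)]

lemma tail_le {N : ℝ} (hN : 2 ≤ N) {m r : ℕ} (hr : r ≤ m) {g : ℕ → ℝ}
    (hg : ∀ s ≤ r, |g s| ≤ 2 * N ^ s) (k : ℕ) :
    |∑ s ∈ range (r + 1), g s * (Bp s).coeff k| ≤ 12 * 2 ^ m * N ^ r := by
  have h1 : |∑ s ∈ range (r + 1), g s * (Bp s).coeff k| ≤
      ∑ s ∈ range (r + 1), 6 * 2 ^ m * N ^ s := by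
    refine (abs_sum_le_sum_abs _ _).trans (sum_le_sum fun s hs => ?_)
    have hs' : s ≤ r := Nat.lt_succ_iff.1 (mem_range.1 hs)
    rw [abs_mul, abs_of_nonneg (Bp_nonneg _ _)]
    have a1 : (Bp s).coeff k ≤ 3 * 2 ^ m :=
      (Bp_le s k).trans (by gcongr; norm_num; omega)
    have := mul_le_mul (hg s hs') a1 (Bp_nonneg _ _) (by positivity)
    linarith only [this]
  rw [← mul_sum] at h1
  have h2 := geom_le hN (r + 1)
  refine h1.trans (le_of_mul_le_mul_left ?_ (show 0 < N by linarith))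
  have h3 := mul_le_mul_of_nonneg_left h2 (show (0 : ℝ) ≤ 6 * 2 ^ m by positivity)
  rw [pow_succ] at h3
  linarith

lemma sum_Bp_trunc {m k : ℕ} (hk : k ≤ m) (g : ℕ → ℝ) :
    ∑ s ∈ range (m + 1), g s * (Bp s).coeff k = ∑ s ∈ range k, g s * (Bp s).coeff k + g k := by
  have : ∑ s ∈ range (k + 1), g s * (Bp s).coeff k = ∑ s ∈ range (m + 1), g s * (Bp s).coeff k := by
    apply sum_subset (range_subset_range.2 (by omega))
    intro s _ hs
    rw [Bp_lt (by simpa using hs), mul_zero]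
  rw [← this, sum_range_succ, Bp_self, mul_one]

lemma g_bound {N : ℝ} {m : ℕ} (hN : 12 * 2 ^ m ≤ N) {g c : ℕ → ℝ}
    (hc : ∀ k, c k = ∑ s ∈ range (m + 1), g s * (Bp s).coeff k)
    (hc0 : ∀ k, 0 ≤ c k ∧ c k ≤ N ^ k) : ∀ r ≤ m, |g r| ≤ 2 * N ^ r := by
  have h2 : (1 : ℝ) ≤ 2 ^ m := one_le_pow₀ (by norm_num)
  intro r
  induction r using Nat.strong_induction_on with
  | _ r ih =>
    intro hr
    have h1 := hc r
    rw [sum_Bp_trunc hr] at h1
    obtain ⟨a1, a2⟩ := hc0 r
    rcases r with _ | r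
    · simp only [range_zero, sum_empty, zero_add, pow_zero] at h1 a2 ⊢
      rw [abs_le]; constructor <;> linarith only [a1, h1, a2]
    · have h3 := tail_le (N := N) (by linarith only [hN, h2]) (m := m) (r := r) (by omega)
        (fun s hs => ih s (by omega) (by omega)) (r + 1)
      have h4 : 12 * 2 ^ m * N ^ r ≤ N ^ (r + 1) := by
        rw [pow_succ, mul_comm (N ^ r)]
        exact mul_le_mul_of_nonneg_right hN (pow_nonneg (by linarith only [hN, h2]) _)
      rw [abs_le] at h3 ⊢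
      constructor <;> linarith only [h1, a1, a2, h3, h4, h3.1, h3.2]

theorem large (q : ℕ) : ∃ N0 : ℝ, ∀ (V : Type) [Fintype V] [DecidableEq V] (G : SimpleGraph V),
    Eul G (2 * (q + 2) + 1) → N0 ≤ Fintype.card V → ∀ k, 2 ≤ k → k ≤ 2 * (q + 2) + 1 →
    (cc G univ k : ℝ) ≤ Tg (q + 2) (Fintype.card V - 2) k ∧
      ((cc G univ k : ℝ) = Tg (q + 2) (Fintype.card V - 2) k → Struct G (Fin (q + 2)) (q + 2)) := by
  set m : ℝ := ((q + 2 : ℕ) : ℝ) with hm
  have m2 : 2 ≤ m := by rw [hm]; exact_mod_cast (by omega : 2 ≤ q + 2)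
  set A : ℝ := 12 * 2 ^ (q + 2) with hA
  have A1 : 2 ^ (q + 2) ≤ A := by rw [hA]; linarith only [show (0 : ℝ) < 2 ^ (q + 2) by positivity]
  have A2 : 2 ≤ A := by
    rw [hA]; linarith only [show (1 : ℝ) ≤ 2 ^ (q + 2) from one_le_pow₀ (by norm_num)]
  set K0 : ℝ := (m + 3) * A with hK0
  have k0 : 1 ≤ K0 := by linarith only [A2, A1, mul_nonneg_of_nonpos_of_nonpos (Mathlib.Tactic.Linarith.sub_nonpos_of_le (Mathlib.Tactic.Linarith.natCast_nonneg ℝ (q + (2 : ℕ)))) (Mathlib.Tactic.Linarith.sub_nonpos_of_le A1)]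
  obtain ⟨K1, N1, k1, hfirst⟩ := first_order (q + 1) (by omega)
    (K := K0 + (m + 2) + 2 * m * A) (by linarith only [m2, A2, A1, mul_nonneg_of_nonpos_of_nonpos (Mathlib.Tactic.Linarith.sub_nonpos_of_le (Mathlib.Tactic.Linarith.natCast_nonneg ℝ (q + (2 : ℕ)))) (Mathlib.Tactic.Linarith.sub_nonpos_of_le A1)])
  obtain ⟨N2, hsecond⟩ := second_order q (K := K0 + K1) (δ := 1 / (8 * m)) (by linarith)
    (by positivity)
  refine ⟨max (max N1 N2) (max A (96 * m ^ 2)), ?_⟩
  intro V _ _ G h hN k hk1 hk2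
  set N : ℝ := (Fintype.card V : ℝ) with hNdef
  simp only [max_le_iff] at hN
  obtain ⟨⟨n1, n2⟩, n3, n4⟩ := hN
  have N2' : 2 ≤ N := by linarith only [A2, n3]
  have N0 : 0 < N := by linarith only [A2, n3]
  have hn2 : 2 ≤ Fintype.card V := by rw [hNdef] at N2'; exact_mod_cast N2'
  obtain ⟨g, hg⟩ := (h.wp cq_empty (r := q + 2) (by simp)).decomp
  rw [nb_empty] at hg
  have hc : ∀ k, (cc G univ k : ℝ) = ∑ s ∈ range (q + 2 + 1), g s * (Bp s).coeff k := fun k => by
    rw [← Fp_coeff, hg, coeff_sum_Bp]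
  have hc0 : ∀ k, 0 ≤ (cc G univ k : ℝ) ∧ (cc G univ k : ℝ) ≤ N ^ k := fun k =>
    ⟨by exact_mod_cast cc_nonneg _ _, cc_le_powN rfl N0 _ _⟩
  have hgb := g_bound n3 hc hc0
  have hT : ∀ r ≤ q + 1, ∀ k, |∑ s ∈ range (r + 1), g s * (Bp s).coeff k| ≤ A * N ^ r :=
    fun r hr k => tail_le N2' (by omega) (fun s hs => hgb s (by omega)) k
  have hcard : Fintype.card (Fin (q + 2)) = q + 2 := Fintype.card_fin _
  have hEb : ∀ a : Fin (q + 2) → ℕ, ∑ j, a j = Fintype.card V - 2 → ∀ s,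
      es univ s (fun j => (a j : ℝ)) ≤ Eb (q + 2) (Fintype.card V - 2) s := fun a ha s => by
    have := (es_le_Eb s a).1
    rwa [hcard, ha] at this
  set a0 : Fin (q + 2) → ℕ := fun j => (Fintype.card V - 2) / (q + 2) +
    if j = 0 then (Fintype.card V - 2) % (q + 2) else 0 with ha0
  have ha0s : ∑ j, a0 j = Fintype.card V - 2 := by
    rw [sum_add_distrib, sum_ite_eq', if_pos (mem_univ _), sum_const, card_univ, hcard,
      smul_eq_mul, Nat.div_add_mod]
  by_cases hex : ∃ s, 2 ≤ s ∧ s ≤ q + 2 ∧ Eb (q + 2) (Fintype.card V - 2) s ≤ g s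
  · obtain ⟨s, hs1, hs2, hs3⟩ := hex
    obtain ⟨j, rfl⟩ := Nat.exists_eq_add_of_le' hs1
    have hjm : (j : ℝ) + 2 ≤ m := by rw [hm]; exact_mod_cast hs2
    have D1 : ∀ a : Fin (q + 2) → ℕ, ∑ j, a j = Fintype.card V - 2 →
        es univ (j + 2) (fun j => (a j : ℝ)) + (j + 3) * cc G univ (j + 1) - K0 * N ^ j ≤
          cc G univ (j + 2) := by
      intro a ha
      have b1 := hc (j + 2)
      have b2 := hc (j + 1)
      rw [sum_Bp_trunc hs2, sum_range_succ, Bp_succ] at b1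
      rw [sum_Bp_trunc (by omega)] at b2
      have b3 := (abs_le.1 (hT j (by omega) (j + 2))).1
      have b4 := mul_le_mul_of_nonneg_left (abs_le.1 (hT j (by omega) (j + 1))).2
        (show (0 : ℝ) ≤ j + 3 by positivity)
      have b5 : ((j : ℝ) + 4) * (A * N ^ j) ≤ (m + 3) * (A * N ^ j) :=
        mul_le_mul_of_nonneg_right (by linarith only [hjm]) (by positivity)
      have b6 := hEb a ha (j + 2)
      rw [b1, b2, hK0]
      push_cast
      linarith only [hs3, b3, b4, b5, b6]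
    have D2 : (cc G univ (q + 3) : ℝ) ≤ (m + 2) * cc G univ (q + 2) + K0 * N ^ (q + 1) := by
      have b1 := hc (q + 3)
      have b2 := hc (q + 2)
      rw [sum_range_succ, Bp_succ] at b1
      rw [sum_Bp_trunc le_rfl] at b2
      have b3 := (abs_le.1 (hT (q + 1) le_rfl (q + 3))).2
      have b4 := mul_le_mul_of_nonneg_left (abs_le.1 (hT (q + 1) le_rfl (q + 2))).1
        (show (0 : ℝ) ≤ m + 2 by linarith only [m2])
      rw [b1, b2, hK0, ← hm]
      linarith only [b3, b4]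
    have hpow : ∀ r, N ^ r ≤ N ^ (r + 1) := fun r => pow_le_pow_right₀ (by linarith only [A2, n3]) (by omega)
    obtain ⟨c, c1, c2, c3⟩ := hfirst V G N (j + 2) rfl n1 hs1 hs2
      (fun r hr => h.cc_pos (by omega)) (by
        have x2 : 2 ≤ N / m := by rw [le_div_iff₀ (by linarith only [m2])]; linarith only [m2, n4, mul_nonneg_of_nonpos_of_nonpos (Mathlib.Tactic.Linarith.sub_nonpos_of_le (Mathlib.Tactic.Linarith.natCast_nonneg ℝ (q + (2 : ℕ)))) (Mathlib.Tactic.Linarith.sub_nonpos_of_le m2)]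
        have x3 : N / m ≤ N := div_le_self N0.le (by linarith only [m2])
        have b1 := le_es (T := univ) (k := j + 2) (a := fun i => (a0 i : ℝ)) (lo := N / m - 2)
          (by linarith only [x2]) fun i _ => by
            have e1 := Nat.div_add_mod (Fintype.card V - 2) (q + 2)
            have e2 := Nat.mod_lt (Fintype.card V - 2) (show 0 < q + 2 by omega)
            have e3 : Fintype.card V ≤ ((Fintype.card V - 2) / (q + 2) + 2) * (q + 2) := by
              rw [add_mul, mul_comm]; omega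
            have e4 : N ≤ ((((Fintype.card V - 2) / (q + 2) : ℕ) : ℝ) + 2) * m := by
              rw [hNdef, hm]; exact_mod_cast e3
            have e5 : (((Fintype.card V - 2) / (q + 2) : ℕ) : ℝ) ≤ a0 i :=
              Nat.cast_le.2 (Nat.le_add_right _ _)
            rw [← div_le_iff₀ (by linarith only [m2])] at e4
            linarith only [e4, e5]
        rw [card_univ, hcard] at b1
        have b2 := (pert (fun _ : ℕ => N / m - 2) (fun _ => N / m) (lo := 0) (hi := N) le_rfl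
          (range (j + 2)) fun _ _ => ⟨by linarith only [x2], by linarith only [], x3⟩).2
        simp only [prod_const, card_range, sum_const, nsmul_eq_mul, sub_sub_cancel,
          Nat.add_succ_sub_one] at b2 ⊢
        have b3 : ((q + 2).choose (j + 2) : ℝ) ≤ A :=
          le_trans (by exact_mod_cast Nat.choose_le_two_pow _ _) A1
        have b4 : ((q + 2).choose (j + 2) : ℝ) * ((N / m) ^ (j + 2) - (N / m - 2) ^ (j + 2)) ≤
            A * (N ^ (j + 1) * (m * 2)) :=
          (mul_le_mul_of_nonneg_left (b2.trans (by gcongr; push_cast; linarith only [hjm]))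
            (Nat.cast_nonneg _)).trans (mul_le_mul_of_nonneg_right b3 (by positivity))
        have b5 := D1 a0 ha0s
        have b6 := mul_le_mul_of_nonneg_left (hpow j) (show 0 ≤ K0 by linarith only [k0])
        have b7 : 0 ≤ ((j : ℝ) + 3) * cc G univ (j + 1) := mul_nonneg (by positivity) (hc0 _).1
        have b8 : 0 ≤ (m + 2) * N ^ (j + 1) := by positivity
        linarith only [b1, b4, b5, b6, b7, b8]) (by
        have b1 := mul_le_mul_of_nonneg_left (hpow (q + 1)) (show 0 ≤ K0 by linarith only [k0])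
        have b2 := mul_le_mul_of_nonneg_left (hc0 (q + 2)).2 (show 0 ≤ m + 2 by linarith only [m2])
        have b3 : 0 ≤ 2 * m * A * N ^ (q + 2) := by positivity
        linarith only [D2, b1, b2, b3])
    have kN : K1 * N ≤ (K0 + K1) * N := mul_le_mul_of_nonneg_right (by linarith only [k0]) N0.le
    obtain ⟨c', d1, d2⟩ := hsecond V G N j c rfl n2 (by omega) (c1.trans kN) (c2.trans kN)
      (fun i => (c3 i).trans kN)
      (fun a ha => le_trans (sub_le_sub_left
        (mul_le_mul_of_nonneg_right (by linarith only [k1]) (by positivity)) _) (D1 a ha))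
      (D2.trans (add_le_add le_rfl (mul_le_mul_of_nonneg_right (by linarith only [k1]) (by positivity))))
    obtain ⟨e, he⟩ := exists_core h hcard (by omega) rfl n4
      (d1.trans (le_of_eq (by rw [one_div, inv_mul_eq_div]))) d2
    exact endgame h hcard (by omega) he hk1 hk2
  · push Not at hex
    have g0 : g 0 = 1 := by
      have := hc 0
      rw [sum_Bp_trunc (by omega), cc_zero] at this
      simpa using this.symm
    have g1 : g 1 = N - 2 := by
      have := hc 1
      rw [sum_Bp_trunc (by omega), cc_one, sum_range_one, Bp_succ, g0, card_univ] at this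
      push_cast at this
      linarith only [this]
    have hlt : (cc G univ k : ℝ) < Tg (q + 2) (Fintype.card V - 2) k := by
      rw [hc, Tg]
      apply sum_lt_sum
      · intro s hs
        refine mul_le_mul_of_nonneg_right ?_ (Bp_nonneg _ _)
        rcases s with _ | _ | s
        · refine le_trans ?_ (hEb a0 ha0s 0)
          simp [es, g0]
        · refine le_trans ?_ (hEb a0 ha0s 1)
          have := sum_sum_powersetCard univ 0 (fun j => (a0 j : ℝ))
          rw [Nat.choose_zero_right, Nat.cast_one, one_mul, ← Nat.cast_sum, ha0s,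
            Nat.cast_sub hn2] at this
          rw [zero_add, g1, es]
          refine le_of_eq (this.symm.trans (sum_congr rfl fun J hJ => ?_))
          obtain ⟨i, rfl⟩ := card_eq_one.1 (mem_powersetCard.1 hJ).2
          simp
        · exact (hex _ (by omega) (by have := mem_range.1 hs; omega)).le
      · refine ⟨max 2 (k / 2), mem_range.2 (by omega), ?_⟩
        exact mul_lt_mul_of_pos_right (hex _ (by omega) (by omega)) (Bp_pos (by omega) (by omega))
    exact ⟨hlt.le, fun he => absurd he hlt.ne⟩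

end Pool.Agent.Work.MP_001c0f_co
end

-- merged part: Pool.Agent.Work.MP_001c0f_co.LMain
section
set_option autoImplicit false
set_option linter.unusedSectionVars false

open Finset Polynomial

namespace Pool.Agent.Work.MP_001c0f_co

lemma alt_telescope (r : ℕ → ℤ) (D : ℕ) :
    ∑ s ∈ range D, (-1) ^ s * (r s + r (s + 1)) = r 0 - (-1) ^ D * r D := by
  induction D with
  | zero => simp
  | succ D ih => rw [sum_range_succ, ih, pow_succ]; ring

lemma eul_of_BB (k : Type) [Field k] {n d : ℕ} (G : SimpleGraph (Fin n))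
    (H : ∀ τ, Cq G τ → ∀ s : ℕ, BB k (cl G (nb G τ)) s =
      if (s : ℤ) = d - (τ.card : ℤ) then 1 else 0) : Eul G d := by
  have hN : ∀ τ, Cq G τ → nb G τ = ∅ → τ.card = d := by
    intro τ hτ he
    have h1 := H τ hτ 0
    rw [he, cl_empty, BB, rank_bd_zero, rank_bd_none k _ _ (by simp)] at h1
    have h2 : (({∅} : Finset (Finset (Fin n))).filter (fun τ => τ.card = 0)).card = 1 := by
      rw [filter_true_of_mem (by simp)]; simp
    rw [h2] at h1
    split_ifs at h1 with h3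
    · omega
    · simp at h1
  have hK : ∀ σ, Cq G σ → σ.card ≤ d := by
    intro σ hσ
    obtain ⟨ρ, h1, h2, h3⟩ := exists_max_clique (G := G) (nb G σ)
    rw [← nb_union] at h3
    have := hN _ (hσ.union h2 h1) h3
    rw [card_union_of_subset_nb h1] at this
    omega
  refine ⟨hK, hN, fun τ hτ => ?_⟩
  have h1 := alt_telescope (fun s => ((bd k (cl G (nb G τ)) s).rank : ℤ)) (d + 1)
  rw [rank_bd_zero, rank_bd_none k _ (d + 1) (fun σ hσ => by
    have := hK σ (mem_cl.1 hσ).2; omega)] at h1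
  have h2 : ∀ s, cc G (nb G τ) s = (if s = d - τ.card then 1 else 0) +
      (((bd k (cl G (nb G τ)) s).rank : ℤ) + ((bd k (cl G (nb G τ)) (s + 1)).rank : ℤ)) := by
    intro s
    have h3 := H τ hτ s
    have h4 := hK τ hτ
    rw [if_congr (show ((s : ℤ) = d - (τ.card : ℤ)) ↔ s = d - τ.card by omega) rfl rfl] at h3
    rw [← h3, BB]
    have : (((cl G (nb G τ)).filter (fun τ => τ.card = s)).card : ℤ) = cc G (nb G τ) s := rfl
    rw [this]; ring
  have h5 : ∑ s ∈ range (d + 1), cc G (nb G τ) s * (-1) ^ s = (-1) ^ (d - τ.card) := by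
    rw [sum_congr rfl (fun s _ => by rw [h2 s, mul_comm, mul_add]), sum_add_distrib, h1]
    simp only [mul_ite, mul_one, mul_zero, sum_ite_eq', mem_range]
    rw [if_pos (by omega)]; simp
  rw [Q_eq_cc (N := d + 1) (fun σ hσ => Nat.lt_succ_of_le (hK σ (mem_cl.1 hσ).2))]
  exact_mod_cast h5

lemma frozen_coeff {m : ℕ} (hm : 0 < m) (N k : ℕ) :
    ((((1 + C 2 * X) * (1 + C (N / m + 1) * X + C (N / m + 1) * X ^ 2) ^ (N % m) *
      (1 + C (N / m) * X + C (N / m) * X ^ 2) ^ (m - N % m) : ℕ[X]).coeff k : ℕ) : ℝ) =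
      Tg m N k := by
  set R : ℝ[X] := (1 + C ((N / m + 1 : ℕ) : ℝ) * X) ^ (N % m) *
    (1 + C ((N / m : ℕ) : ℝ) * X) ^ (m - N % m) with hR
  have hd : R.natDegree < m + 1 := by
    have a1 : ∀ a : ℝ, (1 + C a * X : ℝ[X]).natDegree ≤ 1 := fun a => by compute_degree
    have a2 := Nat.mod_lt N hm
    have a3 := natDegree_pow_le.trans
      (Nat.mul_le_mul_left (N % m) (a1 ((N / m + 1 : ℕ) : ℝ)))
    have a4 := natDegree_pow_le.trans
      (Nat.mul_le_mul_left (m - N % m) (a1 ((N / m : ℕ) : ℝ)))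
    have := (natDegree_mul_le (p := (1 + C ((N / m + 1 : ℕ) : ℝ) * X) ^ (N % m))
      (q := (1 + C ((N / m : ℕ) : ℝ) * X) ^ (m - N % m))).trans (add_le_add a3 a4)
    rw [hR]
    omega
  have e1 : (1 + C 2 * X) * R.comp (X + X ^ 2) =
      ∑ s ∈ range (m + 1), C (Eb m N s) * Bp s := by
    conv_lhs => rw [R.as_sum_range_C_mul_X_pow' hd]
    rw [Polynomial.sum_comp, mul_sum]
    apply sum_congr rfl
    intro s _
    rw [mul_comp, C_comp, pow_comp, X_comp, Bp_eq, Eb, ← hR]
    ring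
  rw [Tg, ← coeff_sum_Bp, ← e1, ← eq_natCast (Nat.castRingHom ℝ), ← coeff_map]
  congr 1
  simp only [hR, Polynomial.map_mul, Polynomial.map_pow, Polynomial.map_add, Polynomial.map_one,
    map_C, map_X, mul_comp, pow_comp, add_comp, one_comp, C_comp, X_comp]
  simp only [Nat.coe_castRingHom, Nat.cast_ofNat]
  ring

theorem main_large (m : ℕ) (hm : 2 ≤ m) : ∃ n0 : ℕ, ∀ (k : Type) [Field k] (n : ℕ), n0 ≤ n →
    ∀ HS : Finset (Finset (Fin n)) → ℕ → Prop,
      (∀ L d, HS L d ↔ ∀ σ ∈ L, ∀ s : ℕ,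
          BB k (L.filter (fun τ => Disjoint τ σ ∧ τ ∪ σ ∈ L)) s =
            if (s : ℤ) = (d : ℤ) + 1 - (σ.card : ℤ) then 1 else 0) →
    ∀ Δ : Finset (Finset (Fin n)),
      (∀ σ ∈ Δ, ∀ τ : Finset (Fin n), τ ⊆ σ → τ ∈ Δ) →
      (∀ v : Fin n, ({v} : Finset (Fin n)) ∈ Δ) →
      (∀ s : Finset (Fin n),
          (∀ u ∈ s, ∀ v ∈ s, ({u, v} : Finset (Fin n)) ∈ Δ) → s ∈ Δ) →
      HS Δ (2 * m) →
      ∀ i ∈ Finset.Icc 1 (2 * m), ∀ P : ℕ, (P : ℝ) = Tg m (n - 2) (i + 1) →
        (Δ.filter (fun σ => σ.card = i + 1)).card ≤ P ∧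
        ((Δ.filter (fun σ => σ.card = i + 1)).card = P →
          ∃ c : Fin n → ℕ,
            (∀ v, c v < m) ∧
            (∀ σ : Finset (Fin n),
                (∀ j, j < m → σ.filter (fun v => c v = j) ∈ Δ) → σ ∈ Δ) ∧
            (∀ j, j < m →
                HS (Δ.filter (fun σ => ∀ v ∈ σ, c v = j)) (if j = 0 then 2 else 1)) ∧
            (∀ j, j < m →
                ((Finset.univ.filter (fun v => c v = j)).card =
                    (n - 2) / m + (if j = 0 then 2 else 0) ∨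
                 (Finset.univ.filter (fun v => c v = j)).card =
                    (n - 2 + m - 1) / m + (if j = 0 then 2 else 0)))) := by
  obtain ⟨q, rfl⟩ := Nat.exists_eq_add_of_le' hm
  obtain ⟨N0, hN0⟩ := large q
  refine ⟨⌈N0⌉₊, ?_⟩
  intro k _ n hn HS hHS Δ h1 h2 h3 h4 i hi P hP
  classical
  set G := gr Δ with hG
  have hm := mem_iff_cq h1 h2 h3
  rw [← hG] at hm
  have hΔ : Δ = cl G univ := by
    ext σ; rw [hm, mem_cl]; simp
  have H : ∀ τ, Cq G τ → ∀ s : ℕ, BB k (cl G (nb G τ)) s =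
      if (s : ℤ) = ((2 * (q + 2) + 1 : ℕ) : ℤ) - (τ.card : ℤ) then 1 else 0 := by
    intro τ hτ s
    have := (hHS Δ _).1 h4 τ ((hm τ).2 hτ) s
    rw [hΔ, link_cl (mem_cl.2 ⟨subset_univ _, hτ⟩), univ_inter] at this
    rw [this, Nat.cast_add_one]
  have hsub : ∀ e, Cq G e → ∀ d : ℕ, d + 1 + e.card = 2 * (q + 2) + 1 →
      HS (cl G (nb G e)) d := by
    intro e he d hd
    rw [hHS]
    intro σ hσ s
    rw [link_cl hσ, ← nb_union]
    rw [mem_cl] at hσ
    rw [H _ (he.union hσ.2 hσ.1), card_union_of_subset_nb hσ.1]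
    have : ((2 * (q + 2) + 1 : ℕ) : ℤ) - ((e.card + σ.card : ℕ) : ℤ) =
        (d : ℤ) + 1 - (σ.card : ℤ) := by
      rw [← hd]; push_cast; ring
    rw [this]
  rw [mem_Icc] at hi
  obtain ⟨a1, a2⟩ := hN0 (Fin n) G (eul_of_BB k G H)
    (by rw [Fintype.card_fin]; exact Nat.ceil_le.1 hn) (i + 1) (by omega) (by omega)
  rw [Fintype.card_fin, ← hP] at a1 a2
  have hcard : (cc G univ (i + 1) : ℝ) = ((Δ.filter (fun σ => σ.card = i + 1)).card : ℝ) := by
    rw [hΔ]; simp [cc, clj]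
  rw [hcard] at a1 a2
  refine ⟨by exact_mod_cast a1, fun he => ?_⟩
  obtain ⟨c, j0, b1, b2, b3⟩ := a2 (by rw [he])
  rw [Fintype.card_fin] at b3
  have f1 : ∀ (j : ℕ) (hj : j < q + 2) (v : Fin n), ((Equiv.swap j0 0 (c v) : Fin (q + 2)) : ℕ) = j ↔
      c v = Equiv.swap j0 0 ⟨j, hj⟩ := fun j hj v => by
    rw [← Equiv.swap_apply_eq_iff, Fin.ext_iff]
  have f2 : ∀ (j : ℕ) (hj : j < q + 2), Equiv.swap j0 0 ⟨j, hj⟩ = j0 ↔ j = 0 := fun j hj => by
    rw [Equiv.swap_apply_eq_iff, Equiv.swap_apply_left, Fin.ext_iff]; rfl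
  refine ⟨fun v => (Equiv.swap j0 0 (c v) : Fin (q + 2)), fun v => Fin.is_lt _, ?_, ?_, ?_⟩
  · intro σ hσ
    rw [hm]
    intro u hu v hv huv
    by_cases h : c u = c v
    · exact (hm _).1 (hσ _ (Equiv.swap j0 0 (c v)).is_lt) u (mem_filter.2 ⟨hu, by simp only [h]⟩) v
        (mem_filter.2 ⟨hv, rfl⟩) huv
    · exact b1 u v h
  · intro j hj
    obtain ⟨τ, t1, t2, t3⟩ := b2 (Equiv.swap j0 0 ⟨j, hj⟩)
    have : Δ.filter (fun σ => ∀ v ∈ σ, ((Equiv.swap j0 0 (c v) : Fin (q + 2)) : ℕ) = j) =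
        cl G (nb G τ) := by
      ext σ
      simp only [mem_filter, f1 j hj, mem_cl, hm, subset_iff, t3, mem_pt, mem_univ, true_and,
        and_comm]
    rw [this]
    apply hsub τ t1
    simp only [f2 j hj] at t2
    split_ifs at t2 ⊢ <;> omega
  · intro j hj
    have t := b3 (Equiv.swap j0 0 ⟨j, hj⟩)
    simp only [f2 j hj] at t
    simp only [f1 j hj]
    exact t

end Pool.Agent.Work.MP_001c0f_co
end
end
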